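import Pool.Agent.H86.Anco.Space

/-!
# Module AMB: the ambient metrics

`G t = |dv|² + |dx|² + ds² - (Im conj(v)·dv)² / (t² + |v|²) + (H - |v|²) (|dc|² + dd²) / 4`,
`H = 2 - 2 t √(t² + |v|²)`, and `Gstd = |dv|² + |dx|² + ds² + (|dc|² + dd²) / 2`.

Hints. `eta p X = Im (conj v₀ X_{v₀} + conj v₁ X_{v₁})`, so by Cauchy-Schwarz
`(eta p X)² ≤ sig p * (‖X_{v₀}‖² + ‖X_{v₁}‖²)`, and `sig p / (t² + sig p) < 1`.
On the carrier `sig p ≤ 1`, so for `0 < t ≤ 1/4`: `2 t √(t² + sig p) ≤ 2 · (1/4) · √(17/16) < 0.52`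
and `0.48 < 2 - 2 t √(t² + σ) - σ ≤ 2`.
-/

open scoped Manifold ContDiff Bundle Topology

noncomputable section

namespace Pool.Agent.H86.Anco

variable {K : ℕ}

/-- The form `(X, Y) ↦ ⟪L X, L Y⟫`. -/
def ip {V' W' : Type*} [NormedAddCommGroup V'] [NormedSpace ℝ V'] [NormedAddCommGroup W']
    [InnerProductSpace ℝ W'] (L : V' →L[ℝ] W') : V' →L[ℝ] V' →L[ℝ] ℝ :=
  (innerSL ℝ : W' →L[ℝ] W' →L[ℝ] ℝ).bilinearComp L L

@[simp] lemma ip_apply {V' W' : Type*} [NormedAddCommGroup V'] [NormedSpace ℝ V']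
    [NormedAddCommGroup W'] [InnerProductSpace ℝ W'] (L : V' →L[ℝ] W') (X Y : V') :
    ip L X Y = inner ℝ (L X) (L Y) := rfl

/-- `eta p X = Im (conj (v₀ p) * v₀ X + conj (v₁ p) * v₁ X)`. -/
def eta (p : V K) : V K →L[ℝ] ℝ :=
  (innerSL ℝ (Complex.I * pv0 p)).comp pv0 + (innerSL ℝ (Complex.I * pv1 p)).comp pv1

lemma eta_apply (p X : V K) :
    eta p X = ((starRingEnd ℂ) (pv0 p) * pv0 X + (starRingEnd ℂ) (pv1 p) * pv1 X).im := by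
  simp only [eta, ContinuousLinearMap.add_apply, ContinuousLinearMap.comp_apply,
    innerSL_apply_apply, Complex.inner, map_mul, Complex.conj_I, Complex.mul_re, Complex.mul_im,
    Complex.add_im, Complex.neg_re, Complex.neg_im, Complex.I_re, Complex.I_im,
    Complex.conj_re, Complex.conj_im]
  ring

/-- `|v|²`. -/
def sig (p : V K) : ℝ := ‖pv0 p‖ ^ 2 + ‖pv1 p‖ ^ 2

/-- The family of ambient forms: `a` and `b` are functions of `|v|²`. -/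
def Gab (a b : ℝ → ℝ) (p : V K) : V K →L[ℝ] V K →L[ℝ] ℝ :=
  ip pv0 + ip pv1 + ip px + ip ps - a (sig p) • (eta p).smulRight (eta p)
    + (b (sig p) / 4) • (ip pc + ip pd)

lemma Gab_apply (a b : ℝ → ℝ) (p X Y : V K) :
    Gab a b p X Y = inner ℝ (pv0 X) (pv0 Y) + inner ℝ (pv1 X) (pv1 Y) + inner ℝ (px X) (px Y)
      + ps X * ps Y - a (sig p) * (eta p X * eta p Y)
      + b (sig p) / 4 * (inner ℝ (pc X) (pc Y) + pd X * pd Y) := by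
  simp only [Gab, ContinuousLinearMap.add_apply, ContinuousLinearMap.sub_apply,
    ContinuousLinearMap.smul_apply, ip_apply, ContinuousLinearMap.smulRight_apply, smul_eq_mul]
  have h : ∀ x y : ℝ, inner ℝ x y = x * y := fun x y => by
    simp [mul_comm]
  rw [h (ps X), h (pd X)]

/-- The ambient metric with parameter `t`. -/
def G (t : ℝ) : V K → V K →L[ℝ] V K →L[ℝ] ℝ :=
  Gab (fun σ => (t ^ 2 + σ)⁻¹) (fun σ => 2 - 2 * t * √(t ^ 2 + σ) - σ)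

/-- The comparison metric. -/
def Gstd : V K → V K →L[ℝ] V K →L[ℝ] ℝ := Gab (fun _ => 0) (fun _ => 2)

lemma sig_le_one {p : V K} (hp : p ∈ carrier K) : sig p ≤ 1 := by
  have h := hp.2.2.2
  unfold sig
  nlinarith [sq_nonneg ‖px p‖, sq_nonneg (ps p)]

lemma Gab_symm (a b : ℝ → ℝ) (p X Y : V K) : Gab a b p X Y = Gab a b p Y X := by
  simp only [Gab_apply]
  rw [real_inner_comm (pv0 Y), real_inner_comm (pv1 Y), real_inner_comm (px Y),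
    real_inner_comm (pc Y)]
  ring

lemma contDiff_sig : ContDiff ℝ ∞ (sig : V K → ℝ) :=
  (pv0.contDiff.norm_sq ℝ).add (pv1.contDiff.norm_sq ℝ)

lemma contDiff_eta : ContDiff ℝ ∞ (eta : V K → V K →L[ℝ] ℝ) := by
  unfold eta
  refine ContDiff.add ?_ ?_
  · exact ((innerSL ℝ : ℂ →L[ℝ] ℂ →L[ℝ] ℝ).contDiff.comp
      (contDiff_const.mul pv0.contDiff)).clm_comp contDiff_const
  · exact ((innerSL ℝ : ℂ →L[ℝ] ℂ →L[ℝ] ℝ).contDiff.comp
      (contDiff_const.mul pv1.contDiff)).clm_comp contDiff_const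

lemma contDiff_smul_form {V' W' : Type*} [NormedAddCommGroup V'] [NormedSpace ℝ V']
    [NormedAddCommGroup W'] [NormedSpace ℝ W'] {f : V' → ℝ}
    {g : V' → W'} (hf : ContDiff ℝ ∞ f) (hg : ContDiff ℝ ∞ g) :
    ContDiff ℝ ∞ (fun p => f p • g p) := hf.smul hg

lemma contDiff_Gab {a b : ℝ → ℝ} (ha : ContDiff ℝ ∞ (fun p : V K => a (sig p)))
    (hb : ContDiff ℝ ∞ (fun p : V K => b (sig p))) :
    ContDiff ℝ ∞ (Gab a b : V K → V K →L[ℝ] V K →L[ℝ] ℝ) := by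
  unfold Gab
  refine ContDiff.add (ContDiff.sub contDiff_const ?_) ?_
  · exact contDiff_smul_form ha (contDiff_eta.smulRight contDiff_eta)
  · exact contDiff_smul_form (hb.div_const 4) contDiff_const

lemma sig_nonneg (p : V K) : 0 ≤ sig p := by
  unfold sig; positivity

lemma contDiff_G {t : ℝ} (ht : 0 < t) : ContDiff ℝ ∞ (G t : V K → V K →L[ℝ] V K →L[ℝ] ℝ) := by
  have h1 : ContDiff ℝ ∞ (fun p : V K => t ^ 2 + sig p) := contDiff_const.add contDiff_sig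
  have h2 : ∀ p : V K, t ^ 2 + sig p ≠ 0 := fun p => by
    have := sig_nonneg p
    positivity
  refine contDiff_Gab (h1.inv h2) ?_
  exact (contDiff_const.sub (contDiff_const.mul (h1.sqrt h2))).sub contDiff_sig

lemma contDiff_Gstd : ContDiff ℝ ∞ (Gstd : V K → V K →L[ℝ] V K →L[ℝ] ℝ) :=
  contDiff_Gab contDiff_const contDiff_const

lemma eta_sq_le (p X : V K) : (eta p X) ^ 2 ≤ sig p * (‖pv0 X‖ ^ 2 + ‖pv1 X‖ ^ 2) := by
  have h1 : |eta p X| ≤ ‖pv0 p‖ * ‖pv0 X‖ + ‖pv1 p‖ * ‖pv1 X‖ := by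
    rw [eta_apply]
    refine (Complex.abs_im_le_norm _).trans ((norm_add_le _ _).trans ?_)
    simp
  have h2 : (eta p X) ^ 2 ≤ (‖pv0 p‖ * ‖pv0 X‖ + ‖pv1 p‖ * ‖pv1 X‖) ^ 2 := by
    rw [← sq_abs (eta p X)]
    exact pow_le_pow_left₀ (abs_nonneg _) h1 2
  refine h2.trans ?_
  unfold sig
  nlinarith [sq_nonneg (‖pv0 p‖ * ‖pv1 X‖ - ‖pv1 p‖ * ‖pv0 X‖)]

lemma Gab_self (a b : ℝ → ℝ) (p X : V K) :
    Gab a b p X X = ‖pv0 X‖ ^ 2 + ‖pv1 X‖ ^ 2 + ‖px X‖ ^ 2 + ps X ^ 2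
      - a (sig p) * (eta p X) ^ 2 + b (sig p) / 4 * (‖pc X‖ ^ 2 + pd X ^ 2) := by
  rw [Gab_apply]
  simp only [real_inner_self_eq_norm_sq]
  ring

lemma eq_zero_of {X : V K} (h0 : ‖pv0 X‖ ^ 2 + ‖pv1 X‖ ^ 2 = 0) (hx : ‖px X‖ ^ 2 + ps X ^ 2 = 0)
    (hc : ‖pc X‖ ^ 2 + pd X ^ 2 = 0) : X = 0 := by
  obtain ⟨c, d, v0, v1, x, s⟩ := X
  simp only [pc_apply, pd_apply, pv0_apply, pv1_apply, px_apply, ps_apply] at h0 hx hc
  have a1 : ‖v0‖ ^ 2 = 0 := by nlinarith [sq_nonneg ‖v0‖, sq_nonneg ‖v1‖]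
  have a2 : ‖v1‖ ^ 2 = 0 := by nlinarith [sq_nonneg ‖v0‖, sq_nonneg ‖v1‖]
  have a3 : ‖x‖ ^ 2 = 0 := by nlinarith [sq_nonneg ‖x‖, sq_nonneg s]
  have a4 : s ^ 2 = 0 := by nlinarith [sq_nonneg ‖x‖, sq_nonneg s]
  have a5 : ‖c‖ ^ 2 = 0 := by nlinarith [sq_nonneg ‖c‖, sq_nonneg d]
  have a6 : d ^ 2 = 0 := by nlinarith [sq_nonneg ‖c‖, sq_nonneg d]
  rw [sq_eq_zero_iff, norm_eq_zero] at a1 a2 a3 a5
  rw [sq_eq_zero_iff] at a4 a6
  subst a1 a2 a3 a4 a5 a6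
  rfl

lemma pos_of {X : V K} (hX : X ≠ 0) {α β γ : ℝ} (hα : 0 < α) (hβ : 0 < β) (hγ : 0 < γ) :
    0 < α * (‖pv0 X‖ ^ 2 + ‖pv1 X‖ ^ 2) + β * (‖px X‖ ^ 2 + ps X ^ 2)
      + γ * (‖pc X‖ ^ 2 + pd X ^ 2) := by
  by_contra hneg
  apply hX
  have b1 : 0 ≤ ‖pv0 X‖ ^ 2 + ‖pv1 X‖ ^ 2 := by positivity
  have b2 : 0 ≤ ‖px X‖ ^ 2 + ps X ^ 2 := by positivity
  have b3 : 0 ≤ ‖pc X‖ ^ 2 + pd X ^ 2 := by positivity
  have c1 := mul_nonneg hα.le b1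
  have c2 := mul_nonneg hβ.le b2
  have c3 := mul_nonneg hγ.le b3
  have d1 : α * (‖pv0 X‖ ^ 2 + ‖pv1 X‖ ^ 2) = 0 := by linarith
  have d2 : β * (‖px X‖ ^ 2 + ps X ^ 2) = 0 := by linarith
  have d3 : γ * (‖pc X‖ ^ 2 + pd X ^ 2) = 0 := by linarith
  exact eq_zero_of ((mul_eq_zero.1 d1).resolve_left hα.ne') ((mul_eq_zero.1 d2).resolve_left hβ.ne')
    ((mul_eq_zero.1 d3).resolve_left hγ.ne')

lemma H_bounds {t σ : ℝ} (ht : 0 < t) (ht' : t ≤ 1 / 4) (h0 : 0 ≤ σ) (h1 : σ ≤ 1) :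
    0 < 2 - 2 * t * √(t ^ 2 + σ) - σ ∧ 2 - 2 * t * √(t ^ 2 + σ) - σ ≤ 2 := by
  have hs0 : 0 ≤ √(t ^ 2 + σ) := Real.sqrt_nonneg _
  have hs : √(t ^ 2 + σ) ≤ 3 / 2 := by
    rw [Real.sqrt_le_left (by norm_num)]
    nlinarith
  constructor
  · nlinarith
  · nlinarith [mul_nonneg ht.le hs0]

lemma G_pos {t : ℝ} (ht : 0 < t) (ht' : t ≤ 1 / 4) {p : V K} (hp : p ∈ carrier K) {X : V K}
    (hX : X ≠ 0) : 0 < G t p X X := by
  unfold G
  rw [Gab_self]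
  have hs0 := sig_nonneg p
  have hs1 := sig_le_one hp
  obtain ⟨hH, -⟩ := H_bounds ht ht' hs0 hs1
  have hD : 0 < t ^ 2 + sig p := by positivity
  have he := eta_sq_le p X
  have h1 : (t ^ 2 + sig p)⁻¹ * (eta p X) ^ 2
      ≤ (1 - t ^ 2 / (t ^ 2 + sig p)) * (‖pv0 X‖ ^ 2 + ‖pv1 X‖ ^ 2) := by
    have : (1 - t ^ 2 / (t ^ 2 + sig p)) * (‖pv0 X‖ ^ 2 + ‖pv1 X‖ ^ 2)
        = (t ^ 2 + sig p)⁻¹ * (sig p * (‖pv0 X‖ ^ 2 + ‖pv1 X‖ ^ 2)) := by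
      field_simp
      ring
    rw [this]
    exact mul_le_mul_of_nonneg_left he (inv_pos.2 hD).le
  have h2 := pos_of hX (α := t ^ 2 / (t ^ 2 + sig p)) (β := 1)
    (γ := (2 - 2 * t * √(t ^ 2 + sig p) - sig p) / 4) (by positivity) one_pos (by positivity)
  nlinarith

lemma Gstd_pos (p : V K) {X : V K} (hX : X ≠ 0) : 0 < Gstd p X X := by
  unfold Gstd
  rw [Gab_self]
  have h2 := pos_of hX (α := 1) (β := 1) (γ := 2 / 4) one_pos one_pos (by norm_num)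
  nlinarith

lemma G_le_Gstd {t : ℝ} (ht : 0 < t) (ht' : t ≤ 1 / 4) {p : V K} (hp : p ∈ carrier K)
    (X : V K) : G t p X X ≤ Gstd p X X := by
  unfold G Gstd
  rw [Gab_self, Gab_self]
  have hs0 := sig_nonneg p
  have hs1 := sig_le_one hp
  obtain ⟨-, hH⟩ := H_bounds ht ht' hs0 hs1
  have hD : 0 < t ^ 2 + sig p := by positivity
  have h1 : 0 ≤ (t ^ 2 + sig p)⁻¹ * (eta p X) ^ 2 := by positivity
  have h2 : (2 - 2 * t * √(t ^ 2 + sig p) - sig p) / 4 * (‖pc X‖ ^ 2 + pd X ^ 2)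
      ≤ 2 / 4 * (‖pc X‖ ^ 2 + pd X ^ 2) :=
    mul_le_mul_of_nonneg_right (by linarith) (by positivity)
  linarith

@[simp] lemma pc_sw (X : V K) : pc (sw X) = (starRingEnd ℂ) (pc X) := rfl
@[simp] lemma pd_sw (X : V K) : pd (sw X) = - pd X := rfl
@[simp] lemma pv0_sw (X : V K) : pv0 (sw X) = pv1 X := rfl
@[simp] lemma pv1_sw (X : V K) : pv1 (sw X) = pv0 X := rfl
@[simp] lemma px_sw (X : V K) : px (sw X) = px X := rfl
@[simp] lemma ps_sw (X : V K) : ps (sw X) = ps X := rfl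
@[simp] lemma pc_rf (X : V K) : pc (rf X) = pc X := rfl
@[simp] lemma pd_rf (X : V K) : pd (rf X) = pd X := rfl
@[simp] lemma pv0_rf (X : V K) : pv0 (rf X) = pv0 X := rfl
@[simp] lemma pv1_rf (X : V K) : pv1 (rf X) = pv1 X := rfl
@[simp] lemma px_rf (X : V K) : px (rf X) = px X := rfl
@[simp] lemma ps_rf (X : V K) : ps (rf X) = - ps X := rfl

lemma Gab_sw (a b : ℝ → ℝ) (p X Y : V K) : Gab a b (sw p) (sw X) (sw Y) = Gab a b p X Y := by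
  have hs : sig (sw p) = sig p := by simp [sig, add_comm]
  have he : ∀ X : V K, eta (sw p) (sw X) = eta p X := fun X => by
    simp [eta_apply, add_comm]
  have hc : ∀ a b : ℂ, inner ℝ ((starRingEnd ℂ) a) ((starRingEnd ℂ) b) = inner ℝ a b := by
    intro a b
    simp [Complex.inner]
  simp only [Gab_apply, hs, he, pc_sw, pd_sw, pv0_sw, pv1_sw, px_sw, ps_sw, hc]
  ring

lemma Gab_rf (a b : ℝ → ℝ) (p X Y : V K) : Gab a b (rf p) (rf X) (rf Y) = Gab a b p X Y := by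
  have hs : sig (rf p) = sig p := by simp [sig]
  have he : ∀ X : V K, eta (rf p) (rf X) = eta p X := fun X => by
    simp [eta_apply]
  simp only [Gab_apply, hs, he, pc_rf, pd_rf, pv0_rf, pv1_rf, px_rf, ps_rf]
  ring

/-- The symmetries preserve all the forms `Gab`. -/
lemma Gab_sym (a b : ℝ → ℝ) (i : Bool × Bool) (p X Y : V K) :
    Gab a b (sym i p) (sym i X) (sym i Y) = Gab a b p X Y := by
  obtain ⟨i1, i2⟩ := i
  cases i1 <;> cases i2 <;> simp [sym, Gab_sw, Gab_rf]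

end Pool.Agent.H86.Anco
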