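import Mathlib

/-!
# Definitions used by the hand-in `MP_b7dcac_gt.SphereBundles`

1. The curvature operator of a Riemannian metric in coordinates and on a manifold; almost
nonnegative curvature operator (`AdmitsANCO`).
2. The manifold `MK K`: the unit sphere bundle of `L ⊕ ℝ^(K+1)` over `S² = CP¹`.
-/

open scoped Manifold ContDiff Bundle

noncomputable section

namespace Pool.Agent.H86.Anco.Stmt

section Local

variable {E : Type*} [NormedAddCommGroup E] [NormedSpace ℝ E]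

/-- Christoffel symbols of the first kind of a field `g` of bilinear forms on `E`:
`(∂_a g(b,c) + ∂_b g(a,c) - ∂_c g(a,b)) / 2` at `x`. -/
def chr1 (g : E → E → E → ℝ) (x a b c : E) : ℝ :=
  (fderiv ℝ (fun y => g y b c) x a + fderiv ℝ (fun y => g y a c) x b
    - fderiv ℝ (fun y => g y a b) x c) / 2

/-- Christoffel symbols of the second kind, `∇_a b` at `x` for constant vector fields `a`, `b`:
the vector `v` with `g x v c = chr1 g x a b c` for all `c`. -/
def chr (g : E → E → E → ℝ) (x a b : E) : E :=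
  Classical.epsilon fun v => ∀ c, g x v c = chr1 g x a b c

/-- The curvature tensor `R(a,b)c` at `x` of the metric `g`. -/
def riem (g : E → E → E → ℝ) (x a b c : E) : E :=
  fderiv ℝ (fun y => chr g y b c) x a - fderiv ℝ (fun y => chr g y a c) x b
    + chr g x a (chr g x b c) - chr g x b (chr g x a c)

/-- The quadratic form `⟨𝓡 β, β⟩` of the curvature operator on the bivector
`β = ∑ i, X i ∧ Y i`. -/
def curvForm (g : E → E → E → ℝ) (x : E) {N : ℕ} (X Y : Fin N → E) : ℝ :=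
  ∑ i, ∑ j, g x (riem g x (X i) (Y i) (Y j)) (X j)

/-- The squared norm of the bivector `∑ i, X i ∧ Y i`. -/
def bivNormSq (g : E → E → E → ℝ) (x : E) {N : ℕ} (X Y : Fin N → E) : ℝ :=
  ∑ i, ∑ j, (g x (X i) (X j) * g x (Y i) (Y j) - g x (X i) (Y j) * g x (Y i) (X j))

/-- All eigenvalues of the curvature operator of `g` at `x` are at least `c`. -/
def CurvOpGE (g : E → E → E → ℝ) (x : E) (c : ℝ) : Prop :=
  ∀ (N : ℕ) (X Y : Fin N → E), c * bivNormSq g x X Y ≤ curvForm g x X Y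

end Local

section Manifold

variable {E : Type*} [NormedAddCommGroup E] [NormedSpace ℝ E]
  {M : Type*} [TopologicalSpace M] [ChartedSpace E M] [IsManifold 𝓘(ℝ, E) ∞ M]

variable (E M) in
/-- Smooth Riemannian metrics on the manifold `M` modelled on `E`. -/
abbrev RMetric : Type _ :=
  Bundle.ContMDiffRiemannianMetric 𝓘(ℝ, E) ∞ E (fun x : M => TangentSpace 𝓘(ℝ, E) x)

/-- The metric `g` written in the preferred chart around `x`. -/
def inChart (g : RMetric E M) (x : M) (y a b : E) : ℝ :=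
  g.inner ((extChartAt 𝓘(ℝ, E) x).symm y)
    (mfderiv 𝓘(ℝ, E) 𝓘(ℝ, E) (extChartAt 𝓘(ℝ, E) x).symm y a)
    (mfderiv 𝓘(ℝ, E) 𝓘(ℝ, E) (extChartAt 𝓘(ℝ, E) x).symm y b)

/-- All eigenvalues of the curvature operator of `(M, g)`, at every point, are at least `c`. -/
def HasCurvOpGE (g : RMetric E M) (c : ℝ) : Prop :=
  ∀ x : M, CurvOpGE (inChart g x) (extChartAt 𝓘(ℝ, E) x x) c

/-- The diameter of `(M, g)` for the Riemannian distance (infimum of the lengths of `C^1`
paths). -/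
def riemDiam (g : RMetric E M) : ENNReal :=
  letI : Bundle.RiemannianBundle (fun x : M => TangentSpace 𝓘(ℝ, E) x) := ⟨g.toRiemannianMetric⟩
  ⨆ (x : M) (y : M), Manifold.riemannianEDist 𝓘(ℝ, E) x y

variable (E M) in
/-- `M` admits almost nonnegative curvature operator: for every `ε > 0` there is a smooth
Riemannian metric `g` of finite diameter all of whose curvature operator eigenvalues `μ`
satisfy `μ * diam ^ 2 > -ε` (uniformly: they are at least `c` with `c * diam ^ 2 > -ε`). -/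
def AdmitsANCO : Prop :=
  ∀ ε : ℝ, 0 < ε → ∃ (g : RMetric E M) (c : ℝ), HasCurvOpGE g c ∧ riemDiam g ≠ ⊤ ∧
    -ε < c * (riemDiam g).toReal ^ 2

end Manifold

section Example

/-- The ambient vector space `ℂ × ℝ × ℂ × ℂ × ℝ^K × ℝ`, with coordinates
`(c, d, v₀, v₁, x, s)`. -/
def VK (K : ℕ) : Type := ℂ × ℝ × ℂ × ℂ × EuclideanSpace ℝ (Fin K) × ℝ

/-- The model space `ℂ × ℂ × ℝ^K`, a real vector space of dimension `K + 4`. -/
def EK (K : ℕ) : Type := ℂ × ℂ × EuclideanSpace ℝ (Fin K)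

instance (K : ℕ) : NormedAddCommGroup (VK K) :=
  inferInstanceAs (NormedAddCommGroup (ℂ × ℝ × ℂ × ℂ × EuclideanSpace ℝ (Fin K) × ℝ))

instance (K : ℕ) : NormedSpace ℝ (VK K) :=
  inferInstanceAs (NormedSpace ℝ (ℂ × ℝ × ℂ × ℂ × EuclideanSpace ℝ (Fin K) × ℝ))

instance (K : ℕ) : NormedAddCommGroup (EK K) :=
  inferInstanceAs (NormedAddCommGroup (ℂ × ℂ × EuclideanSpace ℝ (Fin K)))

instance (K : ℕ) : NormedSpace ℝ (EK K) :=
  inferInstanceAs (NormedSpace ℝ (ℂ × ℂ × EuclideanSpace ℝ (Fin K)))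

/-- `(c, d)` lies on the unit sphere `S²` of `ℂ × ℝ`, the vector `(v₀, v₁)` lies on the complex
line of `ℂ²` which corresponds to `(c, d)` (the image of the projection matrix with rows
`(1 + d, conj c) / 2` and `(c, 1 - d) / 2`), and `‖v₀‖² + ‖v₁‖² + ‖x‖² + s² = 1`. -/
def OnBundle {K : ℕ} (c : ℂ) (d : ℝ) (v₀ v₁ : ℂ) (x : EuclideanSpace ℝ (Fin K)) (s : ℝ) : Prop :=
  ‖c‖ ^ 2 + d ^ 2 = 1 ∧ ((1 + d : ℝ) : ℂ) * v₁ = c * v₀ ∧
    ((1 - d : ℝ) : ℂ) * v₀ = (starRingEnd ℂ) c * v₁ ∧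
    ‖v₀‖ ^ 2 + ‖v₁‖ ^ 2 + ‖x‖ ^ 2 + s ^ 2 = 1

/-- The total space of the unit sphere bundle of `L ⊕ ℝ^(K+1)` over `S² = CP¹`, `L` the
tautological complex line bundle, with the topology of a subspace of the ambient space. -/
def MK (K : ℕ) : Type :=
  {p : VK K // OnBundle (K := K) p.1 p.2.1 p.2.2.1 p.2.2.2.1 p.2.2.2.2.1 p.2.2.2.2.2}

instance (K : ℕ) : TopologicalSpace (MK K) := instTopologicalSpaceSubtype

/-- The inclusion into the ambient space. -/
def incl (K : ℕ) (p : MK K) : VK K := p.1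

end Example

end Pool.Agent.H86.Anco.Stmt
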