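import Pool.Agent.H86.Anco.Main
import Pool.Agent.H86.Anco.Stmt

/-!
# From the internal definitions to the definitions of the statement
-/

open scoped Manifold ContDiff Bundle Topology

noncomputable section

namespace Pool.Agent.H86.Anco

section Local

variable {E : Type*} [NormedAddCommGroup E] [NormedSpace ℝ E] [FiniteDimensional ℝ E]

/-- The plain function belonging to a field of continuous bilinear forms. -/
def plain (g : E → E →L[ℝ] E →L[ℝ] ℝ) : E → E → E → ℝ := fun y a b => g y a b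

lemma fderiv_plain {g : E → E →L[ℝ] E →L[ℝ] ℝ} {x : E} (h : DifferentiableAt ℝ g x)
    (a b c : E) : fderiv ℝ (fun y => plain g y b c) x a = fderiv ℝ g x a b c := by
  have h1 : HasFDerivAt (fun y => g y b) ((fderiv ℝ g x).flip b) x := by
    have := h.hasFDerivAt.clm_apply (hasFDerivAt_const b x)
    simpa using this
  have h2 : HasFDerivAt (fun y => g y b c) (((fderiv ℝ g x).flip b).flip c) x := by
    have := h1.clm_apply (hasFDerivAt_const c x)
    simpa using this
  have h3 : fderiv ℝ (fun y => plain g y b c) x = ((fderiv ℝ g x).flip b).flip c := h2.fderiv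
  rw [h3]
  rfl

lemma chr1_plain {g : E → E →L[ℝ] E →L[ℝ] ℝ} {x : E} (h : DifferentiableAt ℝ g x)
    (a b c : E) : Stmt.chr1 (plain g) x a b c = chr1 g x a b c := by
  rw [Stmt.chr1, fderiv_plain h, fderiv_plain h, fderiv_plain h, chr1_apply]

lemma chr_plain {g : E → E →L[ℝ] E →L[ℝ] ℝ} {x : E} (h : DifferentiableAt ℝ g x)
    (hpos : ∀ a, a ≠ 0 → 0 < g x a a) (a b : E) :
    Stmt.chr (plain g) x a b = chr g x a b := by
  have hex : ∃ v, ∀ c, plain g x v c = Stmt.chr1 (plain g) x a b c :=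
    ⟨chr g x a b, fun c => by rw [chr1_plain h]; exact apply_chr hpos a b c⟩
  have hs := Classical.epsilon_spec hex
  have hs' : ∀ c, g x (Stmt.chr (plain g) x a b) c = g x (chr g x a b) c := by
    intro c
    rw [apply_chr hpos, ← chr1_plain h]
    exact hs c
  by_contra hne
  have hd : Stmt.chr (plain g) x a b - chr g x a b ≠ 0 := sub_ne_zero.mpr hne
  have := hpos _ hd
  rw [map_sub] at this
  simp [hs'] at this

lemma riem_plain {g : E → E →L[ℝ] E →L[ℝ] ℝ} {x : E} (h : IsMetricAt g x) (a b c : E) :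
    Stmt.riem (plain g) x a b c = riem g x a b c := by
  have hev : ∀ u v : E, (fun y => Stmt.chr (plain g) y u v) =ᶠ[𝓝 x] fun y => chr g y u v := by
    intro u v
    filter_upwards [h.smooth_near, h.eventually_pos] with y hy hy'
    exact chr_plain (hy.differentiableAt (by simp)) hy' u v
  have hx : ∀ u v : E, Stmt.chr (plain g) x u v = chr g x u v := fun u v =>
    (hev u v).self_of_nhds
  rw [Stmt.riem, riem, (hev b c).fderiv_eq, (hev a c).fderiv_eq, hx, hx, hx, hx]

lemma curvOpGE_plain {g : E → E →L[ℝ] E →L[ℝ] ℝ} {x : E} (h : IsMetricAt g x) {c : ℝ}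
    (hc : CurvOpGE g x c) : Stmt.CurvOpGE (plain g) x c := by
  intro N X Y
  have := hc N X Y
  simp only [Stmt.curvForm, Stmt.bivNormSq, riem_plain h]
  exact this

end Local

section Global

variable {K : ℕ}

theorem exists_metric' {t : ℝ} (ht : 0 < t) (ht' : t ≤ 1 / 4) :
    ∃ g : RMetric (E K) (M K), Stmt.HasCurvOpGE g (-t) ∧
      ∀ x : M K, (g.inner x : E K →L[ℝ] E K →L[ℝ] ℝ)
        = pullInner (E := E K) (Subtype.val : M K → V K) (G t) x := by
  obtain ⟨g, hg⟩ := exists_pullMetric (E := E K) (M := M K) (Subtype.val : M K → V K) (G t)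
    contMDiff_incl (contDiff_G ht) mfderiv_incl_injective
    (fun _ _ _ => Gab_symm _ _ _ _ _) (fun x _ hv => G_pos ht ht' x.2 hv)
  refine ⟨g, ?_, hg⟩
  intro x
  have h : inChart g x = gPhi (K := K) t := by
    funext y
    rw [inChart_pullMetric (Subtype.val : M K → V K) (G t) contMDiff_incl g hg x
      (extChartAt_target x) y]
    simp only [coe_extChartAt_symm]
    exact pull_sym _ _ _ y
  have h1 : Stmt.inChart g x = plain (inChart g x) := rfl
  rw [h1, h]
  exact curvOpGE_plain (isMetricAt_gPhi ht ht' _) (curvOpGE_gPhi ht ht' _)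

theorem admitsANCO' (K : ℕ) : Stmt.AdmitsANCO (E K) (M K) := by
  intro ε hε
  obtain ⟨g₀, hg₀⟩ := exists_std_metric (K := K)
  have hfin : riemDiam g₀ ≠ ⊤ := riemDiam_ne_top g₀
  set D : ℝ := (riemDiam g₀).toReal with hD
  have hD0 : 0 ≤ D := ENNReal.toReal_nonneg
  let t : ℝ := min (1 / 4) (ε / (2 * (D ^ 2 + 1)))
  have hpos : 0 < 2 * (D ^ 2 + 1) := by positivity
  have ht : 0 < t := lt_min (by norm_num) (by positivity)
  have ht' : t ≤ 1 / 4 := min_le_left _ _
  have ht'' : t ≤ ε / (2 * (D ^ 2 + 1)) := min_le_right _ _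
  obtain ⟨g, hg, hgi⟩ := exists_metric' (K := K) ht ht'
  have hle : riemDiam g ≤ riemDiam g₀ := by
    apply riemDiam_mono
    intro x v
    have h1 := congrArg (fun B : E K →L[ℝ] E K →L[ℝ] ℝ => B v v) (hgi x)
    have h2 := congrArg (fun B : E K →L[ℝ] E K →L[ℝ] ℝ => B v v) (hg₀ x)
    refine h1.le.trans (le_trans ?_ h2.ge)
    exact G_le_Gstd ht ht' x.2 _
  have hgfin : riemDiam g ≠ ⊤ := ne_top_of_le_ne_top hfin hle
  refine ⟨g, -t, hg, hgfin, ?_⟩
  have hDle : (riemDiam g).toReal ≤ D := ENNReal.toReal_mono hfin hle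
  have h0 : 0 ≤ (riemDiam g).toReal := ENNReal.toReal_nonneg
  have hsq : (riemDiam g).toReal ^ 2 ≤ D ^ 2 := by gcongr
  have h3 : t * (riemDiam g).toReal ^ 2 ≤ ε / (2 * (D ^ 2 + 1)) * D ^ 2 := by
    gcongr
  have h4 : ε / (2 * (D ^ 2 + 1)) * D ^ 2 < ε := by
    rw [div_mul_eq_mul_div, div_lt_iff₀ hpos]
    nlinarith [sq_nonneg D]
  have h5 : -ε < -t * (riemDiam g).toReal ^ 2 := by linarith
  exact h5

/-- The charted space structure on `MK K`. -/
def csMK (K : ℕ) : ChartedSpace (Stmt.EK K) (Stmt.MK K) :=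
  (instChartedSpace : ChartedSpace (E K) (M K))

theorem main (K : ℕ) :
    Module.finrank ℝ (Stmt.EK K) = K + 4 ∧ T2Space (Stmt.MK K) ∧ CompactSpace (Stmt.MK K) ∧
      SimplyConnectedSpace (Stmt.MK K) ∧
      ∃ (_ : ChartedSpace (Stmt.EK K) (Stmt.MK K)) (_ : IsManifold 𝓘(ℝ, Stmt.EK K) ∞ (Stmt.MK K)),
        ContMDiff 𝓘(ℝ, Stmt.EK K) 𝓘(ℝ, Stmt.VK K) ∞ (Stmt.incl K) ∧
        (∀ x : Stmt.MK K, Function.Injective
          (mfderiv 𝓘(ℝ, Stmt.EK K) 𝓘(ℝ, Stmt.VK K) (Stmt.incl K) x)) ∧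
        Stmt.AdmitsANCO (Stmt.EK K) (Stmt.MK K) := by
  refine ⟨finrank_E, (inferInstance : T2Space (M K)), (inferInstance : CompactSpace (M K)),
    (inferInstance : SimplyConnectedSpace (M K)), csMK K,
    (instIsManifold : IsManifold 𝓘(ℝ, E K) ∞ (M K)), contMDiff_incl (K := K),
    mfderiv_incl_injective (K := K), admitsANCO' K⟩

end Global

end Pool.Agent.H86.Anco
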