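import Pool.Agent.H86.Anco.Amb

/-!
# The metric in adapted coordinates `(ψ, ξ, z) ∈ ℝ × ℝ^k × ℂ`

`hmet t S₀ p = m(ξ) |dξ|² + f(S(ξ)) (dψ + A(z))² + H(S(ξ)) n(z) |dz|²`,
`S(ξ) = ((1 - |ξ|²/4) S₀ + ⟪p, ξ⟫) / (1 + |ξ|²/4)`, `m = (1 + |ξ|²/4)⁻²`, `n = (1 + |z|²)⁻²`,
`f(S) = t² S² / (t² + S²)`, `H(S) = 2 - 2 t √(t² + S²)`, `A(z)(b) = Im(conj z b_z) / (1 + |z|²)`.
-/

open scoped Manifold ContDiff Bundle Topology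

noncomputable section

namespace Pool.Agent.H86.Anco

variable {k : ℕ}

/-- Coordinates `(ψ, ξ, z)`. -/
abbrev W (k : ℕ) : Type := ℝ × F k × ℂ

def qψ : W k →L[ℝ] ℝ := ContinuousLinearMap.fst ℝ ℝ (F k × ℂ)
def qξ : W k →L[ℝ] F k :=
  (ContinuousLinearMap.fst ℝ (F k) ℂ).comp (ContinuousLinearMap.snd ℝ ℝ (F k × ℂ))
def qz : W k →L[ℝ] ℂ :=
  (ContinuousLinearMap.snd ℝ (F k) ℂ).comp (ContinuousLinearMap.snd ℝ ℝ (F k × ℂ))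

@[simp] lemma qψ_apply (u : W k) : qψ u = u.1 := rfl
@[simp] lemma qξ_apply (u : W k) : qξ u = u.2.1 := rfl
@[simp] lemma qz_apply (u : W k) : qz u = u.2.2 := rfl

/-- The last coordinate of the point with stereographic coordinate `ξ / 2`. -/
def Sf (S₀ : ℝ) (p ξ : F k) : ℝ :=
  ((1 - ‖ξ‖ ^ 2 / 4) * S₀ + inner ℝ p ξ) / (1 + ‖ξ‖ ^ 2 / 4)

/-- The connection form `dψ + A`. -/
def Af (z : ℂ) : W k →L[ℝ] ℝ :=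
  qψ + (1 + ‖z‖ ^ 2)⁻¹ • (innerSL ℝ (Complex.I * z)).comp qz

/-- The metric in the adapted coordinates. -/
def hmet (t S₀ : ℝ) (p : F k) (u : W k) : W k →L[ℝ] W k →L[ℝ] ℝ :=
  ((1 + ‖u.2.1‖ ^ 2 / 4) ^ 2)⁻¹ • ip qξ
    + (t ^ 2 * Sf S₀ p u.2.1 ^ 2 / (t ^ 2 + Sf S₀ p u.2.1 ^ 2)) •
        (Af u.2.2).smulRight (Af u.2.2)
    + ((2 - 2 * t * √(t ^ 2 + Sf S₀ p u.2.1 ^ 2)) / (1 + ‖u.2.2‖ ^ 2) ^ 2) • ip qz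

lemma hmet_apply (t S₀ : ℝ) (p : F k) (u a b : W k) :
    hmet t S₀ p u a b = ((1 + ‖u.2.1‖ ^ 2 / 4) ^ 2)⁻¹ * inner ℝ a.2.1 b.2.1
      + (t ^ 2 * Sf S₀ p u.2.1 ^ 2 / (t ^ 2 + Sf S₀ p u.2.1 ^ 2)) * (Af u.2.2 a * Af u.2.2 b)
      + ((2 - 2 * t * √(t ^ 2 + Sf S₀ p u.2.1 ^ 2)) / (1 + ‖u.2.2‖ ^ 2) ^ 2)
        * inner ℝ a.2.2 b.2.2 := by
  simp only [hmet, ContinuousLinearMap.add_apply, ContinuousLinearMap.smul_apply, ip_apply,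
    ContinuousLinearMap.smulRight_apply, smul_eq_mul, qξ_apply, qz_apply]

/-- `Im (conj u * v)`. -/
def om (u v : ℂ) : ℝ := u.re * v.im - u.im * v.re

/-- Constants at the centre. -/
def cR (t S₀ : ℝ) : ℝ := √(t ^ 2 + S₀ ^ 2)
def cf (t S₀ : ℝ) : ℝ := t ^ 2 * S₀ ^ 2 / (t ^ 2 + S₀ ^ 2)
def cf' (t S₀ : ℝ) : ℝ := 2 * t ^ 4 * S₀ / (t ^ 2 + S₀ ^ 2) ^ 2
def cf'' (t S₀ : ℝ) : ℝ := 2 * t ^ 4 * (t ^ 2 - 3 * S₀ ^ 2) / (t ^ 2 + S₀ ^ 2) ^ 3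
def cH (t S₀ : ℝ) : ℝ := 2 - 2 * t * cR t S₀
def cH' (t S₀ : ℝ) : ℝ := -2 * t * S₀ / cR t S₀
def cH'' (t S₀ : ℝ) : ℝ := -2 * t ^ 3 / cR t S₀ ^ 3

end Pool.Agent.H86.Anco
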