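import Pool.Agent.H86.Anco.CenterJet

/-!
# Module CENTER-ALG: the curvature tensor of `hmet` at `0`

Step 1: `chr (hmet t S₀ p) 0 a b = Γ(a, b)` with (`⟪Γ, c⟫_g = chr1`, compare components; by
`apply_chr`, `chr1_apply`, `fderiv_hmet`, `hmet_zero` and nondegeneracy)
`Γ_ψ = (f'/(2f)) (⟪p,a⟫ b_ψ + ⟪p,b⟫ a_ψ)`, `Γ_ξ = -(1/2)(f' a_ψ b_ψ + H' ⟪a_z,b_z⟫) p`,
`Γ_z = (1/H) (f (b_ψ i a_z + a_ψ i b_z) + (H'/2)(⟪p,a⟫ b_z + ⟪p,b⟫ a_z))`.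
Step 2: by `riem_jet`, `g(R(X,Y)Y',X')` is an explicit polynomial and equals `Rform` below
(checked numerically; use `f = F²`, `F = tS₀/R`, `R = √(t²+S₀²)`, `H' = -2F`, `H'' = -2t³/R³`,
`f' = 2 F t³/R³`, `f'' = 2 (t³/R³)² - 6 t⁴ S₀²/R⁶`; `‖p‖² = 1 - S₀²`; inner products in `ℝ^k` are
sums over coordinates, `∑_{ab} B_ab B'_ab / 2 = ⟪X,X'⟫⟪Y,Y'⟫ - ⟪X,Y'⟫⟪Y,X'⟫`).
-/

open scoped Manifold ContDiff Bundle Topology

noncomputable section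

namespace Pool.Agent.H86.Anco

variable {k : ℕ}

/-- `F = t S₀ / R`. -/
def cF (t S₀ : ℝ) : ℝ := t * S₀ / cR t S₀
/-- `F' = t³ / R³`. -/
def cF' (t S₀ : ℝ) : ℝ := t ^ 3 / cR t S₀ ^ 3
/-- `q = t² / R²`. -/
def cq (t S₀ : ℝ) : ℝ := t ^ 2 / cR t S₀ ^ 2
/-- `κ = F'/H + F²/H²`. -/
def cκ (t S₀ : ℝ) : ℝ := cF' t S₀ / cH t S₀ + cF t S₀ ^ 2 / cH t S₀ ^ 2

/-- The components of the bivector `X ∧ Y`. -/
def bB (X Y : W k) (a b : Fin k) : ℝ := X.2.1 a * Y.2.1 b - X.2.1 b * Y.2.1 a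
def bP (X Y : W k) (a : Fin k) : ℝ := X.2.1 a * Y.1 - X.1 * Y.2.1 a
def bC (X Y : W k) (a : Fin k) : ℂ := (X.2.1 a : ℂ) * Y.2.2 - (Y.2.1 a : ℂ) * X.2.2
def bD (X Y : W k) : ℂ := (X.1 : ℂ) * Y.2.2 - (Y.1 : ℂ) * X.2.2
def bW (X Y : W k) : ℝ := om X.2.2 Y.2.2

/-- The curvature form of `hmet` at the centre, on `(X ∧ Y, X' ∧ Y')`. -/
def Rform (t S₀ : ℝ) (p : F k) (X Y X' Y' : W k) : ℝ :=
  (∑ a, ∑ b, bB X Y a b * bB X' Y' a b) / 2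
  + cF t S₀ ^ 2 * (3 * (cq t S₀ ^ 2 / t ^ 2) * ((∑ a, p a * bP X Y a) * (∑ a, p a * bP X' Y' a))
      + cq t S₀ * ∑ a, bP X Y a * bP X' Y' a)
  + cκ t S₀ * cH t S₀ * inner ℝ ((∑ a, (p a : ℂ) * bC X Y a) + (cF t S₀ : ℂ) * Complex.I * bD X Y)
      ((∑ a, (p a : ℂ) * bC X' Y' a) + (cF t S₀ : ℂ) * Complex.I * bD X' Y')
  - cF t S₀ * S₀ * ∑ a, inner ℝ (bC X Y a) (bC X' Y' a)
  - cF' t S₀ * S₀ ^ 2 * cF t S₀ ^ 2 * inner ℝ (bD X Y) (bD X' Y')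
  - 2 * cκ t S₀ * cF t S₀ * cH t S₀ *
      ((∑ a, p a * bP X Y a) * bW X' Y' + (∑ a, p a * bP X' Y' a) * bW X Y)
  + (4 * cH t S₀ - 3 * cF t S₀ ^ 2 - cF t S₀ ^ 2 * (1 - S₀ ^ 2)) * (bW X Y * bW X' Y')

namespace CA

lemma cR_pos {t S₀ : ℝ} (ht : 0 < t) : 0 < cR t S₀ := Real.sqrt_pos.2 (by positivity)

lemma cR_sq (t S₀ : ℝ) : cR t S₀ ^ 2 = t ^ 2 + S₀ ^ 2 := Real.sq_sqrt (by positivity)

lemma cH_pos {t S₀ : ℝ} (ht : 0 < t) (ht' : t ≤ 1 / 4) (hS : 0 < S₀) (hS' : S₀ ≤ 1) :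
    0 < cH t S₀ := by
  have h1 : cR t S₀ ≤ 2 := by
    unfold cR
    rw [Real.sqrt_le_left (by norm_num)]
    nlinarith
  have h2 := cR_pos (S₀ := S₀) ht
  unfold cH
  nlinarith

lemma cF_pos {t S₀ : ℝ} (ht : 0 < t) (hS : 0 < S₀) : 0 < cF t S₀ := by
  have h2 := cR_pos (S₀ := S₀) ht
  unfold cF
  positivity

lemma cf_eq (t S₀ : ℝ) : cf t S₀ = cF t S₀ ^ 2 := by
  unfold cf cF
  rw [div_pow, cR_sq, mul_pow]

lemma cf'_eq (t S₀ : ℝ) : cf' t S₀ = 2 * cF t S₀ * cF' t S₀ := by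
  unfold cf' cF cF'
  have h : (t ^ 2 + S₀ ^ 2) ^ 2 = cR t S₀ * cR t S₀ ^ 3 := by
    rw [← cR_sq]
    ring
  rw [h]
  by_cases h0 : cR t S₀ = 0
  · simp [h0]
  · field_simp

lemma cf''_eq {t S₀ : ℝ} (ht : 0 < t) :
    cf'' t S₀ = 2 * cF' t S₀ ^ 2 - 6 * cF t S₀ ^ 2 * (cq t S₀ ^ 2 / t ^ 2) := by
  unfold cf'' cF cF' cq
  have h2 := cR_pos (S₀ := S₀) ht
  have h : (t ^ 2 + S₀ ^ 2) ^ 3 = cR t S₀ ^ 6 := by
    rw [← cR_sq]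
    ring
  rw [h]
  field_simp
  ring

lemma cH'_eq (t S₀ : ℝ) : cH' t S₀ = -2 * cF t S₀ := by
  unfold cH' cF
  ring

lemma cH''_eq (t S₀ : ℝ) : cH'' t S₀ = -2 * cF' t S₀ := by
  unfold cH'' cF'
  ring

lemma cF'_S (t S₀ : ℝ) : cF' t S₀ * S₀ = cF t S₀ * cq t S₀ := by
  unfold cF' cF cq
  by_cases h0 : cR t S₀ = 0
  · simp [h0]
  · field_simp

lemma cκ_H {t S₀ : ℝ} (h : cH t S₀ ≠ 0) :
    cκ t S₀ * cH t S₀ = cF' t S₀ + cF t S₀ ^ 2 * (cH t S₀)⁻¹ := by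
  unfold cκ
  field_simp

lemma cinner (a b : ℂ) : inner ℝ a b = a.re * b.re + a.im * b.im := by
  rw [Complex.inner]
  simp
  ring

end CA

open CA

theorem chr_hmet {t S₀ : ℝ} (ht : 0 < t) (ht' : t ≤ 1 / 4) (hS : 0 < S₀) (hS' : S₀ ≤ 1)
    (p : F k) (a b : W k) :
    chr (hmet t S₀ p) 0 a b =
      (cf' t S₀ / (2 * cf t S₀) * (inner ℝ p a.2.1 * b.1 + inner ℝ p b.2.1 * a.1),
       (-(1 / 2) * (cf' t S₀ * (a.1 * b.1) + cH' t S₀ * inner ℝ a.2.2 b.2.2)) • p,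
       ((1 / cH t S₀ : ℝ) : ℂ) * (((cf t S₀ : ℝ) : ℂ) *
          ((b.1 : ℂ) * (Complex.I * a.2.2) + (a.1 : ℂ) * (Complex.I * b.2.2))
          + ((cH' t S₀ / 2 : ℝ) : ℂ) * (((inner ℝ p a.2.1 : ℝ) : ℂ) * b.2.2
              + ((inner ℝ p b.2.1 : ℝ) : ℂ) * a.2.2))) := by
  have hm := isMetricAt_hmet ht ht' hS hS' p
  have hf0 : cf t S₀ ≠ 0 := by
    rw [cf_eq]
    exact pow_ne_zero 2 (cF_pos ht hS).ne'
  have hH0 : cH t S₀ ≠ 0 := (cH_pos ht ht' hS hS').ne'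
  set G : W k := (cf' t S₀ / (2 * cf t S₀) * (inner ℝ p a.2.1 * b.1 + inner ℝ p b.2.1 * a.1),
       (-(1 / 2) * (cf' t S₀ * (a.1 * b.1) + cH' t S₀ * inner ℝ a.2.2 b.2.2)) • p,
       ((1 / cH t S₀ : ℝ) : ℂ) * (((cf t S₀ : ℝ) : ℂ) *
          ((b.1 : ℂ) * (Complex.I * a.2.2) + (a.1 : ℂ) * (Complex.I * b.2.2))
          + ((cH' t S₀ / 2 : ℝ) : ℂ) * (((inner ℝ p a.2.1 : ℝ) : ℂ) * b.2.2
              + ((inner ℝ p b.2.1 : ℝ) : ℂ) * a.2.2))) with hG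
  have key : ∀ c : W k, hmet t S₀ p 0 G c = chr1 (hmet t S₀ p) 0 a b c := by
    intro c
    rw [chr1_apply, fderiv_hmet ht hS, fderiv_hmet ht hS, fderiv_hmet ht hS, hmet_zero]
    simp only [hG, real_inner_smul_left, cinner, om, Complex.mul_re, Complex.mul_im,
      Complex.add_re, Complex.add_im, Complex.ofReal_re, Complex.ofReal_im, Complex.I_re,
      Complex.I_im]
    field_simp
    ring
  by_contra hne
  have hd : chr (hmet t S₀ p) 0 a b - G ≠ 0 := sub_ne_zero.2 hne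
  have h1 := hm.pos _ hd
  have h2 : hmet t S₀ p 0 (chr (hmet t S₀ p) 0 a b - G) (chr (hmet t S₀ p) 0 a b - G) = 0 := by
    have h3 : ∀ c : W k, hmet t S₀ p 0 (chr (hmet t S₀ p) 0 a b - G) c =
        hmet t S₀ p 0 (chr (hmet t S₀ p) 0 a b) c - hmet t S₀ p 0 G c := fun c => by
      rw [map_sub (hmet t S₀ p 0) _ G]
      rfl
    rw [h3, apply_chr hm.pos, key, sub_self]
  rw [h2] at h1
  exact lt_irrefl _ h1

namespace CA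

lemma finner (x y : F k) : inner ℝ x y = ∑ a, x a * y a := by
  rw [PiLp.inner_apply]
  refine Finset.sum_congr rfl fun a _ => ?_
  simp [mul_comm]

lemma sum_BB (X Y X' Y' : W k) : (∑ a, ∑ b, bB X Y a b * bB X' Y' a b) / 2 =
    inner ℝ X.2.1 X'.2.1 * inner ℝ Y.2.1 Y'.2.1 - inner ℝ X.2.1 Y'.2.1 * inner ℝ Y.2.1 X'.2.1 := by
  have h1 : ∀ a b, bB X Y a b * bB X' Y' a b =
      (X.2.1 a * X'.2.1 a) * (Y.2.1 b * Y'.2.1 b) - (X.2.1 a * Y'.2.1 a) * (Y.2.1 b * X'.2.1 b)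
      - (Y.2.1 a * X'.2.1 a) * (X.2.1 b * Y'.2.1 b)
      + (Y.2.1 a * Y'.2.1 a) * (X.2.1 b * X'.2.1 b) := by
    intro a b
    unfold bB
    ring
  simp only [h1, Finset.sum_add_distrib, Finset.sum_sub_distrib, ← Finset.mul_sum,
    ← Finset.sum_mul, finner]
  ring

lemma sum_pP (p : F k) (X Y : W k) : ∑ a, p a * bP X Y a =
    inner ℝ p X.2.1 * Y.1 - X.1 * inner ℝ p Y.2.1 := by
  have h1 : ∀ a, p a * bP X Y a = (p a * X.2.1 a) * Y.1 - X.1 * (p a * Y.2.1 a) := by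
    intro a
    unfold bP
    ring
  simp only [h1, Finset.sum_sub_distrib, ← Finset.mul_sum, ← Finset.sum_mul, finner]

lemma sum_PP (X Y X' Y' : W k) : ∑ a, bP X Y a * bP X' Y' a =
    inner ℝ X.2.1 X'.2.1 * (Y.1 * Y'.1) - inner ℝ X.2.1 Y'.2.1 * (Y.1 * X'.1)
      - inner ℝ Y.2.1 X'.2.1 * (X.1 * Y'.1) + inner ℝ Y.2.1 Y'.2.1 * (X.1 * X'.1) := by
  have h1 : ∀ a, bP X Y a * bP X' Y' a = (X.2.1 a * X'.2.1 a) * (Y.1 * Y'.1)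
      - (X.2.1 a * Y'.2.1 a) * (Y.1 * X'.1) - (Y.2.1 a * X'.2.1 a) * (X.1 * Y'.1)
      + (Y.2.1 a * Y'.2.1 a) * (X.1 * X'.1) := by
    intro a
    unfold bP
    ring
  simp only [h1, Finset.sum_add_distrib, Finset.sum_sub_distrib, ← Finset.sum_mul, finner]

lemma sum_pC (p : F k) (X Y : W k) : ∑ a, (p a : ℂ) * bC X Y a =
    ((inner ℝ p X.2.1 : ℝ) : ℂ) * Y.2.2 - ((inner ℝ p Y.2.1 : ℝ) : ℂ) * X.2.2 := by
  have h1 : ∀ a, (p a : ℂ) * bC X Y a = ((p a * X.2.1 a : ℝ) : ℂ) * Y.2.2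
      - ((p a * Y.2.1 a : ℝ) : ℂ) * X.2.2 := by
    intro a
    unfold bC
    push_cast
    ring
  simp only [h1, Finset.sum_sub_distrib, ← Finset.sum_mul, finner, Complex.ofReal_sum]

lemma sum_CC (X Y X' Y' : W k) : ∑ a, inner ℝ (bC X Y a) (bC X' Y' a) =
    inner ℝ X.2.1 X'.2.1 * inner ℝ Y.2.2 Y'.2.2 - inner ℝ X.2.1 Y'.2.1 * inner ℝ Y.2.2 X'.2.2
      - inner ℝ Y.2.1 X'.2.1 * inner ℝ X.2.2 Y'.2.2
      + inner ℝ Y.2.1 Y'.2.1 * inner ℝ X.2.2 X'.2.2 := by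
  have h1 : ∀ a, inner ℝ (bC X Y a) (bC X' Y' a) =
      (X.2.1 a * X'.2.1 a) * inner ℝ Y.2.2 Y'.2.2 - (X.2.1 a * Y'.2.1 a) * inner ℝ Y.2.2 X'.2.2
      - (Y.2.1 a * X'.2.1 a) * inner ℝ X.2.2 Y'.2.2
      + (Y.2.1 a * Y'.2.1 a) * inner ℝ X.2.2 X'.2.2 := by
    intro a
    unfold bC
    simp only [cinner, Complex.mul_re, Complex.mul_im, Complex.sub_re, Complex.sub_im,
      Complex.ofReal_re, Complex.ofReal_im]
    ring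
  simp only [h1, Finset.sum_add_distrib, Finset.sum_sub_distrib, ← Finset.sum_mul, finner]

end CA

theorem riem_hmet {t S₀ : ℝ} (ht : 0 < t) (ht' : t ≤ 1 / 4) (hS : 0 < S₀) (hS' : S₀ ≤ 1)
    (p : F k) (hp : ‖p‖ ^ 2 = 1 - S₀ ^ 2) (X Y X' Y' : W k) :
    hmet t S₀ p 0 (riem (hmet t S₀ p) 0 X Y Y') X' = Rform t S₀ p X Y X' Y' := by
  have hm := isMetricAt_hmet ht ht' hS hS' p
  have hF0 : cF t S₀ ≠ 0 := (cF_pos ht hS).ne'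
  have hH0 : cH t S₀ ≠ 0 := (cH_pos ht ht' hS hS').ne'
  have hpp : inner ℝ p p = 1 - S₀ ^ 2 := by rw [real_inner_self_eq_norm_sq, hp]
  obtain ⟨G, hG⟩ : ∃ G, cF' t S₀ = cF t S₀ * G := ⟨cF' t S₀ / cF t S₀, by field_simp⟩
  have hq : cF t S₀ * cq t S₀ = cF t S₀ * G * S₀ := by rw [← cF'_S, hG]
  have hq' : cq t S₀ = G * S₀ := by
    have h1 : cF t S₀ * cq t S₀ = cF t S₀ * (G * S₀) := by rw [hq]; ring
    exact mul_left_cancel₀ hF0 h1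
  have hΓ : cf' t S₀ / (2 * cf t S₀) = G := by
    rw [cf'_eq, cf_eq, hG]
    field_simp
  have hκ := cκ_H hH0
  rw [riem_jet hm, chr_hmet ht ht' hS hS', chr_hmet ht ht' hS hS', chr_hmet ht ht' hS hS',
    chr_hmet ht ht' hS hS', d2_hmet ht hS, d2_hmet ht hS, d2_hmet ht hS, d2_hmet ht hS,
    hmet_zero, hmet_zero]
  unfold Rform
  rw [sum_BB, sum_pP, sum_pP, sum_PP, sum_pC, sum_pC, sum_CC,
    show ∀ x : ℝ, 2 * cκ t S₀ * cF t S₀ * cH t S₀ * x =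
      2 * cF t S₀ * (cκ t S₀ * cH t S₀) * x from fun x => by ring, hκ]
  rw [hΓ, cf'_eq, cf''_eq ht, cH'_eq, cH''_eq, cf_eq, hG]
  generalize hQ : cq t S₀ ^ 2 / t ^ 2 = Q
  rw [hq']
  simp only [real_inner_smul_left, real_inner_smul_right, hpp, cinner, om, bD, bW,
    Complex.mul_re, Complex.mul_im, Complex.add_re, Complex.add_im, Complex.sub_re,
    Complex.sub_im, Complex.ofReal_re, Complex.ofReal_im, Complex.I_re, Complex.I_im,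
    zero_mul, mul_zero, one_mul, add_zero, zero_add, sub_zero, zero_sub]
  generalize cH t S₀ = h at *
  generalize cF t S₀ = f at *
  generalize inner ℝ X.2.1 X'.2.1 = xx
  generalize inner ℝ X.2.1 Y'.2.1 = xy
  generalize inner ℝ Y.2.1 X'.2.1 = yx
  generalize inner ℝ Y.2.1 Y'.2.1 = yy
  generalize inner ℝ p X.2.1 = px
  generalize inner ℝ p Y.2.1 = py
  generalize inner ℝ p X'.2.1 = px'
  generalize inner ℝ p Y'.2.1 = py'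
  generalize X.1 = x1
  generalize Y.1 = y1
  generalize X'.1 = x1'
  generalize Y'.1 = y1'
  generalize X.2.2.re = a
  generalize X.2.2.im = b
  generalize Y.2.2.re = c
  generalize Y.2.2.im = d
  generalize X'.2.2.re = a'
  generalize X'.2.2.im = b'
  generalize Y'.2.2.re = c'
  generalize Y'.2.2.im = d'
  clear hκ hΓ hq' hq hG hpp hm hp
  field_simp
  ring

end Pool.Agent.H86.Anco
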