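import Mathlib

/-!
# Shortcut instances for spaces of bilinear and trilinear forms (only to speed up elaboration)
-/

noncomputable section

namespace Pool.Agent.H86.Fast

variable {E : Type*} [NormedAddCommGroup E] [NormedSpace ℝ E]
  {G : Type*} [NormedAddCommGroup G] [NormedSpace ℝ G]

scoped instance (priority := 9000) a1 : NormedAddCommGroup (E →L[ℝ] G) := inferInstance
scoped instance (priority := 9000) a2 : NormedSpace ℝ (E →L[ℝ] G) := inferInstance
scoped instance (priority := 9000) a3 : SeminormedAddCommGroup (E →L[ℝ] G) := inferInstance
scoped instance (priority := 9000) a4 : AddCommGroup (E →L[ℝ] G) := inferInstance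
scoped instance (priority := 9000) a5 : AddCommMonoid (E →L[ℝ] G) := inferInstance
scoped instance (priority := 9000) a6 : Module ℝ (E →L[ℝ] G) := inferInstance
scoped instance (priority := 9000) a7 : TopologicalSpace (E →L[ℝ] G) := inferInstance

end Pool.Agent.H86.Fast
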