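import Pool.Agent.H86.Anco.Local
import Pool.Agent.H86.Anco.Fast

/-!
# Module NATURAL: the curvature operator does not depend on coordinates

`φ : E' → E` smooth near `x` with bijective derivative at `x`, `g` a metric near `φ x`,
`g' y = (g (φ y)).bilinearComp (Dφ y) (Dφ y)`.  Write `D² = D(Dφ)`.

Step 1 (for all `y` near `x`): `Dφ_y (chr g' y a b) = chr g (φ y) (Dφ a) (Dφ b) + D²φ_y a b`.
Both sides are compared after pairing with `Dφ c` under `g (φ y)`:
`(∂_a g')(b, c) = (∂_{Dφ a} g)(Dφ b, Dφ c) + g(D²φ(a,b), Dφ c) + g(Dφ b, D²φ(a,c))`, hence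
`chr1 g' (a,b;c) = chr1 g (Dφ a, Dφ b; Dφ c) + g(D²φ(a,b), Dφ c)`; use `apply_chr` and that
`Dφ_y` is surjective near `x`.
Step 2: differentiate step 1 in direction `d` at `x`:
`D²φ(d, chr g' (a,b)) + Dφ(∂_d chr g'(a,b)) = (∂_{Dφ d} chr g)(Dφ a, Dφ b)
   + chr g (D²φ(d,a), Dφ b) + chr g (Dφ a, D²φ(d,b)) + D³φ(d,a,b)`,
where the first term on the right is the derivative of `y ↦ chr g y u v` for fixed `u = Dφ a`,
`v = Dφ b` (`chr g y u v` is bilinear in `(u, v)`); `D³φ` is symmetric.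
Step 3: `Dφ (riem g' x a b c) = riem g (φ x) (Dφ a) (Dφ b) (Dφ c)`.
Step 4: `curvForm` and `bivNormSq` of `g'` on `(X, Y)` are those of `g` on `(Dφ X, Dφ Y)`, and
every family in `E` is of the form `Dφ X`.
-/

open scoped Manifold ContDiff Bundle Topology Pool.Agent.H86.Fast

noncomputable section

set_option linter.unusedSectionVars false

namespace Pool.Agent.H86.Anco

variable {E : Type*} [NormedAddCommGroup E] [NormedSpace ℝ E] [FiniteDimensional ℝ E]
  {E' : Type*} [NormedAddCommGroup E'] [NormedSpace ℝ E'] [FiniteDimensional ℝ E']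

namespace Natural

/-- A family of continuous linear maps on a finite dimensional space is smooth if all its
applications are. -/
lemma contDiffAt_clm_of_apply {D F : Type*} [NormedAddCommGroup D] [NormedSpace ℝ D]
    [NormedAddCommGroup F] [NormedSpace ℝ F] {n : WithTop ℕ∞}
    {f : D → E →L[ℝ] F} {x : D} (h : ∀ v, ContDiffAt ℝ n (fun y => f y v) x) :
    ContDiffAt ℝ n f x := by
  let d := Module.finrank ℝ E
  have hd : d = Module.finrank ℝ (Fin d → ℝ) := (Module.finrank_fin_fun ℝ).symm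
  let e₁ := ContinuousLinearEquiv.ofFinrankEq hd
  let e₂ := (e₁.arrowCongr (1 : F ≃L[ℝ] F)).trans (ContinuousLinearEquiv.piRing (Fin d))
  rw [← Function.id_comp f, ← e₂.symm_comp_self]
  exact (e₂.symm.contDiff.contDiffAt).comp x (contDiffAt_pi.mpr fun i => h _)

/-- The pulled back field. -/
def pb (g : E → E →L[ℝ] E →L[ℝ] ℝ) (φ : E' → E) (y : E') : E' →L[ℝ] E' →L[ℝ] ℝ :=
  (g (φ y)).bilinearComp (fderiv ℝ φ y) (fderiv ℝ φ y)

lemma pb_apply (g : E → E →L[ℝ] E →L[ℝ] ℝ) (φ : E' → E) (y a b : E') :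
    pb g φ y a b = g (φ y) (fderiv ℝ φ y a) (fderiv ℝ φ y b) := by
  simp [pb]

lemma contDiffAt_fderiv {n : WithTop ℕ∞} {φ : E' → E} {y : E'}
    (hφ : ContDiffAt ℝ (n + 1) φ y) : ContDiffAt ℝ n (fderiv ℝ φ) y :=
  hφ.fderiv_right le_rfl

lemma contDiffAt_pb {n : WithTop ℕ∞} {g : E → E →L[ℝ] E →L[ℝ] ℝ} {φ : E' → E} {y : E'}
    (hφ : ContDiffAt ℝ (n + 1) φ y) (hg : ContDiffAt ℝ n g (φ y)) :
    ContDiffAt ℝ n (pb g φ) y := by
  apply contDiffAt_clm_of_apply
  intro a
  apply contDiffAt_clm_of_apply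
  intro b
  simp only [pb_apply]
  have h1 : ContDiffAt ℝ n (fun y => g (φ y)) y := hg.comp y (hφ.of_le le_self_add)
  exact (h1.clm_apply ((contDiffAt_fderiv hφ).clm_apply contDiffAt_const)).clm_apply
    ((contDiffAt_fderiv hφ).clm_apply contDiffAt_const)

lemma fderiv_pb {g : E → E →L[ℝ] E →L[ℝ] ℝ} {φ : E' → E} {y : E'}
    (hφ : ContDiffAt ℝ 2 φ y) (hg : ContDiffAt ℝ 1 g (φ y)) (a b c : E') :
    fderiv ℝ (pb g φ) y a b c
      = fderiv ℝ g (φ y) (fderiv ℝ φ y a) (fderiv ℝ φ y b) (fderiv ℝ φ y c)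
        + g (φ y) (fderiv ℝ (fderiv ℝ φ) y a b) (fderiv ℝ φ y c)
        + g (φ y) (fderiv ℝ φ y b) (fderiv ℝ (fderiv ℝ φ) y a c) := by
  have hφ' : ContDiffAt ℝ (1 + 1) φ y := by
    rw [one_add_one_eq_two]
    exact hφ
  have h := ((contDiffAt_pb hφ' hg).differentiableAt (by simp)).hasFDerivAt
  have h1 := (h.clm_apply (hasFDerivAt_const b y)).clm_apply (hasFDerivAt_const c y)
  have hg' : HasFDerivAt (fun z => g (φ z)) ((fderiv ℝ g (φ y)).comp (fderiv ℝ φ y)) y :=
    ((hg.differentiableAt (by simp)).hasFDerivAt).comp y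
      ((hφ.differentiableAt (by simp)).hasFDerivAt)
  have hd : HasFDerivAt (fderiv ℝ φ) (fderiv ℝ (fderiv ℝ φ) y) y :=
    ((contDiffAt_fderiv hφ').differentiableAt (by simp)).hasFDerivAt
  have h2 := (hg'.clm_apply (hd.clm_apply (hasFDerivAt_const b y))).clm_apply
      (hd.clm_apply (hasFDerivAt_const c y))
  simp only [pb_apply] at h1
  have h4 := h1.unique h2
  have h5 := congrArg (fun L => L a) h4
  simp only [add_apply, ContinuousLinearMap.comp_apply,
    ContinuousLinearMap.flip_apply, zero_apply, map_zero, zero_add] at h5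
  rw [h5]
  ring

lemma pb_pos {g : E → E →L[ℝ] E →L[ℝ] ℝ} {φ : E' → E} {y : E'}
    (hbij : Function.Bijective (fderiv ℝ φ y)) (hg : IsMetricAt g (φ y)) (a : E') (ha : a ≠ 0) :
    0 < pb g φ y a a := by
  rw [pb_apply]
  apply hg.pos
  intro h0
  apply ha
  apply hbij.1
  rw [h0, map_zero]

/-- Step 1. -/
lemma step1 {g : E → E →L[ℝ] E →L[ℝ] ℝ} {φ : E' → E} {y : E'}
    (hφ : ContDiffAt ℝ 2 φ y) (hbij : Function.Bijective (fderiv ℝ φ y))
    (hg : IsMetricAt g (φ y)) (a b : E') :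
    fderiv ℝ φ y (chr (pb g φ) y a b)
      = chr g (φ y) (fderiv ℝ φ y a) (fderiv ℝ φ y b) + fderiv ℝ (fderiv ℝ φ) y a b := by
  have hsymm : ∀ u v, g (φ y) u v = g (φ y) v u := hg.symm.self_of_nhds
  have hg1 : ContDiffAt ℝ 1 g (φ y) := hg.smooth.of_le (by norm_cast)
  have hD2 : ∀ u v, fderiv ℝ (fderiv ℝ φ) y u v = fderiv ℝ (fderiv ℝ φ) y v u := by
    have := hφ.isSymmSndFDerivAt (by simp)
    exact fun u v => this u v
  have key : ∀ w, g (φ y) (fderiv ℝ φ y (chr (pb g φ) y a b)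
      - (chr g (φ y) (fderiv ℝ φ y a) (fderiv ℝ φ y b) + fderiv ℝ (fderiv ℝ φ) y a b)) w = 0 := by
    intro w
    obtain ⟨c, rfl⟩ := hbij.2 w
    have h1 : g (φ y) (fderiv ℝ φ y (chr (pb g φ) y a b)) (fderiv ℝ φ y c)
        = chr1 (pb g φ) y a b c := by
      rw [← pb_apply]
      exact apply_chr (pb_pos hbij hg) a b c
    have h2 := apply_chr hg.pos (fderiv ℝ φ y a) (fderiv ℝ φ y b) (fderiv ℝ φ y c)
    rw [map_sub, map_add, sub_apply, add_apply, h1, h2,
      chr1_apply, chr1_apply, fderiv_pb hφ hg1, fderiv_pb hφ hg1,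
      fderiv_pb hφ hg1, hD2 b a, hD2 c a, hD2 c b,
      hsymm (fderiv ℝ φ y a) (fderiv ℝ (fderiv ℝ φ) y b c),
      hsymm (fderiv ℝ φ y b) (fderiv ℝ (fderiv ℝ φ) y a c)]
    ring
  by_contra hne
  have h0 := hg.pos _ (sub_ne_zero.mpr hne)
  rw [key] at h0
  exact lt_irrefl _ h0

/-- `chr` as a bilinear map. -/
def chrB (g : E → E →L[ℝ] E →L[ℝ] ℝ) (x : E) : E →L[ℝ] E →L[ℝ] E :=
  LinearMap.toContinuousLinearMap
    { toFun := fun a => LinearMap.toContinuousLinearMap
        { toFun := fun b => chr g x a b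
          map_add' := by
            intro b b'
            simp only [chr, chr1]
            rw [← map_add]
            congr 1
            ext c
            simp only [map_add, add_apply, smul_apply,
              sub_apply, ContinuousLinearMap.flip_apply, smul_eq_mul]
            ring
          map_smul' := by
            intro r b
            simp only [chr, chr1]
            rw [← map_smul]
            congr 1
            ext c
            simp only [map_smul, add_apply, smul_apply,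
              sub_apply, ContinuousLinearMap.flip_apply, smul_eq_mul,
              RingHom.id_apply]
            ring }
      map_add' := by
        intro a a'
        ext b
        simp only [LinearMap.coe_toContinuousLinearMap', LinearMap.coe_mk, AddHom.coe_mk,
          add_apply, chr, chr1]
        rw [← map_add]
        congr 1
        ext c
        simp only [map_add, add_apply, smul_apply,
          sub_apply, ContinuousLinearMap.flip_apply, smul_eq_mul]
        ring
      map_smul' := by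
        intro r a
        ext b
        simp only [LinearMap.coe_toContinuousLinearMap', LinearMap.coe_mk, AddHom.coe_mk,
          smul_apply, chr, chr1, RingHom.id_apply]
        rw [← map_smul]
        congr 1
        ext c
        simp only [map_smul, add_apply, smul_apply,
          sub_apply, ContinuousLinearMap.flip_apply, smul_eq_mul]
        ring }

lemma chrB_apply (g : E → E →L[ℝ] E →L[ℝ] ℝ) (x a b : E) : chrB g x a b = chr g x a b := rfl

lemma contDiffAt_chrB {g : E → E →L[ℝ] E →L[ℝ] ℝ} {x : E} (hg : IsMetricAt g x) :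
    ContDiffAt ℝ ∞ (chrB g) x := by
  apply contDiffAt_clm_of_apply
  intro a
  apply contDiffAt_clm_of_apply
  intro b
  simp only [chrB_apply]
  exact hg.contDiffAt_chr a b

lemma fderiv_chrB {g : E → E →L[ℝ] E →L[ℝ] ℝ} {x : E} (hg : IsMetricAt g x) (a b c : E) :
    fderiv ℝ (fun y => chr g y b c) x a = fderiv ℝ (chrB g) x a b c := by
  have h := ((contDiffAt_chrB hg).differentiableAt (by simp)).hasFDerivAt
  have h1 := (h.clm_apply (hasFDerivAt_const b x)).clm_apply (hasFDerivAt_const c x)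
  simp only [chrB_apply] at h1
  rw [h1.fderiv]
  simp only [add_apply, ContinuousLinearMap.comp_apply,
    ContinuousLinearMap.flip_apply, zero_apply, map_zero, zero_add]

lemma eventually_bijective {φ : E' → E} {x : E'} (hφ : ContDiffAt ℝ 3 φ x)
    (hbij : Function.Bijective (fderiv ℝ φ x)) :
    ∀ᶠ y in 𝓝 x, Function.Bijective (fderiv ℝ φ y) := by
  have hc : ContinuousAt (fderiv ℝ φ) x :=
    (hφ.fderiv_right (m := 2) (by norm_num)).continuousAt
  let e : E' ≃L[ℝ] E := ContinuousLinearEquiv.ofBijective (fderiv ℝ φ x)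
    (LinearMap.ker_eq_bot.mpr hbij.1) (LinearMap.range_eq_top.mpr hbij.2)
  have he : (e : E' →L[ℝ] E) = fderiv ℝ φ x := ContinuousLinearEquiv.coe_ofBijective _ _ _
  have hn := ContinuousLinearEquiv.nhds e
  rw [he] at hn
  filter_upwards [hc.eventually hn] with y hy
  obtain ⟨e', he'⟩ := hy
  rw [← he']
  exact e'.bijective

lemma eventually_contDiffAt {φ : E' → E} {x : E'} (hφ : ContDiffAt ℝ 3 φ x) :
    ∀ᶠ y in 𝓝 x, ContDiffAt ℝ 3 φ y :=
  hφ.eventually (by decide)


/-- Step 2. -/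
lemma step2 {g : E → E →L[ℝ] E →L[ℝ] ℝ} {φ : E' → E} {x : E'}
    (hφ : ContDiffAt ℝ 3 φ x) (hbij : Function.Bijective (fderiv ℝ φ x))
    (hg : IsMetricAt g (φ x)) (d a b : E')
    (hd : DifferentiableAt ℝ (fun y => chr (pb g φ) y a b) x) :
    fderiv ℝ φ x (fderiv ℝ (fun y => chr (pb g φ) y a b) x d)
      = fderiv ℝ (fun z => chr g z (fderiv ℝ φ x a) (fderiv ℝ φ x b)) (φ x) (fderiv ℝ φ x d)
        + chr g (φ x) (fderiv ℝ (fderiv ℝ φ) x d a) (fderiv ℝ φ x b)
        + chr g (φ x) (fderiv ℝ φ x a) (fderiv ℝ (fderiv ℝ φ) x d b)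
        + fderiv ℝ (fderiv ℝ (fderiv ℝ φ)) x d a b
        - fderiv ℝ (fderiv ℝ φ) x d (chr (pb g φ) x a b) := by
  have hD : ContDiffAt ℝ 2 (fderiv ℝ φ) x := hφ.fderiv_right (by norm_num)
  have hDD : ContDiffAt ℝ 1 (fderiv ℝ (fderiv ℝ φ)) x := hD.fderiv_right (by norm_num)
  have hev : (fun y => fderiv ℝ φ y (chr (pb g φ) y a b)) =ᶠ[𝓝 x]
      fun y => chrB g (φ y) (fderiv ℝ φ y a) (fderiv ℝ φ y b)
        + fderiv ℝ (fderiv ℝ φ) y a b := by
    filter_upwards [eventually_contDiffAt hφ, eventually_bijective hφ hbij,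
      hφ.continuousAt.eventually hg.eventually] with y h1 h2 h3
    exact step1 (h1.of_le (by norm_num)) h2 h3 a b
  have hφ1 := (hφ.differentiableAt (by simp)).hasFDerivAt
  have hD1 := (hD.differentiableAt (by simp)).hasFDerivAt
  have hDD1 := (hDD.differentiableAt (by simp)).hasFDerivAt
  have hc1 := ((contDiffAt_chrB hg).differentiableAt (by simp)).hasFDerivAt
  have hl := hD1.clm_apply hd.hasFDerivAt
  have hr := (((hc1.comp x hφ1).clm_apply (hD1.clm_apply (hasFDerivAt_const a x))).clm_apply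
    (hD1.clm_apply (hasFDerivAt_const b x))).add
    ((hDD1.clm_apply (hasFDerivAt_const a x)).clm_apply (hasFDerivAt_const b x))
  have h4 := (hl.congr_of_eventuallyEq hev.symm).unique hr
  have h5 := congrArg (fun L => L d) h4
  simp only [add_apply, ContinuousLinearMap.comp_apply,
    ContinuousLinearMap.flip_apply, zero_apply, map_zero, zero_add, Function.comp,
    chrB_apply] at h5
  rw [fderiv_chrB hg]
  rw [eq_sub_iff_add_eq, h5]
  abel

/-- Step 3. -/
lemma step3 {g : E → E →L[ℝ] E →L[ℝ] ℝ} {φ : E' → E} {x : E'}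
    (hφ : ContDiffAt ℝ ∞ φ x) (hbij : Function.Bijective (fderiv ℝ φ x))
    (hg : IsMetricAt g (φ x)) (a b c : E') :
    fderiv ℝ φ x (riem (pb g φ) x a b c)
      = riem g (φ x) (fderiv ℝ φ x a) (fderiv ℝ φ x b) (fderiv ℝ φ x c) := by
  have hφ3 : ContDiffAt ℝ 3 φ x := hφ.of_le (by norm_cast)
  have hd : ∀ u v, DifferentiableAt ℝ (fun y => chr (pb g φ) y u v) x := by
    intro u v
    have hp : ContDiffAt ℝ ∞ (pb g φ) x := contDiffAt_pb (by simpa using hφ) hg.smooth
    exact (contDiffAt_chr' hp (pb_pos hbij hg) u v).differentiableAt (by simp)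
  have hφ2 : ContDiffAt ℝ 2 φ x := hφ3.of_le (by norm_num)
  have hD : ContDiffAt ℝ 2 (fderiv ℝ φ) x := hφ3.fderiv_right (by norm_num)
  have hD2 : ∀ u v, fderiv ℝ (fderiv ℝ φ) x u v = fderiv ℝ (fderiv ℝ φ) x v u := by
    have := hφ2.isSymmSndFDerivAt (by simp)
    exact fun u v => this u v
  have hD3 : ∀ u v, fderiv ℝ (fderiv ℝ (fderiv ℝ φ)) x u v
      = fderiv ℝ (fderiv ℝ (fderiv ℝ φ)) x v u := by
    have := hD.isSymmSndFDerivAt (by simp)
    exact fun u v => this u v
  have e1 : ∀ u v w, chr g (φ x) u (v + w) = chr g (φ x) u v + chr g (φ x) u w := by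
    intro u v w
    rw [← chrB_apply, map_add]
    rfl
  simp only [riem]
  rw [map_sub, map_add, map_sub, step2 hφ3 hbij hg a b c (hd b c),
    step2 hφ3 hbij hg b a c (hd a c), step1 hφ2 hbij hg, step1 hφ2 hbij hg,
    step1 hφ2 hbij hg, step1 hφ2 hbij hg, e1, e1, hD2 b a, hD3 b a]
  abel

lemma curvForm_pb {g : E → E →L[ℝ] E →L[ℝ] ℝ} {φ : E' → E} {x : E'}
    (hφ : ContDiffAt ℝ ∞ φ x) (hbij : Function.Bijective (fderiv ℝ φ x))
    (hg : IsMetricAt g (φ x)) {N : ℕ} (X Y : Fin N → E') :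
    curvForm (pb g φ) x X Y
      = curvForm g (φ x) (fun i => fderiv ℝ φ x (X i)) (fun i => fderiv ℝ φ x (Y i)) := by
  simp only [curvForm, pb_apply, step3 hφ hbij hg]

end Natural

theorem CurvOpGE.of_pullback {g : E → E →L[ℝ] E →L[ℝ] ℝ} {φ : E' → E} {x : E'}
    (hφ : ContDiffAt ℝ ∞ φ x) (hbij : Function.Bijective (fderiv ℝ φ x))
    (hg : IsMetricAt g (φ x)) {c : ℝ}
    (h : CurvOpGE (fun y => (g (φ y)).bilinearComp (fderiv ℝ φ y) (fderiv ℝ φ y)) x c) :
    CurvOpGE g (φ x) c := by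
  intro N X Y
  choose X' hX' using fun i => hbij.2 (X i)
  choose Y' hY' using fun i => hbij.2 (Y i)
  have h1 := h N X' Y'
  change c * bivNormSq (Natural.pb g φ) x X' Y' ≤ curvForm (Natural.pb g φ) x X' Y' at h1
  rw [Natural.curvForm_pb hφ hbij hg] at h1
  simp only [bivNormSq, Natural.pb_apply, hX', hY'] at h1
  exact h1

end Pool.Agent.H86.Anco
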