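import Pool.Agent.H86.Anco.CenterAlg
import Pool.Agent.H86.Anco.Natural

/-!
# Module CENTER-EST: the curvature operator of `hmet` at `0` is at least `-t`

Step 3: `bivNormSq` and `curvForm` in terms of the sums over `i` of the antisymmetric forms
`B, P, C, D, Wz` of `(X i, Y i)`, and the inequality; with `q = t²/R²`, `F' = t³/R³`,
`κ = F'/H + f/H²`:
 `curvForm = ½∑B² + f(3(q²/t²)(p·P)² + q|P|²) + κH‖p·C + F i D‖² - F S₀ ∑‖C_a‖²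
     - F' S₀² f ‖D‖² - 4 κ F H (p·P) Wz + (4H - 3f - f‖p‖²) Wz²`,
 `bivNormSq = ½∑B² + f|P|² + H∑‖C_a‖² + f H ‖D‖² + H² Wz²`.
 Since `1 ≤ H`, `F S₀ ≤ t`, `F' S₀² ≤ t`, `f ≤ t² ≤ 1/16`, `κ H ≤ 2 q`:
 `(2κFH)² ≤ 3 f (q²/t²) (4H - 4f)`, so the `(p·P, Wz)` part is nonnegative.
-/

open scoped Manifold ContDiff Bundle Topology

noncomputable section

namespace Pool.Agent.H86.Anco

variable {k : ℕ}

lemma sum_sum_mul {N : ℕ} (u : Fin N → ℝ) : ∑ i, ∑ j, u i * u j = (∑ i, u i) ^ 2 := by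
  rw [sq, Finset.sum_mul_sum]

lemma sum_sum_sum_mul {N m : ℕ} (u : Fin N → Fin m → ℝ) :
    ∑ i, ∑ j, ∑ a, u i a * u j a = ∑ a, (∑ i, u i a) ^ 2 := by
  calc ∑ i, ∑ j, ∑ a, u i a * u j a = ∑ i, ∑ a, ∑ j, u i a * u j a := by
        refine Finset.sum_congr rfl fun i _ => Finset.sum_comm
    _ = ∑ a, ∑ i, ∑ j, u i a * u j a := Finset.sum_comm
    _ = _ := Finset.sum_congr rfl fun a _ => sum_sum_mul (fun i => u i a)

lemma sum_sum_inner {N : ℕ} (u : Fin N → ℂ) :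
    ∑ i, ∑ j, inner ℝ (u i) (u j) = ‖∑ i, u i‖ ^ 2 := by
  rw [← real_inner_self_eq_norm_sq, sum_inner]
  refine Finset.sum_congr rfl fun i _ => ?_
  rw [inner_sum]

lemma sum_sum_sum_inner {N m : ℕ} (u : Fin N → Fin m → ℂ) :
    ∑ i, ∑ j, ∑ a, inner ℝ (u i a) (u j a) = ∑ a, ‖∑ i, u i a‖ ^ 2 := by
  calc ∑ i, ∑ j, ∑ a, inner ℝ (u i a) (u j a) = ∑ i, ∑ a, ∑ j, inner ℝ (u i a) (u j a) := by
        refine Finset.sum_congr rfl fun i _ => Finset.sum_comm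
    _ = ∑ a, ∑ i, ∑ j, inner ℝ (u i a) (u j a) := Finset.sum_comm
    _ = _ := Finset.sum_congr rfl fun a _ => sum_sum_inner (fun i => u i a)

/-- The induced inner product of bivectors in coordinates. -/
lemma biv_pair (t S₀ : ℝ) (p : F k) (X Y X' Y' : W k) :
    hmet t S₀ p 0 X X' * hmet t S₀ p 0 Y Y' - hmet t S₀ p 0 X Y' * hmet t S₀ p 0 Y X' =
      (∑ a, ∑ b, bB X Y a b * bB X' Y' a b) / 2 + cf t S₀ * ∑ a, bP X Y a * bP X' Y' a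
      + cH t S₀ * ∑ a, inner ℝ (bC X Y a) (bC X' Y' a)
      + cf t S₀ * cH t S₀ * inner ℝ (bD X Y) (bD X' Y')
      + cH t S₀ ^ 2 * (bW X Y * bW X' Y') := by
  have hin : ∀ x y : F k, inner ℝ x y = ∑ a, x a * y a := fun x y => by
    rw [PiLp.inner_apply]
    refine Finset.sum_congr rfl fun a _ => ?_
    simp [mul_comm]
  have h1 : (∑ a, ∑ b, bB X Y a b * bB X' Y' a b) / 2 =
      (∑ a, X.2.1 a * X'.2.1 a) * (∑ a, Y.2.1 a * Y'.2.1 a)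
      - (∑ a, X.2.1 a * Y'.2.1 a) * (∑ a, Y.2.1 a * X'.2.1 a) := by
    have e1 : (∑ a, ∑ b, bB X Y a b * bB X' Y' a b) =
        (∑ a, ∑ b, (X.2.1 a * X'.2.1 a) * (Y.2.1 b * Y'.2.1 b))
        - (∑ a, ∑ b, (X.2.1 a * Y'.2.1 a) * (Y.2.1 b * X'.2.1 b))
        - (∑ a, ∑ b, (Y.2.1 a * X'.2.1 a) * (X.2.1 b * Y'.2.1 b))
        + (∑ a, ∑ b, (Y.2.1 a * Y'.2.1 a) * (X.2.1 b * X'.2.1 b)) := by
      simp only [← Finset.sum_sub_distrib, ← Finset.sum_add_distrib]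
      refine Finset.sum_congr rfl fun a _ => Finset.sum_congr rfl fun b _ => ?_
      rw [bB, bB]; ring
    rw [e1]
    simp only [← Finset.sum_mul_sum]
    ring
  have h2 : ∑ a, bP X Y a * bP X' Y' a =
      (∑ a, X.2.1 a * X'.2.1 a) * (Y.1 * Y'.1) - (∑ a, X.2.1 a * Y'.2.1 a) * (Y.1 * X'.1)
      - (∑ a, Y.2.1 a * X'.2.1 a) * (X.1 * Y'.1) + (∑ a, Y.2.1 a * Y'.2.1 a) * (X.1 * X'.1) := by
    simp only [Finset.sum_mul, ← Finset.sum_sub_distrib, ← Finset.sum_add_distrib]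
    refine Finset.sum_congr rfl fun a _ => ?_
    rw [bP, bP]; ring
  have h3 : ∑ a, inner ℝ (bC X Y a) (bC X' Y' a) =
      (∑ a, X.2.1 a * X'.2.1 a) * inner ℝ Y.2.2 Y'.2.2
      - (∑ a, X.2.1 a * Y'.2.1 a) * inner ℝ Y.2.2 X'.2.2
      - (∑ a, Y.2.1 a * X'.2.1 a) * inner ℝ X.2.2 Y'.2.2
      + (∑ a, Y.2.1 a * Y'.2.1 a) * inner ℝ X.2.2 X'.2.2 := by
    simp only [Finset.sum_mul, ← Finset.sum_sub_distrib, ← Finset.sum_add_distrib]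
    refine Finset.sum_congr rfl fun a _ => ?_
    simp only [bC, Complex.inner, Complex.mul_re, Complex.mul_im, Complex.sub_re, Complex.sub_im,
      Complex.conj_re, Complex.conj_im, Complex.ofReal_re, Complex.ofReal_im, map_sub]
    ring
  rw [hmet_zero, hmet_zero, hmet_zero, hmet_zero, h1, h2, h3, hin, hin, hin, hin]
  simp only [bD, bW, om, Complex.inner, Complex.mul_re, Complex.mul_im, Complex.sub_re,
    Complex.sub_im, Complex.conj_re, Complex.conj_im, Complex.ofReal_re, Complex.ofReal_im, map_sub]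
  ring

/-- The inequality between the scalars. -/
lemma est_scalar {t S₀ R Hh f q Fp ff κ : ℝ} (ht : 0 < t) (ht' : t ≤ 1 / 4) (hS : 0 < S₀)
    (hS' : S₀ ≤ 1) (hR : 0 < R) (hR2 : R ^ 2 = t ^ 2 + S₀ ^ 2) (hH : Hh = 2 - 2 * t * R)
    (hff : ff = t * S₀ / R) (hf : f = ff ^ 2) (hq : q = t ^ 2 / R ^ 2) (hFp : Fp = t ^ 3 / R ^ 3)
    (hκ : κ = Fp / Hh + f / Hh ^ 2)
    {Bq P2 C2 D2 K pP w : ℝ} (hB : 0 ≤ Bq) (hP : 0 ≤ P2) (hC : 0 ≤ C2) (hD : 0 ≤ D2) (hK : 0 ≤ K) :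
    -t * (Bq + f * P2 + Hh * C2 + f * Hh * D2 + Hh ^ 2 * w ^ 2) ≤
      Bq + f * (3 * (q ^ 2 / t ^ 2) * pP ^ 2 + q * P2) + κ * Hh * K - ff * S₀ * C2
        - Fp * S₀ ^ 2 * f * D2 - 2 * κ * ff * Hh * (pP * w + pP * w)
        + (4 * Hh - 3 * f - f * (1 - S₀ ^ 2)) * w ^ 2 := by
  have hRle : R ≤ 1.04 := by
    by_contra h
    rw [not_le] at h
    nlinarith
  have hH1 : 1 ≤ Hh := by rw [hH]; nlinarith
  have hSR : S₀ ≤ R := by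
    by_contra h
    rw [not_le] at h
    nlinarith
  have htR : t ≤ R := by
    by_contra h
    rw [not_le] at h
    nlinarith
  have hS2 : S₀ ^ 2 ≤ R := by nlinarith
  have hS2' : S₀ ^ 2 ≤ 1 := by nlinarith
  have hff0 : 0 < ff := by rw [hff]; positivity
  have hf0 : 0 < f := by rw [hf]; positivity
  have hq0 : 0 < q := by rw [hq]; positivity
  have hFp0 : 0 < Fp := by rw [hFp]; positivity
  have hffS : ff * S₀ ≤ t := by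
    rw [hff, div_mul_eq_mul_div, div_le_iff₀ hR]
    nlinarith
  have hfq : f = q * S₀ ^ 2 := by
    rw [hf, hff, hq]; field_simp
  have hfq' : f ≤ q := by rw [hfq]; nlinarith
  have hft : f ≤ t ^ 2 := by
    rw [hf, hff, div_pow, div_le_iff₀ (by positivity), mul_pow]
    nlinarith [sq_nonneg t]
  have hFpq : Fp = q * (t / R) := by
    rw [hFp, hq]; field_simp
  have htR1 : t / R ≤ 1 := (div_le_one hR).2 htR
  have hFpq' : Fp ≤ q := by rw [hFpq]; nlinarith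
  have hqt : q * R ^ 2 = t ^ 2 := by rw [hq]; field_simp
  have hFpS : Fp * S₀ ^ 2 ≤ t := by
    have e1 : Fp * S₀ ^ 2 = t * (t ^ 2 * S₀ ^ 2 / R ^ 3) := by rw [hFp]; ring
    have e2 : t ^ 2 * S₀ ^ 2 / R ^ 3 ≤ 1 := by
      rw [div_le_one (by positivity)]
      have : t ^ 2 ≤ R ^ 2 := by nlinarith
      calc t ^ 2 * S₀ ^ 2 ≤ R ^ 2 * R := mul_le_mul this hS2 (by positivity) (by positivity)
        _ = R ^ 3 := by ring
    rw [e1]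
    nlinarith
  have hH0 : 0 < Hh := by linarith
  have hkh : κ * Hh = Fp + f / Hh := by
    rw [hκ]; field_simp
  have hfH : f / Hh ≤ f := div_le_self hf0.le hH1
  have hfH0 : 0 ≤ f / Hh := by positivity
  have hkh2 : κ * Hh ≤ 2 * q := by rw [hkh]; linarith
  have hkh0 : 0 ≤ κ * Hh := by rw [hkh]; linarith
  set kh := κ * Hh with hkhdef
  have hC' : 0 ≤ (t * Hh - ff * S₀) * C2 := mul_nonneg (by nlinarith) hC
  have hD' : 0 ≤ f * (t * Hh - Fp * S₀ ^ 2) * D2 :=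
    mul_nonneg (mul_nonneg hf0.le (by nlinarith)) hD
  have hK' : 0 ≤ kh * K := mul_nonneg hkh0 hK
  have hB' : 0 ≤ (1 + t) * Bq := mul_nonneg (by linarith) hB
  have hP' : 0 ≤ (f * q + t * f) * P2 := mul_nonneg (by positivity) hP
  have hw' : 0 ≤ (f * S₀ ^ 2 + t * Hh ^ 2) * w ^ 2 := by positivity
  have hcross : 0 ≤ f * (3 * (q ^ 2 / t ^ 2) * pP ^ 2) - 4 * ff * kh * (pP * w)
      + (4 * Hh - 4 * f) * w ^ 2 := by
    have hA : 0 < 3 * f * (q ^ 2 / t ^ 2) := by positivity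
    have hBC : (2 * ff * kh) ^ 2 ≤ (3 * f * (q ^ 2 / t ^ 2)) * (4 * Hh - 4 * f) := by
      have e1 : (2 * ff * kh) ^ 2 ≤ 16 * f * q ^ 2 := by
        have : (2 * ff * kh) ^ 2 = 4 * f * kh ^ 2 := by rw [hf]; ring
        rw [this]
        have : kh ^ 2 ≤ (2 * q) ^ 2 := pow_le_pow_left₀ hkh0 hkh2 2
        nlinarith
      have e2 : (3 * f * (q ^ 2 / t ^ 2)) * (4 * Hh - 4 * f)
          = f * q ^ 2 * (12 * (Hh - f) / t ^ 2) := by ring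
      have e3 : 16 ≤ 12 * (Hh - f) / t ^ 2 := by
        rw [le_div_iff₀ (by positivity)]
        nlinarith
      rw [e2]
      have : 0 < f * q ^ 2 := by positivity
      nlinarith
    have h1 : 0 ≤ (3 * f * (q ^ 2 / t ^ 2)) * (f * (3 * (q ^ 2 / t ^ 2) * pP ^ 2)
        - 4 * ff * kh * (pP * w) + (4 * Hh - 4 * f) * w ^ 2) := by
      have : (3 * f * (q ^ 2 / t ^ 2)) * (f * (3 * (q ^ 2 / t ^ 2) * pP ^ 2)
        - 4 * ff * kh * (pP * w) + (4 * Hh - 4 * f) * w ^ 2)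
        = ((3 * f * (q ^ 2 / t ^ 2)) * pP - (2 * ff * kh) * w) ^ 2
          + ((3 * f * (q ^ 2 / t ^ 2)) * (4 * Hh - 4 * f) - (2 * ff * kh) ^ 2) * w ^ 2 := by ring
      rw [this]
      have : 0 ≤ ((3 * f * (q ^ 2 / t ^ 2)) * (4 * Hh - 4 * f) - (2 * ff * kh) ^ 2) * w ^ 2 :=
        mul_nonneg (by linarith) (sq_nonneg w)
      nlinarith [sq_nonneg ((3 * f * (q ^ 2 / t ^ 2)) * pP - (2 * ff * kh) * w)]
    exact nonneg_of_mul_nonneg_right h1 hA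
  have e4 : 2 * κ * ff * Hh * (pP * w + pP * w) = 4 * ff * kh * (pP * w) := by
    rw [hkhdef]; ring
  rw [e4]
  linarith

lemma sum_lin1 {N : ℕ} (T1 T2 T3 T4 T5 : Fin N → Fin N → ℝ) (c2 c3 c4 c5 : ℝ) :
    ∑ i, ∑ j, (T1 i j / 2 + c2 * T2 i j + c3 * T3 i j + c4 * T4 i j + c5 * T5 i j)
      = (∑ i, ∑ j, T1 i j) / 2 + c2 * (∑ i, ∑ j, T2 i j) + c3 * (∑ i, ∑ j, T3 i j)
        + c4 * (∑ i, ∑ j, T4 i j) + c5 * (∑ i, ∑ j, T5 i j) := by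
  simp only [Finset.sum_add_distrib, Finset.mul_sum, Finset.sum_div]

lemma sum_lin2 {N : ℕ} (T1 T2 T3 T4 T5 T6 T7 T8 T9 : Fin N → Fin N → ℝ)
    (c2 c2' c3 c4 c5 c6 c7 c9 : ℝ) :
    ∑ i, ∑ j, (T1 i j / 2 + c2 * (c2' * T2 i j + c3 * T3 i j) + c4 * T4 i j - c5 * T5 i j
      - c6 * T6 i j - c7 * (T7 i j + T8 i j) + c9 * T9 i j)
      = (∑ i, ∑ j, T1 i j) / 2 + c2 * (c2' * (∑ i, ∑ j, T2 i j) + c3 * (∑ i, ∑ j, T3 i j))
        + c4 * (∑ i, ∑ j, T4 i j) - c5 * (∑ i, ∑ j, T5 i j) - c6 * (∑ i, ∑ j, T6 i j)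
        - c7 * ((∑ i, ∑ j, T7 i j) + (∑ i, ∑ j, T8 i j)) + c9 * (∑ i, ∑ j, T9 i j) := by
  simp only [mul_add, Finset.sum_add_distrib, Finset.sum_sub_distrib, Finset.mul_sum,
    Finset.sum_div]

lemma sum_bB {N : ℕ} (X Y : Fin N → W k) :
    ∑ i, ∑ j, (∑ a, ∑ b, bB (X i) (Y i) a b * bB (X j) (Y j) a b)
      = ∑ a, ∑ b, (∑ i, bB (X i) (Y i) a b) ^ 2 := by
  calc ∑ i, ∑ j, (∑ a, ∑ b, bB (X i) (Y i) a b * bB (X j) (Y j) a b)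
      = ∑ i, ∑ a, ∑ j, ∑ b, bB (X i) (Y i) a b * bB (X j) (Y j) a b :=
        Finset.sum_congr rfl fun i _ => Finset.sum_comm
    _ = ∑ a, ∑ i, ∑ j, ∑ b, bB (X i) (Y i) a b * bB (X j) (Y j) a b := Finset.sum_comm
    _ = _ := Finset.sum_congr rfl fun a _ => sum_sum_sum_mul (fun i b => bB (X i) (Y i) a b)

lemma bivNormSq_hmet (t S₀ : ℝ) (p : F k) {N : ℕ} (X Y : Fin N → W k) :
    bivNormSq (hmet t S₀ p) 0 X Y = (∑ a, ∑ b, (∑ i, bB (X i) (Y i) a b) ^ 2) / 2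
      + cf t S₀ * ∑ a, (∑ i, bP (X i) (Y i) a) ^ 2
      + cH t S₀ * ∑ a, ‖∑ i, bC (X i) (Y i) a‖ ^ 2
      + cf t S₀ * cH t S₀ * ‖∑ i, bD (X i) (Y i)‖ ^ 2
      + cH t S₀ ^ 2 * (∑ i, bW (X i) (Y i)) ^ 2 := by
  have h1 := sum_lin1 (fun i j => ∑ a, ∑ b, bB (X i) (Y i) a b * bB (X j) (Y j) a b)
    (fun i j => ∑ a, bP (X i) (Y i) a * bP (X j) (Y j) a)
    (fun i j => ∑ a, inner ℝ (bC (X i) (Y i) a) (bC (X j) (Y j) a))
    (fun i j => inner ℝ (bD (X i) (Y i)) (bD (X j) (Y j)))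
    (fun i j => bW (X i) (Y i) * bW (X j) (Y j))
    (cf t S₀) (cH t S₀) (cf t S₀ * cH t S₀) (cH t S₀ ^ 2)
  rw [sum_bB, sum_sum_sum_mul (fun i a => bP (X i) (Y i) a),
    sum_sum_sum_inner (fun i a => bC (X i) (Y i) a), sum_sum_inner (fun i => bD (X i) (Y i)),
    sum_sum_mul (fun i => bW (X i) (Y i))] at h1
  rw [← h1, bivNormSq]
  exact Finset.sum_congr rfl fun i _ => Finset.sum_congr rfl fun j _ =>
    biv_pair t S₀ p (X i) (Y i) (X j) (Y j)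

lemma curvForm_hmet {t S₀ : ℝ} (ht : 0 < t) (ht' : t ≤ 1 / 4) (hS : 0 < S₀) (hS' : S₀ ≤ 1)
    (p : F k) (hp : ‖p‖ ^ 2 = 1 - S₀ ^ 2) {N : ℕ} (X Y : Fin N → W k) :
    curvForm (hmet t S₀ p) 0 X Y = (∑ a, ∑ b, (∑ i, bB (X i) (Y i) a b) ^ 2) / 2
      + cF t S₀ ^ 2 * (3 * (cq t S₀ ^ 2 / t ^ 2) * (∑ i, ∑ a, p a * bP (X i) (Y i) a) ^ 2
          + cq t S₀ * ∑ a, (∑ i, bP (X i) (Y i) a) ^ 2)
      + cκ t S₀ * cH t S₀ * ‖∑ i, ((∑ a, (p a : ℂ) * bC (X i) (Y i) a)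
        + (cF t S₀ : ℂ) * Complex.I * bD (X i) (Y i))‖ ^ 2
      - cF t S₀ * S₀ * ∑ a, ‖∑ i, bC (X i) (Y i) a‖ ^ 2
      - cF' t S₀ * S₀ ^ 2 * cF t S₀ ^ 2 * ‖∑ i, bD (X i) (Y i)‖ ^ 2
      - 2 * cκ t S₀ * cF t S₀ * cH t S₀ *
          ((∑ i, ∑ a, p a * bP (X i) (Y i) a) * (∑ i, bW (X i) (Y i))
          + (∑ i, ∑ a, p a * bP (X i) (Y i) a) * (∑ i, bW (X i) (Y i)))
      + (4 * cH t S₀ - 3 * cF t S₀ ^ 2 - cF t S₀ ^ 2 * (1 - S₀ ^ 2))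
          * (∑ i, bW (X i) (Y i)) ^ 2 := by
  have h1 := sum_lin2 (fun i j => ∑ a, ∑ b, bB (X i) (Y i) a b * bB (X j) (Y j) a b)
    (fun i j => (∑ a, p a * bP (X i) (Y i) a) * (∑ a, p a * bP (X j) (Y j) a))
    (fun i j => ∑ a, bP (X i) (Y i) a * bP (X j) (Y j) a)
    (fun i j => inner ℝ ((∑ a, (p a : ℂ) * bC (X i) (Y i) a)
        + (cF t S₀ : ℂ) * Complex.I * bD (X i) (Y i))
      ((∑ a, (p a : ℂ) * bC (X j) (Y j) a) + (cF t S₀ : ℂ) * Complex.I * bD (X j) (Y j)))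
    (fun i j => ∑ a, inner ℝ (bC (X i) (Y i) a) (bC (X j) (Y j) a))
    (fun i j => inner ℝ (bD (X i) (Y i)) (bD (X j) (Y j)))
    (fun i j => (∑ a, p a * bP (X i) (Y i) a) * bW (X j) (Y j))
    (fun i j => (∑ a, p a * bP (X j) (Y j) a) * bW (X i) (Y i))
    (fun i j => bW (X i) (Y i) * bW (X j) (Y j))
    (cF t S₀ ^ 2) (3 * (cq t S₀ ^ 2 / t ^ 2)) (cq t S₀) (cκ t S₀ * cH t S₀) (cF t S₀ * S₀)
    (cF' t S₀ * S₀ ^ 2 * cF t S₀ ^ 2) (2 * cκ t S₀ * cF t S₀ * cH t S₀)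
    (4 * cH t S₀ - 3 * cF t S₀ ^ 2 - cF t S₀ ^ 2 * (1 - S₀ ^ 2))
  have sPW : ∑ i, ∑ j, ((∑ a, p a * bP (X i) (Y i) a) * bW (X j) (Y j)) =
      (∑ i, ∑ a, p a * bP (X i) (Y i) a) * ∑ i, bW (X i) (Y i) := by rw [Finset.sum_mul_sum]
  have sPW' : ∑ i, ∑ j, ((∑ a, p a * bP (X j) (Y j) a) * bW (X i) (Y i)) =
      (∑ i, ∑ a, p a * bP (X i) (Y i) a) * ∑ i, bW (X i) (Y i) := by
    rw [Finset.sum_comm, sPW]
  rw [sum_bB, sum_sum_sum_mul (fun i a => bP (X i) (Y i) a),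
    sum_sum_sum_inner (fun i a => bC (X i) (Y i) a), sum_sum_inner (fun i => bD (X i) (Y i)),
    sum_sum_mul (fun i => bW (X i) (Y i)), sum_sum_mul (fun i => ∑ a, p a * bP (X i) (Y i) a),
    sum_sum_inner (fun i => (∑ a, (p a : ℂ) * bC (X i) (Y i) a)
      + (cF t S₀ : ℂ) * Complex.I * bD (X i) (Y i)), sPW, sPW'] at h1
  rw [← h1, curvForm]
  exact Finset.sum_congr rfl fun i _ => Finset.sum_congr rfl fun j _ =>
    riem_hmet ht ht' hS hS' p hp (X i) (Y i) (X j) (Y j)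

theorem curvOpGE_hmet {t S₀ : ℝ} (ht : 0 < t) (ht' : t ≤ 1 / 4) (hS : 0 < S₀) (hS' : S₀ ≤ 1)
    (p : F k) (hp : ‖p‖ ^ 2 = 1 - S₀ ^ 2) : CurvOpGE (hmet t S₀ p) 0 (-t) := by
  intro N X Y
  have hR2' : 0 < t ^ 2 + S₀ ^ 2 := by positivity
  have hR : 0 < cR t S₀ := Real.sqrt_pos.2 hR2'
  have hR2 : cR t S₀ ^ 2 = t ^ 2 + S₀ ^ 2 := Real.sq_sqrt hR2'.le
  have hcf : cf t S₀ = cF t S₀ ^ 2 := by
    rw [cf, cF, div_pow, hR2]; ring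
  rw [bivNormSq_hmet, curvForm_hmet ht ht' hS hS' p hp, hcf]
  have e1 : cH t S₀ = 2 - 2 * t * cR t S₀ := rfl
  have e2 : cF t S₀ = t * S₀ / cR t S₀ := rfl
  have e3 : cq t S₀ = t ^ 2 / cR t S₀ ^ 2 := rfl
  have e4 : cF' t S₀ = t ^ 3 / cR t S₀ ^ 3 := rfl
  have e5 : cκ t S₀ = cF' t S₀ / cH t S₀ + cF t S₀ ^ 2 / cH t S₀ ^ 2 := rfl
  refine est_scalar ht ht' hS hS' hR hR2 e1 e2 rfl e3 e4 e5 ?_ ?_ ?_ ?_ ?_
  · exact div_nonneg (Finset.sum_nonneg fun a _ => Finset.sum_nonneg fun b _ => sq_nonneg _)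
      (by norm_num)
  · exact Finset.sum_nonneg fun a _ => sq_nonneg _
  · exact Finset.sum_nonneg fun a _ => sq_nonneg _
  · exact sq_nonneg _
  · exact sq_nonneg _

end Pool.Agent.H86.Anco
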