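import Pool.Agent.H86.Anco.Local

/-!
# Module JET: the curvature tensor in terms of the second jet of the metric

With `D²(u, v; b, c) = d2 g x u v b c`, at a point `x` where `g` is a metric:
`g (R(a,b)c, d) = 1/2 (D²(a,c;b,d) + D²(b,d;a,c) - D²(b,c;a,d) - D²(a,d;b,c))
   + g(Γ(a,c), Γ(b,d)) - g(Γ(b,c), Γ(a,d))`.

Proof.  Differentiate `g y (chr g y b c) d = chr1 g y b c d` (valid near `x`) in direction `a`:
`g (∂_a chr(b,c), d) = ∂_a chr1(b,c;d) - (∂_a g)(chr(b,c), d)`, and
`(∂_a g)(u, d) = chr1 (a,u;d) + chr1 (a,d;u)` (by `chr1_apply` and symmetry), while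
`g(chr(a, chr(b,c)), d) = chr1(a, chr(b,c); d)`.  So
`g (∂_a chr(b,c) + chr(a, chr(b,c)), d) = ∂_a chr1(b,c;d) - g(chr(a,d), chr(b,c))`; antisymmetrise in
`a, b` and use the symmetry of the second derivative
(`ContDiffAt.isSymmSndFDerivAt` or similar).
-/

open scoped Manifold ContDiff Bundle Topology

noncomputable section

namespace Pool.Agent.H86.Anco

variable {E : Type*} [NormedAddCommGroup E] [NormedSpace ℝ E] [FiniteDimensional ℝ E]

/-- The second partial derivative `∂_a ∂_c (g (b, d))` at `x`. -/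
def d2 (g : E → E →L[ℝ] E →L[ℝ] ℝ) (x a c b d : E) : ℝ :=
  fderiv ℝ (fun y => fderiv ℝ g y c b d) x a

lemma two_le_infty : (2 : WithTop ℕ∞) ≤ ∞ := by
  exact ENat.LEInfty.out

omit [FiniteDimensional ℝ E] in
lemma fderiv_apply_apply {g : E → E →L[ℝ] E →L[ℝ] ℝ} {y : E} (h : DifferentiableAt ℝ g y)
    (c b d : E) : fderiv ℝ g y c b d = fderiv ℝ (fun z => g z b d) y c := by
  have h2 := (h.hasFDerivAt.clm_apply (hasFDerivAt_const b y)).clm_apply
    (hasFDerivAt_const d y)
  rw [h2.fderiv]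
  simp

omit [FiniteDimensional ℝ E] in
lemma contDiffAt_apply_apply {g : E → E →L[ℝ] E →L[ℝ] ℝ} {x : E} (h : ContDiffAt ℝ ∞ g x)
    (b d : E) : ContDiffAt ℝ ∞ (fun y => g y b d) x :=
  (h.clm_apply contDiffAt_const).clm_apply contDiffAt_const

omit [FiniteDimensional ℝ E] in
lemma eventually_fderiv_apply {g : E → E →L[ℝ] E →L[ℝ] ℝ} {x : E} (h : ContDiffAt ℝ ∞ g x)
    (c b d : E) : (fun y => fderiv ℝ g y c b d) =ᶠ[𝓝 x] 
      (fun y => fderiv ℝ (fun z => g z b d) y c) := by
  have h1 : ContDiffAt ℝ 1 g x := h.of_le (by norm_num)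
  filter_upwards [h1.eventually (by simp)] with y hy
  exact fderiv_apply_apply (hy.differentiableAt (by norm_num)) c b d

omit [FiniteDimensional ℝ E] in
lemma hasFDerivAt_fderiv_apply {g : E → E →L[ℝ] E →L[ℝ] ℝ} {x : E} (h : ContDiffAt ℝ ∞ g x)
    (c b d : E) : ∃ L : E →L[ℝ] ℝ, HasFDerivAt (fun y => fderiv ℝ g y c b d) L x ∧
      ∀ a, L a = fderiv ℝ (fderiv ℝ (fun y => g y b d)) x a c := by
  have hG := contDiffAt_apply_apply h b d
  have h1 : HasFDerivAt (fderiv ℝ (fun y => g y b d))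
      (fderiv ℝ (fderiv ℝ (fun y => g y b d)) x) x := by
    have : ContDiffAt ℝ 1 (fderiv ℝ (fun y => g y b d)) x :=
      hG.fderiv_right (m := 1) (by norm_num; exact two_le_infty)
    exact (this.differentiableAt (by norm_num)).hasFDerivAt
  have h2 := h1.clm_apply (hasFDerivAt_const c x)
  refine ⟨_, h2.congr_of_eventuallyEq (eventually_fderiv_apply h c b d), fun a => ?_⟩
  simp

omit [FiniteDimensional ℝ E] in
lemma d2_eq {g : E → E →L[ℝ] E →L[ℝ] ℝ} {x : E} (h : ContDiffAt ℝ ∞ g x) (a c b d : E) :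
    d2 g x a c b d = fderiv ℝ (fderiv ℝ (fun y => g y b d)) x a c := by
  obtain ⟨L, hL, hLa⟩ := hasFDerivAt_fderiv_apply h c b d
  rw [d2, hL.fderiv, hLa]

omit [FiniteDimensional ℝ E] in
lemma d2_symm {g : E → E →L[ℝ] E →L[ℝ] ℝ} {x : E} (h : ContDiffAt ℝ ∞ g x) (a c b d : E) :
    d2 g x a c b d = d2 g x c a b d := by
  rw [d2_eq h, d2_eq h]
  have hs : IsSymmSndFDerivAt ℝ (fun y => g y b d) x :=
    (contDiffAt_apply_apply h b d).isSymmSndFDerivAt (by simp; exact two_le_infty)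
  exact hs.eq a c

omit [FiniteDimensional ℝ E] in
lemma fderiv_symm {g : E → E →L[ℝ] E →L[ℝ] ℝ} {x : E} (h : ContDiffAt ℝ ∞ g x)
    (hs : ∀ᶠ y in 𝓝 x, ∀ a b, g y a b = g y b a) (v a b : E) :
    fderiv ℝ g x v a b = fderiv ℝ g x v b a := by
  have hd : HasFDerivAt g (fderiv ℝ g x) x :=
    (h.differentiableAt (by simp)).hasFDerivAt
  have h1 := (hd.clm_apply (hasFDerivAt_const a x)).clm_apply (hasFDerivAt_const b x)
  have h2 := (hd.clm_apply (hasFDerivAt_const b x)).clm_apply (hasFDerivAt_const a x)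
  have h3 : (fun y => g y a b) =ᶠ[𝓝 x] (fun y => g y b a) := by
    filter_upwards [hs] with y hy using hy a b
  have h4 := (h1.congr_of_eventuallyEq h3.symm).unique h2
  have h5 := congrArg (fun L => L v) h4
  simpa using h5

lemma apply_fderiv_chr {g : E → E →L[ℝ] E →L[ℝ] ℝ} {x : E} (h : IsMetricAt g x) (a b c d : E) :
    g x (fderiv ℝ (fun y => chr g y b c) x a) d + g x (chr g x a (chr g x b c)) d =
      (d2 g x a b c d + d2 g x a c b d - d2 g x a d b c) / 2
        - g x (chr g x a d) (chr g x b c) := by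
  have hg : HasFDerivAt g (fderiv ℝ g x) x :=
    (h.smooth.differentiableAt (by simp)).hasFDerivAt
  have hF : HasFDerivAt (fun y => chr g y b c) (fderiv ℝ (fun y => chr g y b c) x) x :=
    ((h.contDiffAt_chr b c).differentiableAt (by simp)).hasFDerivAt
  have h1 := (hg.clm_apply hF).clm_apply (hasFDerivAt_const d x)
  obtain ⟨L1, hL1, hL1a⟩ := hasFDerivAt_fderiv_apply h.smooth b c d
  obtain ⟨L2, hL2, hL2a⟩ := hasFDerivAt_fderiv_apply h.smooth c b d
  obtain ⟨L3, hL3, hL3a⟩ := hasFDerivAt_fderiv_apply h.smooth d b c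
  have h2 := ((hL1.add hL2).sub hL3).const_mul (1 / 2 : ℝ)
  have he : (fun y => g y (chr g y b c) d) =ᶠ[𝓝 x]
      (fun y => (1 / 2 : ℝ) * (fderiv ℝ g y b c d + fderiv ℝ g y c b d - fderiv ℝ g y d b c)) := by
    filter_upwards [h.eventually] with y hy
    rw [apply_chr hy.pos, chr1_apply]
    ring
  have h3 : _ = _ := (h1.congr_of_eventuallyEq he.symm).unique h2
  have h4 := congrArg (fun L => L a) h3
  simp only [ContinuousLinearMap.add_apply, ContinuousLinearMap.coe_comp',
    Function.comp_apply, ContinuousLinearMap.flip_apply, ContinuousLinearMap.zero_apply,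
    map_zero, zero_add, ContinuousLinearMap.smul_apply, ContinuousLinearMap.sub_apply,
    smul_eq_mul, hL1a, hL2a, hL3a] at h4
  rw [← d2_eq h.smooth, ← d2_eq h.smooth, ← d2_eq h.smooth] at h4
  have h5 : fderiv ℝ g x a (chr g x b c) d
      = chr1 g x a (chr g x b c) d + chr1 g x a d (chr g x b c) := by
    rw [chr1_apply, chr1_apply, fderiv_symm h.smooth h.symm a d (chr g x b c)]
    ring
  rw [← apply_chr h.pos, ← apply_chr h.pos] at h5
  linarith

theorem riem_jet {g : E → E →L[ℝ] E →L[ℝ] ℝ} {x : E} (h : IsMetricAt g x) (a b c d : E) :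
    g x (riem g x a b c) d =
      (d2 g x a c b d + d2 g x b d a c - d2 g x b c a d - d2 g x a d b c) / 2
      + g x (chr g x a c) (chr g x b d) - g x (chr g x b c) (chr g x a d) := by
  have h1 := apply_fderiv_chr h a b c d
  have h2 := apply_fderiv_chr h b a c d
  have h3 := d2_symm h.smooth a b c d
  have hs := h.symm.self_of_nhds
  have h4 : g x (riem g x a b c) d =
      (g x (fderiv ℝ (fun y => chr g y b c) x a) d + g x (chr g x a (chr g x b c)) d)
      - (g x (fderiv ℝ (fun y => chr g y a c) x b) d + g x (chr g x b (chr g x a c)) d) := by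
    simp only [riem, map_sub, map_add, ContinuousLinearMap.add_apply,
      ContinuousLinearMap.sub_apply]
    ring
  rw [h4, h1, h2, h3, hs (chr g x a d) (chr g x b c), hs (chr g x b d) (chr g x a c)]
  ring

end Pool.Agent.H86.Anco
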