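import Pool.Agent.H86.Anco.Center
import Pool.Agent.H86.Anco.Jet

/-!
# Module CENTER-JET: the second jet of `hmet` at `0`

Hints.  `hmet t S₀ p u a b` is the explicit function `hmet_apply`; every ingredient is smooth near
`u = 0` because `t ^ 2 + S ^ 2 > 0`.  Second order expansions at `0`:
`(1 + |ξ|²/4)⁻² = 1 - |ξ|²/2 + …`, `S(ξ) = S₀ + ⟪p, ξ⟫ - S₀ |ξ|²/2 + …`,
`(1 + |z|²)⁻² = 1 - 2|z|² + …`, `Af z b = b_ψ + om z b_z + O(|z|³)` where
`om z v = Im (conj z * v)`, `cf' , cf''` and `cH', cH''` are the first and second derivatives at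
`S₀` of `f(S) = t²S²/(t²+S²)` and `H(S) = 2 - 2t√(t²+S²)`.
We restrict to lines `s ↦ hmet t S₀ p (s • v) a b` and polarise.
-/

open scoped Manifold ContDiff Bundle Topology

noncomputable section

namespace Pool.Agent.H86.Anco

variable {k : ℕ}

/-! ### Second jets of functions of one variable at `0` -/

/-- `φ` has value `c0`, first derivative `c1` and second derivative `c2` at `0`. -/
def J2 (φ : ℝ → ℝ) (c0 c1 c2 : ℝ) : Prop :=
  ∃ φ' : ℝ → ℝ, (∀ᶠ s in 𝓝 (0 : ℝ), HasDerivAt φ (φ' s) s) ∧ φ 0 = c0 ∧ φ' 0 = c1 ∧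
    HasDerivAt φ' c2 0

lemma J2.uniq {φ : ℝ → ℝ} {c0 c1 c2 d0 d1 d2 : ℝ} (h : J2 φ c0 c1 c2) (h' : J2 φ d0 d1 d2) :
    c0 = d0 ∧ c1 = d1 ∧ c2 = d2 := by
  obtain ⟨f, hf, h0, h1, h2⟩ := h
  obtain ⟨g, hg, k0, k1, k2⟩ := h'
  have he : f =ᶠ[𝓝 (0 : ℝ)] g := by
    filter_upwards [hf, hg] with s a b using a.unique b
  refine ⟨by rw [← h0, ← k0], by rw [← h1, ← k1]; exact he.self_of_nhds, ?_⟩
  exact (k2.congr_of_eventuallyEq he).unique h2 |>.symm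

lemma J2.congr' {φ : ℝ → ℝ} {c0 c1 c2 d0 d1 d2 : ℝ} (h : J2 φ c0 c1 c2)
    (h0 : c0 = d0) (h1 : c1 = d1) (h2 : c2 = d2) : J2 φ d0 d1 d2 := by
  subst h0; subst h1; subst h2; exact h

lemma J2.congr_fun {φ ψ : ℝ → ℝ} {c0 c1 c2 : ℝ} (h : J2 φ c0 c1 c2)
    (he : ∀ s, ψ s = φ s) : J2 ψ c0 c1 c2 := by
  have : ψ = φ := funext he
  rw [this]; exact h

lemma J2.const (c : ℝ) : J2 (fun _ => c) c 0 0 :=
  ⟨fun _ => 0, Filter.Eventually.of_forall fun s => hasDerivAt_const s c, rfl, rfl,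
    hasDerivAt_const 0 0⟩

lemma J2.id : J2 (fun s => s) 0 1 0 :=
  ⟨fun _ => 1, Filter.Eventually.of_forall fun s => hasDerivAt_id s, rfl, rfl,
    hasDerivAt_const 0 1⟩

lemma J2.add {φ ψ : ℝ → ℝ} {a0 a1 a2 b0 b1 b2 : ℝ} (h : J2 φ a0 a1 a2) (h' : J2 ψ b0 b1 b2) :
    J2 (fun s => φ s + ψ s) (a0 + b0) (a1 + b1) (a2 + b2) := by
  obtain ⟨f, hf, h0, h1, h2⟩ := h
  obtain ⟨g, hg, k0, k1, k2⟩ := h'
  refine ⟨fun s => f s + g s, ?_, by simp only [h0, k0], by simp only [h1, k1], h2.add k2⟩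
  filter_upwards [hf, hg] with s a b using a.add b

lemma J2.mul {φ ψ : ℝ → ℝ} {a0 a1 a2 b0 b1 b2 : ℝ} (h : J2 φ a0 a1 a2) (h' : J2 ψ b0 b1 b2) :
    J2 (fun s => φ s * ψ s) (a0 * b0) (a1 * b0 + a0 * b1) (a2 * b0 + 2 * (a1 * b1) + a0 * b2) := by
  obtain ⟨f, hf, h0, h1, h2⟩ := h
  obtain ⟨g, hg, k0, k1, k2⟩ := h'
  refine ⟨fun s => f s * ψ s + φ s * g s, ?_, by simp only [h0, k0], by simp only [h0, k0, h1, k1], ?_⟩
  · filter_upwards [hf, hg] with s a b using a.mul b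
  · have := (h2.mul hg.self_of_nhds).add (hf.self_of_nhds.mul k2)
    refine this.congr_deriv ?_
    rw [h0, k0, h1, k1]
    ring

lemma J2.inv {φ : ℝ → ℝ} {a0 a1 a2 : ℝ} (h : J2 φ a0 a1 a2) (ha : a0 ≠ 0) :
    J2 (fun s => (φ s)⁻¹) a0⁻¹ (-a1 / a0 ^ 2) ((2 * a1 ^ 2 - a0 * a2) / a0 ^ 3) := by
  obtain ⟨f, hf, h0, h1, h2⟩ := h
  have hc : ContinuousAt φ 0 := hf.self_of_nhds.continuousAt
  have hn : ∀ᶠ s in 𝓝 (0 : ℝ), φ s ≠ 0 := hc.eventually_ne (by rw [h0]; exact ha)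
  refine ⟨fun s => -f s / φ s ^ 2, ?_, by simp only [h0], by simp only [h0, h1], ?_⟩
  · filter_upwards [hf, hn] with s a b using a.inv b
  · have h3 := hf.self_of_nhds
    have := (h2.neg).div (h3.pow 2) (by simp only [Pi.pow_apply, h0]; positivity)
    refine this.congr_deriv ?_
    simp only [Pi.neg_apply, Pi.pow_apply]
    rw [h0, h1]
    field_simp
    ring

lemma J2.sqrt {φ : ℝ → ℝ} {a0 a1 a2 : ℝ} (h : J2 φ a0 a1 a2) (ha : 0 < a0) :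
    J2 (fun s => √(φ s)) (√a0) (a1 / (2 * √a0)) (a2 / (2 * √a0) - a1 ^ 2 / (4 * √a0 ^ 3)) := by
  obtain ⟨f, hf, h0, h1, h2⟩ := h
  have hc : ContinuousAt φ 0 := hf.self_of_nhds.continuousAt
  have hn : ∀ᶠ s in 𝓝 (0 : ℝ), φ s ≠ 0 := hc.eventually_ne (by rw [h0]; exact ha.ne')
  refine ⟨fun s => f s / (2 * √(φ s)), ?_, by simp only [h0], by simp only [h0, h1], ?_⟩
  · filter_upwards [hf, hn] with s a b using a.sqrt b
  · have h3 := hf.self_of_nhds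
    have h4 := h3.sqrt (by rw [h0]; exact ha.ne')
    have hs : √a0 ≠ 0 := (Real.sqrt_pos.2 ha).ne'
    have := h2.div (h4.const_mul 2) (by rw [h0]; positivity)
    refine this.congr_deriv ?_
    rw [h0, h1]
    field_simp
    ring

/-- Restricting a smooth function to a line. -/
lemma J2.line {E : Type*} [NormedAddCommGroup E] [NormedSpace ℝ E] {Φ : E → ℝ}
    (h : ContDiffAt ℝ ∞ Φ 0) (w : E) :
    J2 (fun s => Φ (s • w)) (Φ 0) (fderiv ℝ Φ 0 w) (fderiv ℝ (fderiv ℝ Φ) 0 w w) := by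
  have hl : ∀ s : ℝ, HasDerivAt (fun s : ℝ => s • w) w s := fun s => by
    simpa using (hasDerivAt_id s).smul_const w
  have ht : Filter.Tendsto (fun s : ℝ => s • w) (𝓝 0) (𝓝 0) := by
    have := (hl 0).continuousAt.tendsto
    simpa using this
  have h1 : ∀ᶠ y in 𝓝 (0 : E), ContDiffAt ℝ 1 Φ y :=
    (h.of_le (by norm_num)).eventually (by simp)
  refine ⟨fun s => fderiv ℝ Φ (s • w) w, ?_, by simp, by simp, ?_⟩
  · filter_upwards [ht.eventually h1] with s hs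
    exact (hs.differentiableAt (by norm_num)).hasFDerivAt.comp_hasDerivAt s (hl s)
  · have h2 : ContDiffAt ℝ 1 (fderiv ℝ Φ) 0 :=
      h.fderiv_right (m := 1) (by norm_num; exact two_le_infty)
    have h3 : HasFDerivAt (fderiv ℝ Φ) (fderiv ℝ (fderiv ℝ Φ) 0) ((0 : ℝ) • w) := by
      rw [zero_smul]
      exact (h2.differentiableAt (by norm_num)).hasFDerivAt
    have h4 := h3.comp_hasDerivAt (0 : ℝ) (hl 0)
    have h5 := h4.clm_apply (hasDerivAt_const (0 : ℝ) w)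
    simpa using h5

/-! ### The second jet of `hmet` -/

/-- The function `S` along a line. -/
def Sl (S₀ c q s : ℝ) : ℝ :=
  ((1 + s * s * (-c / 4)) * S₀ + s * q) * (1 + s * s * (c / 4))⁻¹

lemma Sl_jet (S₀ c q : ℝ) : J2 (Sl S₀ c q) S₀ q (-(S₀ * c)) := by
  have hss := (J2.id.mul J2.id).congr' (d0 := 0) (d1 := 0) (d2 := 2) (by ring) (by ring) (by ring)
  have h1 := (((J2.const 1).add (hss.mul (J2.const (-c / 4)))).mul (J2.const S₀)).add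
    (J2.id.mul (J2.const q))
  have h2 := ((J2.const 1).add (hss.mul (J2.const (c / 4)))).congr' (d0 := 1) (d1 := 0)
    (d2 := c / 2) (by ring) (by ring) (by ring)
  have h3 := h1.mul (h2.inv one_ne_zero)
  exact h3.congr' (by ring) (by ring) (by ring)

/-- The coefficient `m` along a line. -/
lemma m_jet (c : ℝ) : J2 (fun s => ((1 + s * s * c) * (1 + s * s * c))⁻¹) 1 0 (-(4 * c)) := by
  have hss := (J2.id.mul J2.id).congr' (d0 := 0) (d1 := 0) (d2 := 2) (by ring) (by ring) (by ring)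
  have h2 := ((J2.const 1).add (hss.mul (J2.const c))).congr' (d0 := 1) (d1 := 0)
    (d2 := 2 * c) (by ring) (by ring) (by ring)
  have h3 := (h2.mul h2).congr' (d0 := 1) (d1 := 0)
    (d2 := 4 * c) (by ring) (by ring) (by ring)
  exact (h3.inv one_ne_zero).congr' (by ring) (by ring) (by ring)

/-- The connection form along a line. -/
lemma A_jet (a e o : ℝ) : J2 (fun s => a + (1 + s * s * e)⁻¹ * (s * o)) a o 0 := by
  have hss := (J2.id.mul J2.id).congr' (d0 := 0) (d1 := 0) (d2 := 2) (by ring) (by ring) (by ring)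
  have h2 := ((J2.const 1).add (hss.mul (J2.const e))).congr' (d0 := 1) (d1 := 0)
    (d2 := 2 * e) (by ring) (by ring) (by ring)
  have h3 := (J2.const a).add ((h2.inv one_ne_zero).mul (J2.id.mul (J2.const o)))
  exact h3.congr' (by ring) (by ring) (by ring)

lemma f_jet {t S₀ : ℝ} (ht : 0 < t) (c q : ℝ) :
    J2 (fun s => (t * t * (Sl S₀ c q s * Sl S₀ c q s)) *
      (t * t + Sl S₀ c q s * Sl S₀ c q s)⁻¹)
      (cf t S₀) (cf' t S₀ * q) (cf'' t S₀ * q * q - cf' t S₀ * S₀ * c) := by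
  have h1 := Sl_jet S₀ c q
  have h2 := h1.mul h1
  have h3 := (J2.const (t * t)).add h2
  have hR : 0 < t ^ 2 + S₀ ^ 2 := by positivity
  have h4 := ((J2.const (t * t)).mul h2).mul (h3.inv (by nlinarith [hR]))
  refine h4.congr' ?_ ?_ ?_
  · rw [cf]
    field_simp
  · rw [cf']
    have : t * t + S₀ * S₀ = t ^ 2 + S₀ ^ 2 := by ring
    rw [this]
    field_simp
    ring
  · rw [cf'', cf']
    have : t * t + S₀ * S₀ = t ^ 2 + S₀ ^ 2 := by ring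
    rw [this]
    field_simp
    ring

lemma H_jet {t S₀ : ℝ} (ht : 0 < t) (c q : ℝ) :
    J2 (fun s => 2 + (-2 * t) * √(t * t + Sl S₀ c q s * Sl S₀ c q s))
      (cH t S₀) (cH' t S₀ * q) (cH'' t S₀ * q * q - cH' t S₀ * S₀ * c) := by
  have h1 := Sl_jet S₀ c q
  have h3 := (J2.const (t * t)).add (h1.mul h1)
  have hR : 0 < t ^ 2 + S₀ ^ 2 := by positivity
  have hRR : 0 < cR t S₀ := Real.sqrt_pos.2 hR
  have hR2 : cR t S₀ ^ 2 = t ^ 2 + S₀ ^ 2 := Real.sq_sqrt hR.le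
  have h4 := (J2.const 2).add ((J2.const (-2 * t)).mul (h3.sqrt (by nlinarith [hR])))
  have hs : √(t * t + S₀ * S₀) = cR t S₀ := by
    rw [cR]; congr 1; ring
  rw [hs] at h4
  refine h4.congr' ?_ ?_ ?_
  · rw [cH]; ring
  · rw [cH']
    field_simp
    ring
  · rw [cH'', cH']
    have ht3 : t ^ 3 = t * (cR t S₀ ^ 2 - S₀ ^ 2) := by rw [hR2]; ring
    rw [ht3]
    field_simp
    ring

/-- `hmet` along a line. -/
lemma hmet_line {t S₀ : ℝ} (ht : 0 < t) (p : F k) (w a b : W k) :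
    J2 (fun s : ℝ => hmet t S₀ p (s • w) a b)
      (inner ℝ a.2.1 b.2.1 + cf t S₀ * (a.1 * b.1) + cH t S₀ * inner ℝ a.2.2 b.2.2)
      (cf' t S₀ * inner ℝ p w.2.1 * (a.1 * b.1)
        + cf t S₀ * (a.1 * om w.2.2 b.2.2 + b.1 * om w.2.2 a.2.2)
        + cH' t S₀ * inner ℝ p w.2.1 * inner ℝ a.2.2 b.2.2)
      (-(inner ℝ w.2.1 w.2.1 * inner ℝ a.2.1 b.2.1)
      + (cf'' t S₀ * inner ℝ p w.2.1 * inner ℝ p w.2.1
          - cf' t S₀ * S₀ * inner ℝ w.2.1 w.2.1) * (a.1 * b.1)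
      + cf' t S₀ * inner ℝ p w.2.1 * (a.1 * om w.2.2 b.2.2 + b.1 * om w.2.2 a.2.2)
      + cf' t S₀ * inner ℝ p w.2.1 * (a.1 * om w.2.2 b.2.2 + b.1 * om w.2.2 a.2.2)
      + cf t S₀ * (om w.2.2 a.2.2 * om w.2.2 b.2.2 + om w.2.2 a.2.2 * om w.2.2 b.2.2)
      + (cH'' t S₀ * inner ℝ p w.2.1 * inner ℝ p w.2.1
          - cH' t S₀ * S₀ * inner ℝ w.2.1 w.2.1) * inner ℝ a.2.2 b.2.2
      - 4 * cH t S₀ * inner ℝ w.2.2 w.2.2 * inner ℝ a.2.2 b.2.2) := by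
  have h1 := (m_jet (inner ℝ w.2.1 w.2.1 / 4)).mul (J2.const (inner ℝ a.2.1 b.2.1))
  have h2 := (f_jet (S₀ := S₀) ht (inner ℝ w.2.1 w.2.1) (inner ℝ p w.2.1)).mul
    ((A_jet a.1 (inner ℝ w.2.2 w.2.2) (om w.2.2 a.2.2)).mul
      (A_jet b.1 (inner ℝ w.2.2 w.2.2) (om w.2.2 b.2.2)))
  have h3 := ((H_jet (S₀ := S₀) ht (inner ℝ w.2.1 w.2.1) (inner ℝ p w.2.1)).mul
    (m_jet (inner ℝ w.2.2 w.2.2))).mul (J2.const (inner ℝ a.2.2 b.2.2))
  have h4 := (h1.add h2).add h3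
  have hI : ∀ (s : ℝ) (v : ℂ), inner ℝ (Complex.I * (s • w.2.2)) v = s * om w.2.2 v := by
    intro s v
    simp [om, Complex.inner]
    ring
  have hn1 : ∀ s : ℝ, ‖s • w.2.1‖ ^ 2 = s * s * inner ℝ w.2.1 w.2.1 := fun s => by
    rw [norm_smul, mul_pow, real_inner_self_eq_norm_sq, Real.norm_eq_abs, sq_abs]; ring
  have hn2 : ∀ s : ℝ, ‖s • w.2.2‖ ^ 2 = s * s * inner ℝ w.2.2 w.2.2 := fun s => by
    rw [norm_smul, mul_pow, real_inner_self_eq_norm_sq, Real.norm_eq_abs, sq_abs]; ring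
  have hA : ∀ (s : ℝ) (v : W k), Af (s • w.2.2) v =
      v.1 + (1 + s * s * inner ℝ w.2.2 w.2.2)⁻¹ * (s * om w.2.2 v.2.2) := by
    intro s v
    simp only [Af, ContinuousLinearMap.add_apply, ContinuousLinearMap.smul_apply,
      ContinuousLinearMap.comp_apply, qψ_apply, qz_apply, innerSL_apply_apply, smul_eq_mul, hI, hn2]
  have hS : ∀ s : ℝ, Sf S₀ p (s • w.2.1) = Sl S₀ (inner ℝ w.2.1 w.2.1) (inner ℝ p w.2.1) s := by
    intro s
    rw [Sf, Sl, hn1, real_inner_smul_right]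
    ring
  refine (h4.congr_fun fun s => ?_).congr' ?_ ?_ ?_
  · rw [hmet_apply]
    simp only [Prod.smul_fst, Prod.smul_snd, hS, hA, hn1, hn2]
    have e1 : ∀ x : ℝ, t * t + x * x = t ^ 2 + x ^ 2 := fun x => by ring
    simp only [e1]
    ring
  · ring
  · ring
  · ring

lemma contDiffAt_norm_sq_fst : ContDiffAt ℝ ∞ (fun u : W k => ‖u.2.1‖ ^ 2) 0 :=
  (contDiff_norm_sq ℝ).contDiffAt.comp (0 : W k) (qξ (k := k)).contDiff.contDiffAt

lemma contDiffAt_norm_sq_snd : ContDiffAt ℝ ∞ (fun u : W k => ‖u.2.2‖ ^ 2) 0 :=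
  (contDiff_norm_sq ℝ).contDiffAt.comp (0 : W k) (qz (k := k)).contDiff.contDiffAt

lemma contDiffAt_Sf (S₀ : ℝ) (p : F k) : ContDiffAt ℝ ∞ (fun u : W k => Sf S₀ p u.2.1) 0 := by
  have h1 := contDiffAt_norm_sq_fst (k := k)
  have h2 : ContDiffAt ℝ ∞ (fun u : W k => inner ℝ p u.2.1) 0 :=
    ((innerSL ℝ p).comp (qξ (k := k))).contDiff.contDiffAt
  have h3 : ContDiffAt ℝ ∞ (fun u : W k => 1 + ‖u.2.1‖ ^ 2 / 4) 0 :=
    contDiffAt_const.add (h1.div_const 4)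
  have h4 : ContDiffAt ℝ ∞ (fun u : W k => (1 - ‖u.2.1‖ ^ 2 / 4) * S₀ + inner ℝ p u.2.1) 0 :=
    ((contDiffAt_const.sub (h1.div_const 4)).mul contDiffAt_const).add h2
  exact h4.div h3 (by simp)

lemma Sf_zero (S₀ : ℝ) (p : F k) : Sf S₀ p 0 = S₀ := by simp [Sf]

lemma contDiffAt_Af : ContDiffAt ℝ ∞ (fun u : W k => Af (k := k) u.2.2) 0 := by
  have h1 := contDiffAt_norm_sq_snd (k := k)
  have h2 : ContDiffAt ℝ ∞ (fun u : W k => (1 + ‖u.2.2‖ ^ 2)⁻¹) 0 :=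
    (contDiffAt_const.add h1).inv (by simp)
  have h3 : ContDiffAt ℝ ∞ (fun u : W k => (innerSL ℝ (Complex.I * u.2.2) : ℂ →L[ℝ] ℝ)) 0 := by
    have : ContDiff ℝ ∞ (fun u : W k => Complex.I * u.2.2) :=
      contDiff_const.mul (qz (k := k)).contDiff
    exact ((innerSL ℝ (E := ℂ)).contDiff.comp this).contDiffAt
  have h4 : ContDiffAt ℝ ∞ (fun u : W k =>
      ((innerSL ℝ (Complex.I * u.2.2) : ℂ →L[ℝ] ℝ)).comp (qz (k := k))) 0 :=
    h3.clm_comp contDiffAt_const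
  exact contDiffAt_const.add (h2.smul h4)

lemma cd_comb {E : Type*} [NormedAddCommGroup E] [NormedSpace ℝ E] {X : Type*}
    [NormedAddCommGroup X] [NormedSpace ℝ X] {x : E} {c1 c2 c3 : E → ℝ} {B1 B3 : X} {B2 : E → X}
    (h1 : ContDiffAt ℝ ∞ c1 x) (h2 : ContDiffAt ℝ ∞ c2 x) (h3 : ContDiffAt ℝ ∞ c3 x)
    (hB : ContDiffAt ℝ ∞ B2 x) :
    ContDiffAt ℝ ∞ (fun u => c1 u • B1 + c2 u • B2 u + c3 u • B3) x :=
  ((h1.smul contDiffAt_const).add (h2.smul hB)).add (h3.smul contDiffAt_const)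

lemma contDiffAt_hmet {t S₀ : ℝ} (ht : 0 < t) (p : F k) :
    ContDiffAt ℝ ∞ (hmet t S₀ p) 0 := by
  have hn1 := contDiffAt_norm_sq_fst (k := k)
  have hn2 := contDiffAt_norm_sq_snd (k := k)
  have hS := contDiffAt_Sf S₀ p
  have hA := contDiffAt_Af (k := k)
  have hR : 0 < t ^ 2 + S₀ ^ 2 := by positivity
  have h1 : ContDiffAt ℝ ∞ (fun u : W k => ((1 + ‖u.2.1‖ ^ 2 / 4) ^ 2)⁻¹) 0 :=
    ((contDiffAt_const.add (hn1.div_const 4)).pow 2).inv (by simp)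
  have h2 : ContDiffAt ℝ ∞ (fun u : W k =>
      t ^ 2 * Sf S₀ p u.2.1 ^ 2 / (t ^ 2 + Sf S₀ p u.2.1 ^ 2)) 0 :=
    (contDiffAt_const.mul (hS.pow 2)).div (contDiffAt_const.add (hS.pow 2))
      (by simp only [Prod.snd_zero, Prod.fst_zero, Sf_zero]; exact hR.ne')
  have h3 : ContDiffAt ℝ ∞ (fun u : W k => √(t ^ 2 + Sf S₀ p u.2.1 ^ 2)) 0 :=
    (contDiffAt_const.add (hS.pow 2)).sqrt
      (by simp only [Prod.snd_zero, Prod.fst_zero, Sf_zero]; exact hR.ne')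
  have h4 : ContDiffAt ℝ ∞ (fun u : W k =>
      (2 - 2 * t * √(t ^ 2 + Sf S₀ p u.2.1 ^ 2)) / (1 + ‖u.2.2‖ ^ 2) ^ 2) 0 :=
    (contDiffAt_const.sub (contDiffAt_const.mul h3)).div
      ((contDiffAt_const.add hn2).pow 2) (by simp)
  have h5 : ContDiffAt ℝ ∞ (fun u : W k => (Af (k := k) u.2.2).smulRight (Af (k := k) u.2.2)) 0 :=
    hA.smulRight hA
  exact cd_comb (X := W k →L[ℝ] W k →L[ℝ] ℝ) h1 h2 h4 h5

lemma contDiff_hmet {t S₀ : ℝ} (ht : 0 < t) (p : F k) :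
    ContDiff ℝ ∞ (hmet t S₀ p) := by
  have hn1 : ContDiff ℝ ∞ (fun u : W k => ‖u.2.1‖ ^ 2) :=
    (contDiff_norm_sq ℝ).comp (qξ (k := k)).contDiff
  have hn2 : ContDiff ℝ ∞ (fun u : W k => ‖u.2.2‖ ^ 2) :=
    (contDiff_norm_sq ℝ).comp (qz (k := k)).contDiff
  have hin : ContDiff ℝ ∞ (fun u : W k => inner ℝ p u.2.1) :=
    ((innerSL ℝ p).comp (qξ (k := k))).contDiff
  have hd : ContDiff ℝ ∞ (fun u : W k => 1 + ‖u.2.1‖ ^ 2 / 4) :=
    contDiff_const.add (hn1.div_const 4)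
  have hd0 : ∀ u : W k, 1 + ‖u.2.1‖ ^ 2 / 4 ≠ 0 := fun u => by positivity
  have hS : ContDiff ℝ ∞ (fun u : W k => Sf S₀ p u.2.1) :=
    (((contDiff_const.sub (hn1.div_const 4)).mul contDiff_const).add hin).div hd hd0
  have hR : ∀ u : W k, t ^ 2 + Sf S₀ p u.2.1 ^ 2 ≠ 0 := fun u => by positivity
  have hm : ContDiff ℝ ∞ (fun u : W k => t ^ 2 + Sf S₀ p u.2.1 ^ 2) :=
    contDiff_const.add (hS.pow 2)
  have h1 : ContDiff ℝ ∞ (fun u : W k => ((1 + ‖u.2.1‖ ^ 2 / 4) ^ 2)⁻¹) :=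
    (hd.pow 2).inv (fun u => pow_ne_zero 2 (hd0 u))
  have h2 : ContDiff ℝ ∞ (fun u : W k =>
      t ^ 2 * Sf S₀ p u.2.1 ^ 2 / (t ^ 2 + Sf S₀ p u.2.1 ^ 2)) :=
    (contDiff_const.mul (hS.pow 2)).div hm hR
  have h3 : ContDiff ℝ ∞ (fun u : W k => √(t ^ 2 + Sf S₀ p u.2.1 ^ 2)) := hm.sqrt hR
  have hz : ContDiff ℝ ∞ (fun u : W k => 1 + ‖u.2.2‖ ^ 2) := contDiff_const.add hn2
  have hz0 : ∀ u : W k, 1 + ‖u.2.2‖ ^ 2 ≠ 0 := fun u => by positivity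
  have h4 : ContDiff ℝ ∞ (fun u : W k =>
      (2 - 2 * t * √(t ^ 2 + Sf S₀ p u.2.1 ^ 2)) / (1 + ‖u.2.2‖ ^ 2) ^ 2) :=
    (contDiff_const.sub (contDiff_const.mul h3)).div (hz.pow 2) (fun u => pow_ne_zero 2 (hz0 u))
  have hI : ContDiff ℝ ∞ (fun u : W k => (innerSL ℝ (Complex.I * u.2.2) : ℂ →L[ℝ] ℝ)) := by
    have : ContDiff ℝ ∞ (fun u : W k => Complex.I * u.2.2) :=
      contDiff_const.mul (qz (k := k)).contDiff
    exact (innerSL ℝ (E := ℂ)).contDiff.comp this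
  have hA : ContDiff ℝ ∞ (fun u : W k => Af (k := k) u.2.2) :=
    contDiff_const.add ((hz.inv hz0).smul (hI.clm_comp contDiff_const))
  have h5 : ContDiff ℝ ∞ (fun u : W k => (Af (k := k) u.2.2).smulRight (Af (k := k) u.2.2)) :=
    hA.smulRight hA
  rw [contDiff_iff_contDiffAt]
  intro u
  exact cd_comb (X := W k →L[ℝ] W k →L[ℝ] ℝ) h1.contDiffAt h2.contDiffAt h4.contDiffAt
    h5.contDiffAt

theorem hmet_zero {t S₀ : ℝ} (p : F k) (a b : W k) :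
    hmet t S₀ p 0 a b = inner ℝ a.2.1 b.2.1 + cf t S₀ * (a.1 * b.1)
      + cH t S₀ * inner ℝ a.2.2 b.2.2 := by
  rw [hmet_apply]
  simp [Sf_zero, cf, cH, cR, Af]

theorem isMetricAt_hmet {t S₀ : ℝ} (ht : 0 < t) (ht' : t ≤ 1 / 4) (hS : 0 < S₀) (hS' : S₀ ≤ 1)
    (p : F k) : IsMetricAt (hmet t S₀ p) 0 := by
  refine ⟨Filter.Eventually.of_forall fun y => (contDiff_hmet ht p).contDiffAt,
    Filter.Eventually.of_forall fun y a b => ?_, fun a ha => ?_⟩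
  · rw [hmet_apply, hmet_apply, real_inner_comm, real_inner_comm a.2.2, mul_comm (Af y.2.2 a)]
  · rw [hmet_zero]
    have hf : 0 < cf t S₀ := by rw [cf]; positivity
    have hH : 0 < cH t S₀ := by
      have : cR t S₀ < 2 := by
        rw [cR, Real.sqrt_lt' (by norm_num)]
        nlinarith
      rw [cH]
      nlinarith
    rw [real_inner_self_eq_norm_sq, real_inner_self_eq_norm_sq]
    by_contra hc
    rw [not_lt] at hc
    have h1 : 0 ≤ ‖a.2.1‖ ^ 2 := by positivity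
    have h2 : 0 ≤ cf t S₀ * (a.1 * a.1) := mul_nonneg hf.le (mul_self_nonneg _)
    have h3 : 0 ≤ cH t S₀ * ‖a.2.2‖ ^ 2 := by positivity
    have e1 : ‖a.2.1‖ ^ 2 = 0 := by linarith
    have e2 : cf t S₀ * (a.1 * a.1) = 0 := by linarith
    have e3 : cH t S₀ * ‖a.2.2‖ ^ 2 = 0 := by linarith
    apply ha
    have f1 : a.2.1 = 0 := by simpa using e1
    have f2 : a.1 = 0 := by
      rcases mul_eq_zero.1 e2 with h | h
      · exact absurd h hf.ne'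
      · simpa using h
    have f3 : a.2.2 = 0 := by
      rcases mul_eq_zero.1 e3 with h | h
      · exact absurd h hH.ne'
      · simpa using h
    exact Prod.ext f2 (Prod.ext f1 f3)

theorem fderiv_hmet {t S₀ : ℝ} (ht : 0 < t) (hS : 0 < S₀) (p : F k) (v a b : W k) :
    fderiv ℝ (hmet t S₀ p) 0 v a b =
      cf' t S₀ * inner ℝ p v.2.1 * (a.1 * b.1)
      + cf t S₀ * (a.1 * om v.2.2 b.2.2 + b.1 * om v.2.2 a.2.2)
      + cH' t S₀ * inner ℝ p v.2.1 * inner ℝ a.2.2 b.2.2 := by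
  have hc := contDiffAt_hmet (S₀ := S₀) ht p
  rw [fderiv_apply_apply (hc.differentiableAt (by simp))]
  exact ((J2.line (contDiffAt_apply_apply hc a b) v).uniq (hmet_line ht p v a b)).2.1

lemma om_add_left (u v w : ℂ) : om (u + v) w = om u w + om v w := by
  simp [om]; ring

lemma om_smul_left (c : ℝ) (v w : ℂ) : om (c • v) w = c * om v w := by
  simp [om]; ring

theorem d2_hmet {t S₀ : ℝ} (ht : 0 < t) (hS : 0 < S₀) (p : F k) (u v a b : W k) :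
    d2 (hmet t S₀ p) 0 u v a b =
      -(inner ℝ u.2.1 v.2.1 * inner ℝ a.2.1 b.2.1)
      + (cf'' t S₀ * inner ℝ p u.2.1 * inner ℝ p v.2.1
          - cf' t S₀ * S₀ * inner ℝ u.2.1 v.2.1) * (a.1 * b.1)
      + cf' t S₀ * inner ℝ p u.2.1 * (a.1 * om v.2.2 b.2.2 + b.1 * om v.2.2 a.2.2)
      + cf' t S₀ * inner ℝ p v.2.1 * (a.1 * om u.2.2 b.2.2 + b.1 * om u.2.2 a.2.2)
      + cf t S₀ * (om u.2.2 a.2.2 * om v.2.2 b.2.2 + om v.2.2 a.2.2 * om u.2.2 b.2.2)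
      + (cH'' t S₀ * inner ℝ p u.2.1 * inner ℝ p v.2.1
          - cH' t S₀ * S₀ * inner ℝ u.2.1 v.2.1) * inner ℝ a.2.2 b.2.2
      - 4 * cH t S₀ * inner ℝ u.2.2 v.2.2 * inner ℝ a.2.2 b.2.2 := by
  have hc := contDiffAt_hmet (S₀ := S₀) ht p
  rw [d2_eq hc]
  set Φ := fun y => hmet t S₀ p y a b with hΦ
  have hΦc : ContDiffAt ℝ ∞ Φ 0 := contDiffAt_apply_apply hc a b
  have hq := fun w : W k => ((J2.line hΦc w).uniq (hmet_line ht p w a b)).2.2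
  have hsymm : fderiv ℝ (fderiv ℝ Φ) 0 v u = fderiv ℝ (fderiv ℝ Φ) 0 u v := by
    have hs : IsSymmSndFDerivAt ℝ Φ 0 := hΦc.isSymmSndFDerivAt (by simp; exact two_le_infty)
    exact hs.eq v u
  have h1 := hq (u + v)
  have h2 := hq u
  have h3 := hq v
  have h4 : fderiv ℝ (fderiv ℝ Φ) 0 (u + v) (u + v) =
      fderiv ℝ (fderiv ℝ Φ) 0 u u + fderiv ℝ (fderiv ℝ Φ) 0 v v
        + 2 * fderiv ℝ (fderiv ℝ Φ) 0 u v := by
    simp only [map_add, ContinuousLinearMap.add_apply, hsymm]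
    ring
  rw [h1, h2, h3] at h4
  simp only [Prod.snd_add, Prod.fst_add, inner_add_left, inner_add_right, om_add_left] at h4
  rw [real_inner_comm u.2.1 v.2.1, real_inner_comm u.2.2 v.2.2] at h4
  linarith

end Pool.Agent.H86.Anco
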