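import Pool.Agent.H86.Anco.PhiKap

/-!
# Module CHARTS: `M K` is a compact smooth manifold modelled on `E K`
-/

open scoped Manifold ContDiff Bundle Topology

noncomputable section

namespace Pool.Agent.H86.Anco

variable {K : ℕ}

/-- The chart number `i`: the basic chart `kap` composed with the symmetry `sym i`. -/
def chart (i : Bool × Bool) : OpenPartialHomeomorph (M K) (E K) where
  toFun p := kap (sym i p.1)
  invFun y := ⟨sym i (Phi y), sym_mem i (Phi_mem y)⟩
  source := {p | -1 < pd (sym i p.1) ∧ -1 < ps (sym i p.1)}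
  target := Set.univ
  map_source' := fun _ _ => Set.mem_univ _
  map_target' := by
    intro y _
    change -1 < pd (sym i (sym i (Phi y))) ∧ -1 < ps (sym i (sym i (Phi y)))
    rw [sym_sym]
    exact ⟨pd_Phi y, ps_Phi y⟩
  left_inv' := by
    intro p hp
    apply Subtype.ext
    change sym i (Phi (kap (sym i p.1))) = p.1
    rw [Phi_kap (sym_mem i p.2) hp.1 hp.2, sym_sym]
  right_inv' := by
    intro y _
    change kap (sym i (sym i (Phi y))) = y
    rw [sym_sym, kap_Phi]
  open_source := by
    refine IsOpen.inter ?_ ?_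
    · exact isOpen_lt continuous_const
        (pd.continuous.comp ((sym i).continuous.comp continuous_subtype_val))
    · exact isOpen_lt continuous_const
        (ps.continuous.comp ((sym i).continuous.comp continuous_subtype_val))
  open_target := isOpen_univ
  continuousOn_toFun := by
    refine contDiffOn_kap.continuousOn.comp
      ((sym i).continuous.comp continuous_subtype_val).continuousOn ?_
    intro p hp
    exact hp
  continuousOn_invFun := by
    refine Continuous.continuousOn ?_
    exact Continuous.subtype_mk ((sym i).continuous.comp contDiff_Phi.continuous) _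

instance instChartedSpace : ChartedSpace (E K) (M K) where
  atlas := Set.range chart
  chartAt p := chart (idx p.1)
  mem_chart_source p := ⟨pd_sym_idx p.1, ps_sym_idx p.1⟩
  chart_mem_atlas _ := Set.mem_range_self _

instance instIsManifold : IsManifold 𝓘(ℝ, E K) ∞ (M K) := by
  refine isManifold_of_contDiffOn 𝓘(ℝ, E K) ∞ (M K) ?_
  rintro e e' ⟨i, rfl⟩ ⟨j, rfl⟩
  have h1 : ContDiff ℝ ∞ (fun y : E K => sym j (sym i (Phi y))) :=
    (sym j).contDiff.comp ((sym i).contDiff.comp contDiff_Phi)
  refine (contDiffOn_kap.comp h1.contDiffOn ?_).congr ?_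
  · rintro y ⟨hy, -⟩
    exact hy.2
  · intro y _
    rfl

instance instCompactSpace : CompactSpace (M K) := isCompact_iff_compactSpace.mp isCompact_carrier

lemma extChartAt_target (x : M K) : (extChartAt 𝓘(ℝ, E K) x).target = Set.univ := by
  rw [_root_.extChartAt_target]
  apply Set.eq_univ_of_forall
  intro y
  exact ⟨Set.mem_univ _, Set.mem_range_self _⟩

lemma coe_extChartAt_symm (x : M K) (y : E K) :
    (((extChartAt 𝓘(ℝ, E K) x).symm y : M K) : V K) = sym (idx x.1) (Phi y) := by
  rfl

/-- The inclusion into the ambient space is smooth. -/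
lemma contMDiff_incl : ContMDiff 𝓘(ℝ, E K) 𝓘(ℝ, V K) ∞ (Subtype.val : M K → V K) := by
  rw [contMDiff_iff]
  refine ⟨continuous_subtype_val, fun x y => ?_⟩
  have h1 : ContDiff ℝ ∞ (fun y : E K => sym (idx x.1) (Phi y)) :=
    (sym (idx x.1)).contDiff.comp contDiff_Phi
  refine h1.contDiffOn.congr ?_
  intro z _
  rfl

/-- The inclusion into the ambient space is an immersion. -/
lemma mfderiv_incl_injective (x : M K) :
    Function.Injective (mfderiv 𝓘(ℝ, E K) 𝓘(ℝ, V K) (Subtype.val : M K → V K) x) := by
  have hd : MDifferentiableAt 𝓘(ℝ, E K) 𝓘(ℝ, V K) (Subtype.val : M K → V K) x :=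
    (contMDiff_incl x).mdifferentiableAt (by simp)
  have h1 : mfderiv 𝓘(ℝ, E K) 𝓘(ℝ, V K) (Subtype.val : M K → V K) x =
      (sym (idx x.1)).comp (fderiv ℝ Phi (extChartAt 𝓘(ℝ, E K) x x)) := by
    refine hd.mfderiv.trans ?_
    have h2 : writtenInExtChartAt 𝓘(ℝ, E K) 𝓘(ℝ, V K) x (Subtype.val : M K → V K) =
        fun y => sym (idx x.1) (Phi y) := rfl
    have h3 := (contDiff_Phi (K := K)).differentiable (by simp) (extChartAt 𝓘(ℝ, E K) x x)
    have h4 : fderivWithin ℝ (writtenInExtChartAt 𝓘(ℝ, E K) 𝓘(ℝ, V K) x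
        (Subtype.val : M K → V K)) (Set.range 𝓘(ℝ, E K)) (extChartAt 𝓘(ℝ, E K) x x) =
        (sym (idx x.1)).comp (fderiv ℝ Phi (extChartAt 𝓘(ℝ, E K) x x)) := by
      rw [h2, ModelWithCorners.range_eq_univ, fderivWithin_univ]
      exact ((sym (idx x.1)).hasFDerivAt.comp _ h3.hasFDerivAt).fderiv
    exact h4
  rw [h1]
  have h4 : Function.Injective (sym (idx x.1) : V K → V K) :=
    Function.Involutive.injective fun p => sym_sym (idx x.1) p
  exact h4.comp (fderiv_Phi_injective _)

/-- `E K` has dimension `K + 4`. -/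
lemma finrank_E : Module.finrank ℝ (E K) = K + 4 := by
  rw [Module.finrank_prod, Module.finrank_prod, Complex.finrank_real_complex,
    finrank_euclideanSpace_fin]
  ring

end Pool.Agent.H86.Anco
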