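import Pool.Agent.H86.Anco.Local

/-!
# Module CLOSED: `CurvOpGE g · c` is a closed condition

For fixed `X, Y` the functions `y ↦ curvForm g y X Y` and `y ↦ bivNormSq g y X Y` are continuous at
`x`, because `g` and `y ↦ chr g y a b` are smooth near `x` (`IsMetricAt.contDiffAt_chr`), and
`chr g y a (v y)` is continuous in `y` (`chr g y a` is linear, so it is a combination of the
`chr g y a (e k)` for a basis `e`, with coefficients the coordinates of `v y`).
-/

open scoped Manifold ContDiff Bundle Topology

noncomputable section

namespace Pool.Agent.H86.Anco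

variable {E : Type*} [NormedAddCommGroup E] [NormedSpace ℝ E] [FiniteDimensional ℝ E]

/-- `chr g y a` as a linear map. -/
def chrLin (g : E → E →L[ℝ] E →L[ℝ] ℝ) (y a : E) : E →ₗ[ℝ] E where
  toFun v := chr g y a v
  map_add' u v := by
    have h : chr1 g y a (u + v) = chr1 g y a u + chr1 g y a v := by
      ext c
      rw [ContinuousLinearMap.add_apply, chr1_apply, chr1_apply, chr1_apply]
      simp only [map_add, ContinuousLinearMap.add_apply]
      ring
    simp only [chr, h, map_add]
  map_smul' r v := by
    have h : chr1 g y a (r • v) = r • chr1 g y a v := by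
      ext c
      rw [ContinuousLinearMap.smul_apply, chr1_apply, chr1_apply]
      simp only [map_smul, ContinuousLinearMap.smul_apply, smul_eq_mul]
      ring
    simp only [chr, h, map_smul, RingHom.id_apply]

lemma IsMetricAt.continuousAt_chr {g : E → E →L[ℝ] E →L[ℝ] ℝ} {x : E} (h : IsMetricAt g x)
    (a b : E) : ContinuousAt (fun y => chr g y a b) x := (h.contDiffAt_chr a b).continuousAt

lemma IsMetricAt.continuousAt_chr' {g : E → E →L[ℝ] E →L[ℝ] ℝ} {x : E} (h : IsMetricAt g x)
    (a : E) {v : E → E} (hv : ContinuousAt v x) :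
    ContinuousAt (fun y => chr g y a (v y)) x := by
  have e : (fun y => chr g y a (v y)) = fun y => ∑ k, (Module.finBasis ℝ E).coord k (v y) •
      chr g y a (Module.finBasis ℝ E k) := by
    funext y
    have h1 : chrLin g y a (v y) = ∑ k, (Module.finBasis ℝ E).coord k (v y) •
        chrLin g y a (Module.finBasis ℝ E k) := by
      conv_lhs => rw [← (Module.finBasis ℝ E).sum_repr (v y)]
      rw [map_sum]
      refine Finset.sum_congr rfl (fun k _ => ?_)
      rw [map_smul]
      rfl
    exact h1
  rw [e]
  refine tendsto_finsetSum _ (fun k _ => ?_)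
  refine ContinuousAt.smul ?_ (h.continuousAt_chr _ _)
  exact (LinearMap.continuous_of_finiteDimensional _).continuousAt.comp hv

lemma IsMetricAt.continuousAt_riem {g : E → E →L[ℝ] E →L[ℝ] ℝ} {x : E} (h : IsMetricAt g x)
    (a b c : E) : ContinuousAt (fun y => riem g y a b c) x := by
  have hd : ∀ a b c : E, ContinuousAt (fun y => fderiv ℝ (fun z => chr g z b c) y a) x := by
    intro a b c
    have h1 : ContDiffAt ℝ 0 (fderiv ℝ (fun z => chr g z b c)) x :=
      (h.contDiffAt_chr b c).fderiv_right (by simp)
    exact h1.continuousAt.clm_apply continuousAt_const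
  unfold riem
  exact (((hd a b c).sub (hd b a c)).add
    (h.continuousAt_chr' a (h.continuousAt_chr b c))).sub
    (h.continuousAt_chr' b (h.continuousAt_chr a c))

theorem CurvOpGE.of_mem_closure {g : E → E →L[ℝ] E →L[ℝ] ℝ} {x : E} (h : IsMetricAt g x) {c : ℝ}
    (hx : x ∈ closure {y | CurvOpGE g y c}) : CurvOpGE g x c := by
  intro N X Y
  have hg : ContinuousAt g x := h.smooth.continuousAt
  have hgab : ∀ u v : E, ContinuousAt (fun y => g y u v) x := fun u v =>
    (hg.clm_apply continuousAt_const).clm_apply continuousAt_const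
  have h1 : ContinuousAt (fun y => c * bivNormSq g y X Y) x := by
    unfold bivNormSq
    refine continuousAt_const.mul ?_
    refine tendsto_finsetSum _ (fun i _ => tendsto_finsetSum _ (fun j _ => ?_))
    exact ((hgab _ _).mul (hgab _ _)).sub ((hgab _ _).mul (hgab _ _))
  have h2 : ContinuousAt (fun y => curvForm g y X Y) x := by
    unfold curvForm
    refine tendsto_finsetSum _ (fun i _ => tendsto_finsetSum _ (fun j _ => ?_))
    exact (hg.clm_apply (h.continuousAt_riem _ _ _)).clm_apply continuousAt_const
  exact ContinuousWithinAt.closure_le hx h1.continuousWithinAt h2.continuousWithinAt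
    (fun y hy => hy N X Y)

end Pool.Agent.H86.Anco
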