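import Mathlib

/-!
# Almost nonnegative curvature operator: definitions

Riemannian metrics are Mathlib's `Bundle.ContMDiffRiemannianMetric` on the tangent bundle of a
smooth manifold modelled on a finite dimensional real normed space `E`.  The curvature tensor is
defined in charts by the classical formula.
-/

open scoped Manifold ContDiff Bundle Topology

noncomputable section

namespace Pool.Agent.H86.Anco

section Local

variable {E : Type*} [NormedAddCommGroup E] [NormedSpace ℝ E]

/-- Christoffel symbols of the first kind of a field `g` of bilinear forms on `E`: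
`chr1 g x a b c = (∂_a g(b,c) + ∂_b g(a,c) - ∂_c g(a,b)) / 2` at `x`. -/
def chr1 (g : E → E →L[ℝ] E →L[ℝ] ℝ) (x a b : E) : E →L[ℝ] ℝ :=
  (1 / 2 : ℝ) • (fderiv ℝ g x a b + fderiv ℝ g x b a - ((fderiv ℝ g x).flip a).flip b)

/-- Christoffel symbols of the second kind: the vector `∇_a b` at `x` for constant `a`, `b`,
i.e. the vector with `g x (chr g x a b) c = chr1 g x a b c` for all `c`. -/
def chr (g : E → E →L[ℝ] E →L[ℝ] ℝ) (x a b : E) : E :=
  (g x).inverse (chr1 g x a b)

/-- The curvature tensor `R(a,b)c` at `x` of the metric `g`. -/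
def riem (g : E → E →L[ℝ] E →L[ℝ] ℝ) (x a b c : E) : E :=
  fderiv ℝ (fun y => chr g y b c) x a - fderiv ℝ (fun y => chr g y a c) x b
    + chr g x a (chr g x b c) - chr g x b (chr g x a c)

/-- The quadratic form `⟨𝓡 β, β⟩` of the curvature operator on the bivector
`β = ∑ i, X i ∧ Y i`. -/
def curvForm (g : E → E →L[ℝ] E →L[ℝ] ℝ) (x : E) {N : ℕ} (X Y : Fin N → E) : ℝ :=
  ∑ i, ∑ j, g x (riem g x (X i) (Y i) (Y j)) (X j)

/-- The squared norm of the bivector `∑ i, X i ∧ Y i`. -/
def bivNormSq (g : E → E →L[ℝ] E →L[ℝ] ℝ) (x : E) {N : ℕ} (X Y : Fin N → E) : ℝ :=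
  ∑ i, ∑ j, (g x (X i) (X j) * g x (Y i) (Y j) - g x (X i) (Y j) * g x (Y i) (X j))

/-- All eigenvalues of the curvature operator of `g` at `x` are at least `c`. -/
def CurvOpGE (g : E → E →L[ℝ] E →L[ℝ] ℝ) (x : E) (c : ℝ) : Prop :=
  ∀ (N : ℕ) (X Y : Fin N → E), c * bivNormSq g x X Y ≤ curvForm g x X Y

end Local

section Manifold

variable {E : Type*} [NormedAddCommGroup E] [NormedSpace ℝ E]
  {M : Type*} [TopologicalSpace M] [ChartedSpace E M] [IsManifold 𝓘(ℝ, E) ∞ M]

variable (E M) in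
/-- Smooth Riemannian metrics on the manifold `M` modelled on `E`. -/
abbrev RMetric : Type _ :=
  Bundle.ContMDiffRiemannianMetric 𝓘(ℝ, E) ∞ E (fun x : M => TangentSpace 𝓘(ℝ, E) x)

/-- The metric `g` written in the preferred chart around `x`. -/
def inChart (g : RMetric E M) (x : M) (y : E) : E →L[ℝ] E →L[ℝ] ℝ :=
  let B : E →L[ℝ] E →L[ℝ] ℝ := g.inner ((extChartAt 𝓘(ℝ, E) x).symm y)
  let D : E →L[ℝ] E := mfderiv 𝓘(ℝ, E) 𝓘(ℝ, E) (extChartAt 𝓘(ℝ, E) x).symm y
  B.bilinearComp D D

/-- All eigenvalues of the curvature operator of `(M, g)`, at every point, are at least `c`. -/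
def HasCurvOpGE (g : RMetric E M) (c : ℝ) : Prop :=
  ∀ x : M, CurvOpGE (inChart g x) (extChartAt 𝓘(ℝ, E) x x) c

/-- The diameter of `(M, g)` for the Riemannian distance (infimum of the lengths of `C^1`
paths). -/
def riemDiam (g : RMetric E M) : ENNReal :=
  letI : Bundle.RiemannianBundle (fun x : M => TangentSpace 𝓘(ℝ, E) x) := ⟨g.toRiemannianMetric⟩
  ⨆ (x : M) (y : M), Manifold.riemannianEDist 𝓘(ℝ, E) x y

variable (E M) in
/-- `M` admits almost nonnegative curvature operator: for every `ε > 0` there is a smooth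
Riemannian metric `g` of finite diameter all of whose curvature operator eigenvalues `μ`
satisfy `μ * diam ^ 2 > -ε` (uniformly: they are at least `c` with `c * diam ^ 2 > -ε`). -/
def AdmitsANCO : Prop :=
  ∀ ε : ℝ, 0 < ε → ∃ (g : RMetric E M) (c : ℝ), HasCurvOpGE g c ∧ riemDiam g ≠ ⊤ ∧
    -ε < c * (riemDiam g).toReal ^ 2

end Manifold

end Pool.Agent.H86.Anco
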