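import Pool.Agent.H86.Anco.Defs

/-!
# Module DIAM: finiteness and monotonicity of the Riemannian diameter

`riemDiam_mono`: if `g.inner x v v ≤ g'.inner x v v` for all tangent vectors then every `C^1` path
is at most as long for `g` as for `g'` (`riemannianEDist` is an infimum over paths of a lower
integral of the norm of the derivative; the norm for the instance `⟨g.toRiemannianMetric⟩` is
`√(g.inner x v v)`).

`riemDiam_ne_top`: `M` compact and connected.  By `eventually_riemannianEDist_lt`
(`Mathlib/Geometry/Manifold/Riemannian/Basic.lean`; needs the instance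
`IsContinuousRiemannianBundle`, which `ContMDiffRiemannianMetric` provides) every point `x` has a
neighbourhood of points at distance `< 1`.  So the relation `riemannianEDist x y < ⊤` is an
equivalence relation with open classes, hence total; cover `M` by finitely many such
neighbourhoods of `x_1, …, x_m` and bound by `max riemannianEDist x_i x_j + 2`.
(Or use `EMetricSpace.ofRiemannianMetric`.)
-/

open scoped Manifold ContDiff Bundle Topology

noncomputable section

namespace Pool.Agent.H86.Anco

variable {E : Type*} [NormedAddCommGroup E] [NormedSpace ℝ E] [FiniteDimensional ℝ E]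
  {M : Type*} [TopologicalSpace M] [ChartedSpace E M] [IsManifold 𝓘(ℝ, E) ∞ M]

/-- The extended norm on the tangent spaces defined by `g`. -/
def nrm (g : RMetric E M) (x : M) (v : TangentSpace 𝓘(ℝ, E) x) : ENNReal :=
  letI : Bundle.RiemannianBundle (fun x : M => TangentSpace 𝓘(ℝ, E) x) := ⟨g.toRiemannianMetric⟩
  ‖v‖ₑ

theorem nrm_eq (g : RMetric E M) (x : M) (v : TangentSpace 𝓘(ℝ, E) x) :
    nrm g x v = ENNReal.ofReal (√(g.inner x v v)) := by
  letI : Bundle.RiemannianBundle (fun x : M => TangentSpace 𝓘(ℝ, E) x) := ⟨g.toRiemannianMetric⟩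
  have h1 : nrm g x v = ‖v‖ₑ := rfl
  have h2 : ‖v‖ₑ = ENNReal.ofReal ‖v‖ := (ofReal_norm_eq_enorm v).symm
  have h3 : ‖v‖ = √(g.inner x v v) := by
    rw [norm_eq_sqrt_real_inner]
    rfl
  rw [h1, h2, h3]

theorem nrm_mono (g g' : RMetric E M)
    (h : ∀ (x : M) (v : TangentSpace 𝓘(ℝ, E) x), g.inner x v v ≤ g'.inner x v v)
    (x : M) (v : TangentSpace 𝓘(ℝ, E) x) : nrm g x v ≤ nrm g' x v := by
  rw [nrm_eq, nrm_eq]
  exact ENNReal.ofReal_le_ofReal (Real.sqrt_le_sqrt (h x v))

theorem riemDiam_mono (g g' : RMetric E M)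
    (h : ∀ (x : M) (v : TangentSpace 𝓘(ℝ, E) x), g.inner x v v ≤ g'.inner x v v) :
    riemDiam g ≤ riemDiam g' := by
  unfold riemDiam
  refine iSup_mono fun x => iSup_mono fun y => ?_
  simp only [Manifold.riemannianEDist]
  refine iInf_mono fun γ => iInf_mono fun _ => MeasureTheory.lintegral_mono fun t => ?_
  exact nrm_mono g g' h _ _

/-- On a compact connected extended pseudo metric space the distances are bounded. -/
theorem iSup_edist_ne_top {X : Type*} [PseudoEMetricSpace X] [CompactSpace X] [ConnectedSpace X] :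
    (⨆ (x : X) (y : X), edist x y) ≠ ⊤ := by
  have hfin : ∀ x y : X, edist x y ≠ ⊤ := by
    intro x
    have hopen : IsOpen {y : X | edist x y ≠ ⊤} := by
      rw [isOpen_iff_mem_nhds]
      intro y hy
      filter_upwards [Metric.eball_mem_nhds y (ε := 1) (by norm_num)] with z hz
      intro hc
      apply hy
      rw [Metric.mem_eball] at hz
      have h1 : edist x z ≤ edist x y + edist y z := edist_triangle _ _ _
      rw [hc, top_le_iff, ENNReal.add_eq_top] at h1
      rcases h1 with h1 | h1
      · exact h1
      · rw [edist_comm] at h1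
        rw [h1] at hz
        exact absurd hz (by simp)
    have hclosed : IsClosed {y : X | edist x y ≠ ⊤} := by
      rw [← isOpen_compl_iff, isOpen_iff_mem_nhds]
      intro y hy
      simp only [Set.mem_compl_iff, Set.mem_setOf_eq, not_not] at hy
      filter_upwards [Metric.eball_mem_nhds y (ε := 1) (by norm_num)] with z hz
      simp only [Set.mem_compl_iff, Set.mem_setOf_eq, not_not]
      rw [Metric.mem_eball] at hz
      have h1 : edist x y ≤ edist x z + edist z y := edist_triangle _ _ _
      rw [hy, top_le_iff, ENNReal.add_eq_top] at h1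
      rcases h1 with h1 | h1
      · exact h1
      · rw [h1] at hz
        exact absurd hz (by simp)
    have huniv := IsClopen.eq_univ ⟨hclosed, hopen⟩ ⟨x, by simp⟩
    intro y
    have : y ∈ {y : X | edist x y ≠ ⊤} := by rw [huniv]; exact Set.mem_univ y
    exact this
  have hne : (Set.univ : Set (X × X)).Nonempty := by
    have hX : Nonempty X := ConnectedSpace.toNonempty
    exact ⟨(hX.some, hX.some), Set.mem_univ _⟩
  obtain ⟨p, -, hp⟩ := isCompact_univ.exists_isMaxOn hne
    (f := fun p : X × X => edist p.1 p.2) continuous_edist.continuousOn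
  have hle : (⨆ (x : X) (y : X), edist x y) ≤ edist p.1 p.2 :=
    iSup_le fun x => iSup_le fun y => hp (Set.mem_univ (x, y))
  exact fun hc => hfin p.1 p.2 (top_le_iff.1 (hc ▸ hle))

theorem riemDiam_ne_top [T2Space M] [CompactSpace M] [ConnectedSpace M] (g : RMetric E M) :
    riemDiam g ≠ ⊤ := by
  let _ : Bundle.RiemannianBundle (fun x : M => TangentSpace 𝓘(ℝ, E) x) := ⟨g.toRiemannianMetric⟩
  have _ : IsContinuousRiemannianBundle E (fun x : M => TangentSpace 𝓘(ℝ, E) x) :=
    ⟨⟨g.inner, g.contMDiff.continuous, fun _ _ _ => rfl⟩⟩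
  have _ : IsManifold 𝓘(ℝ, E) 1 M := IsManifold.of_le (m := 1) (n := ∞) (by exact_mod_cast le_top)
  let _ : PseudoEMetricSpace M := PseudoEMetricSpace.ofRiemannianMetric 𝓘(ℝ, E) M
  exact iSup_edist_ne_top (X := M)

end Pool.Agent.H86.Anco
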