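import Pool.Agent.H86.Anco.Defs

/-!
# Modules LOCAL-A, LOCAL-B, LOCAL-C: calculus with the curvature tensor in a vector space

The basic facts about `chr1`, `chr` at a point `x` where `g` is differentiable, symmetric nearby and
positive definite at `x`.
-/

open scoped Manifold ContDiff Bundle Topology

noncomputable section

namespace Pool.Agent.H86.Anco

variable {E : Type*} [NormedAddCommGroup E] [NormedSpace ℝ E] [FiniteDimensional ℝ E]
  {E' : Type*} [NormedAddCommGroup E'] [NormedSpace ℝ E'] [FiniteDimensional ℝ E']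

/-- A field of bilinear forms which is smooth near `x`, symmetric near `x` and positive definite
at `x`.  (Smoothness is required near `x`: `ContDiffAt ℝ ∞ g x` alone does not imply it.) -/
structure IsMetricAt (g : E → E →L[ℝ] E →L[ℝ] ℝ) (x : E) : Prop where
  smooth_near : ∀ᶠ y in 𝓝 x, ContDiffAt ℝ ∞ g y
  symm : ∀ᶠ y in 𝓝 x, ∀ a b, g y a b = g y b a
  pos : ∀ a, a ≠ 0 → 0 < g x a a

lemma IsMetricAt.smooth {g : E → E →L[ℝ] E →L[ℝ] ℝ} {x : E} (h : IsMetricAt g x) :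
    ContDiffAt ℝ ∞ g x := h.smooth_near.self_of_nhds

lemma chr1_apply (g : E → E →L[ℝ] E →L[ℝ] ℝ) (x a b c : E) :
    chr1 g x a b c = (fderiv ℝ g x a b c + fderiv ℝ g x b a c - fderiv ℝ g x c a b) / 2 := by
  simp only [chr1, ContinuousLinearMap.smul_apply, ContinuousLinearMap.sub_apply,
    ContinuousLinearMap.add_apply, ContinuousLinearMap.flip_apply, smul_eq_mul]
  ring

/-- A positive definite form is invertible. -/
lemma isInvertible_of_pos (B : E →L[ℝ] E →L[ℝ] ℝ) (hpos : ∀ a, a ≠ 0 → 0 < B a a) :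
    B.IsInvertible := by
  have hinj : Function.Injective (B : E →ₗ[ℝ] (E →L[ℝ] ℝ)) := by
    rw [← LinearMap.ker_eq_bot, LinearMap.ker_eq_bot']
    intro a ha
    by_contra hne
    have h1 := hpos a hne
    have h2 : B a = 0 := ha
    rw [h2] at h1
    simp at h1
  have hfr : Module.finrank ℝ E = Module.finrank ℝ (E →L[ℝ] ℝ) := by
    rw [← (LinearMap.toContinuousLinearMap (𝕜 := ℝ) (E := E) (F' := ℝ)).finrank_eq]
    exact (Subspace.dual_finrank_eq (K := ℝ) (V := E)).symm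
  let e : E ≃ₗ[ℝ] (E →L[ℝ] ℝ) := LinearEquiv.ofInjectiveOfFinrankEq
    (B : E →ₗ[ℝ] (E →L[ℝ] ℝ)) hinj hfr
  refine ⟨e.toContinuousLinearEquiv, ?_⟩
  ext a b
  rfl

/-- A positive definite form is invertible, so the vector `chr g x a b` represents
`chr1 g x a b`. -/
lemma apply_chr {g : E → E →L[ℝ] E →L[ℝ] ℝ} {x : E} (hpos : ∀ a, a ≠ 0 → 0 < g x a a)
    (a b c : E) : g x (chr g x a b) c = chr1 g x a b c := by
  unfold chr
  rw [(isInvertible_of_pos (g x) hpos).self_apply_inverse]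

/-- A positive definite form is bounded below. -/
lemma exists_lower (B : E →L[ℝ] E →L[ℝ] ℝ) (hpos : ∀ a, a ≠ 0 → 0 < B a a) :
    ∃ c : ℝ, 0 < c ∧ ∀ a, c * ‖a‖ ^ 2 ≤ B a a := by
  have hprop : ProperSpace E := FiniteDimensional.proper ℝ E
  by_cases hne : (Metric.sphere (0 : E) 1).Nonempty
  · have hcont : ContinuousOn (fun a => B a a) (Metric.sphere (0 : E) 1) := by
      apply Continuous.continuousOn
      fun_prop
    obtain ⟨u, hu, hmin⟩ := (isCompact_sphere (0 : E) 1).exists_isMinOn hne hcont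
    have hu1 : ‖u‖ = 1 := by simpa using hu
    have hu0 : u ≠ 0 := by
      rintro rfl
      simp at hu1
    refine ⟨B u u, hpos u hu0, fun a => ?_⟩
    by_cases ha : a = 0
    · subst ha
      simp
    · have hna : ‖a‖ ≠ 0 := norm_ne_zero_iff.2 ha
      have hmem : (‖a‖⁻¹ • a) ∈ Metric.sphere (0 : E) 1 := by
        rw [mem_sphere_zero_iff_norm, norm_smul, norm_inv, norm_norm]
        exact inv_mul_cancel₀ hna
      have h1 : B u u ≤ B (‖a‖⁻¹ • a) (‖a‖⁻¹ • a) := hmin hmem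
      have h2 : B (‖a‖⁻¹ • a) (‖a‖⁻¹ • a) = ‖a‖⁻¹ * (‖a‖⁻¹ * B a a) := by
        simp only [map_smul, ContinuousLinearMap.smul_apply, smul_eq_mul]
      rw [h2] at h1
      have h3 : B u u * ‖a‖ ^ 2 ≤ (‖a‖⁻¹ * (‖a‖⁻¹ * B a a)) * ‖a‖ ^ 2 :=
        mul_le_mul_of_nonneg_right h1 (by positivity)
      have h4 : (‖a‖⁻¹ * (‖a‖⁻¹ * B a a)) * ‖a‖ ^ 2 = B a a := by
        field_simp
      rwa [h4] at h3
  · refine ⟨1, one_pos, fun a => ?_⟩
    have ha : a = 0 := by
      by_contra ha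
      apply hne
      have hna : ‖a‖ ≠ 0 := norm_ne_zero_iff.2 ha
      refine ⟨‖a‖⁻¹ • a, ?_⟩
      rw [mem_sphere_zero_iff_norm, norm_smul, norm_inv, norm_norm]
      exact inv_mul_cancel₀ hna
    subst ha
    simp

set_option maxSynthPendingDepth 3 in
/-- Positive definiteness is an open condition. -/
lemma eventually_pos_of_continuousAt {g : E → E →L[ℝ] E →L[ℝ] ℝ} {x : E} (hc : ContinuousAt g x)
    (hpos : ∀ a, a ≠ 0 → 0 < g x a a) : ∀ᶠ y in 𝓝 x, ∀ a, a ≠ 0 → 0 < g y a a := by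
  obtain ⟨c, hc0, hlow⟩ := exists_lower (g x) hpos
  have h0 : Filter.Tendsto (fun y => ‖g y - g x‖) (𝓝 x) (𝓝 0) := by
    have h00 := (ContinuousAt.sub hc continuousAt_const).norm (f := fun y => g y - g x)
    simpa [ContinuousAt] using h00
  have h1 : ∀ᶠ y in 𝓝 x, ‖g y - g x‖ < c := h0.eventually_lt_const hc0
  filter_upwards [h1] with y hy a ha
  have hna : 0 < ‖a‖ := norm_pos_iff.2 ha
  have h2 : |(g y - g x) a a| ≤ ‖g y - g x‖ * ‖a‖ * ‖a‖ := by
    have := (g y - g x).le_opNorm₂ a a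
    rwa [Real.norm_eq_abs] at this
  have h3 : (g y - g x) a a = g y a a - g x a a := by
    simp
  rw [h3] at h2
  have h4 := (abs_le.1 h2).1
  have h5 := hlow a
  have h6 : ‖g y - g x‖ * ‖a‖ * ‖a‖ < c * ‖a‖ ^ 2 := by
    have : ‖g y - g x‖ * (‖a‖ * ‖a‖) < c * (‖a‖ * ‖a‖) :=
      mul_lt_mul_of_pos_right hy (by positivity)
    nlinarith
  linarith

/-- Positive definiteness is an open condition. -/
lemma IsMetricAt.eventually_pos {g : E → E →L[ℝ] E →L[ℝ] ℝ} {x : E} (h : IsMetricAt g x) :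
    ∀ᶠ y in 𝓝 x, ∀ a, a ≠ 0 → 0 < g y a a :=
  eventually_pos_of_continuousAt h.smooth.continuousAt h.pos

lemma IsMetricAt.eventually {g : E → E →L[ℝ] E →L[ℝ] ℝ} {x : E} (h : IsMetricAt g x) :
    ∀ᶠ y in 𝓝 x, IsMetricAt g y := by
  filter_upwards [eventually_eventually_nhds.2 h.smooth_near, eventually_eventually_nhds.2 h.symm,
    h.eventually_pos] with y h1 h2 h3
  exact ⟨h1, h2, h3⟩

set_option maxSynthPendingDepth 3 in
lemma contDiffAt_chr1 {g : E → E →L[ℝ] E →L[ℝ] ℝ} {x : E} (h : ContDiffAt ℝ ∞ g x)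
    (a b : E) : ContDiffAt ℝ ∞ (fun y => chr1 g y a b) x := by
  have hfd : ContDiffAt ℝ ∞ (fderiv ℝ g) x := h.fderiv_right (by exact_mod_cast le_top)
  have h1 : ContDiffAt ℝ ∞ (fun y => fderiv ℝ g y a b) x :=
    (hfd.clm_apply contDiffAt_const).clm_apply contDiffAt_const
  have h2 : ContDiffAt ℝ ∞ (fun y => fderiv ℝ g y b a) x :=
    (hfd.clm_apply contDiffAt_const).clm_apply contDiffAt_const
  have h3 : ContDiffAt ℝ ∞ (fun y => (fderiv ℝ g y).flip) x :=
    ((ContinuousLinearMap.flipₗᵢ ℝ E E (E →L[ℝ] ℝ)).contDiff.contDiffAt).comp x hfd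
  have h4 : ContDiffAt ℝ ∞ (fun y => (fderiv ℝ g y).flip a) x := h3.clm_apply contDiffAt_const
  have h5 : ContDiffAt ℝ ∞ (fun y => ((fderiv ℝ g y).flip a).flip) x :=
    ((ContinuousLinearMap.flipₗᵢ ℝ E E ℝ).contDiff.contDiffAt).comp x h4
  have h6 : ContDiffAt ℝ ∞ (fun y => ((fderiv ℝ g y).flip a).flip b) x :=
    h5.clm_apply contDiffAt_const
  exact ((h1.add h2).sub h6).const_smul (1 / 2 : ℝ)

lemma contDiffAt_chr' {g : E → E →L[ℝ] E →L[ℝ] ℝ} {x : E} (h : ContDiffAt ℝ ∞ g x)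
    (hpos : ∀ a, a ≠ 0 → 0 < g x a a) (a b : E) : ContDiffAt ℝ ∞ (fun y => chr g y a b) x := by
  have hinv : ContDiffAt ℝ ∞ (fun y => (g y).inverse) x :=
    ((isInvertible_of_pos (g x) hpos).contDiffAt_map_inverse).comp x h
  exact hinv.clm_apply (contDiffAt_chr1 h a b)

lemma IsMetricAt.contDiffAt_chr {g : E → E →L[ℝ] E →L[ℝ] ℝ} {x : E} (h : IsMetricAt g x)
    (a b : E) : ContDiffAt ℝ ∞ (fun y => chr g y a b) x :=
  contDiffAt_chr' h.smooth h.pos a b

lemma chr_congr {g g' : E → E →L[ℝ] E →L[ℝ] ℝ} {x : E} (h : g =ᶠ[𝓝 x] g') (a b : E) :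
    chr g x a b = chr g' x a b := by
  unfold chr chr1
  rw [h.fderiv_eq, h.eq_of_nhds]

lemma chr_eventuallyEq {g g' : E → E →L[ℝ] E →L[ℝ] ℝ} {x : E} (h : g =ᶠ[𝓝 x] g') (a b : E) :
    (fun y => chr g y a b) =ᶠ[𝓝 x] fun y => chr g' y a b := by
  filter_upwards [eventually_eventually_nhds.2 h] with y hy
  exact chr_congr hy a b

lemma riem_congr {g g' : E → E →L[ℝ] E →L[ℝ] ℝ} {x : E} (h : g =ᶠ[𝓝 x] g') (a b c : E) :
    riem g x a b c = riem g' x a b c := by
  unfold riem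
  rw [(chr_eventuallyEq h b c).fderiv_eq, (chr_eventuallyEq h a c).fderiv_eq, chr_congr h b c,
    chr_congr h a c, chr_congr h a, chr_congr h b]

/-- Everything depends only on the germ of `g`. -/
lemma CurvOpGE.congr {g g' : E → E →L[ℝ] E →L[ℝ] ℝ} {x : E} (h : g =ᶠ[𝓝 x] g') {c : ℝ}
    (hg : CurvOpGE g x c) : CurvOpGE g' x c := by
  intro N X Y
  have h1 := hg N X Y
  have h2 : curvForm g x X Y = curvForm g' x X Y := by
    unfold curvForm
    refine Finset.sum_congr rfl fun i _ => Finset.sum_congr rfl fun j _ => ?_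
    rw [riem_congr h, h.eq_of_nhds]
  have h3 : bivNormSq g x X Y = bivNormSq g' x X Y := by
    unfold bivNormSq
    rw [h.eq_of_nhds]
  rwa [h2, h3] at h1

end Pool.Agent.H86.Anco
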