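import Pool.Agent.H86.Anco.Center

/-!
# Module MOVED-A: stereographic coordinates of a round sphere centred at a given point

`exists_sphere_frame`: let `e = (x₀, s₀, S₀)` be a unit vector of the `(K+2)`-dimensional Euclidean
space `ℝ^K × ℝ × ℝ`.  Its orthogonal complement has dimension `K + 1`; take a linear isometry
`j = (jx, js, jS)` of `ℝ^(K+1)` onto it and `p` with `jS ξ = ⟪p, ξ⟫`.
`‖p‖² = 1 - S₀²`: `p` is the adjoint image of the last basis vector `e_S`, and the orthogonal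
projection of `e_S` to the complement of `e` has squared norm `1 - ⟪e_S, e⟫²`.
(Concretely: use `WithLp 2 (F K × ℝ × ℝ)` or `EuclideanSpace ℝ (Fin (K+2))`,
`Submodule.orthogonal (span {e})`, `finrank_orthogonal_span_singleton`,
`LinearIsometryEquiv.ofInnerProductSpace` / `stdOrthonormalBasis`.)

`sphere_norm`, `sphere_metric`: the map `ξ ↦ ((1 - |ξ|²/4) e + j ξ) / (1 + |ξ|²/4)` takes values in
the unit sphere and is conformal with factor `(1 + |ξ|²/4)⁻¹`.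
-/

open scoped Manifold ContDiff Bundle Topology

noncomputable section

namespace Pool.Agent.H86.Anco

variable {K k : ℕ}

/-- the Euclidean space `ℝ^K × ℝ × ℝ` -/
abbrev V3 (K : ℕ) : Type := WithLp 2 (F K × WithLp 2 (ℝ × ℝ))

lemma finrank_V3 : Module.finrank ℝ (V3 K) = (K + 1) + 1 := by
  have h1 : Module.finrank ℝ (WithLp 2 (ℝ × ℝ)) = 2 := by
    rw [(WithLp.linearEquiv 2 ℝ (ℝ × ℝ)).finrank_eq, Module.finrank_prod]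
    simp
  rw [(WithLp.linearEquiv 2 ℝ (F K × WithLp 2 (ℝ × ℝ))).finrank_eq, Module.finrank_prod, h1,
    finrank_euclideanSpace]
  simp

/-- a vector of `V3` -/
def mk3 (x : F K) (s S : ℝ) : V3 K := WithLp.toLp 2 (x, WithLp.toLp 2 (s, S))

lemma inner_mk3 (x y : F K) (s S s' S' : ℝ) :
    inner ℝ (mk3 x s S) (mk3 y s' S') = inner ℝ x y + s * s' + S * S' := by
  unfold mk3
  rw [WithLp.prod_inner_apply, WithLp.prod_inner_apply]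
  simp only [RCLike.inner_apply, conj_trivial]
  ring

theorem exists_sphere_frame (x₀ : F K) (s₀ S₀ : ℝ) (h : ‖x₀‖ ^ 2 + s₀ ^ 2 + S₀ ^ 2 = 1) :
    ∃ (jx : F (K + 1) →L[ℝ] F K) (js : F (K + 1) →L[ℝ] ℝ) (p : F (K + 1)),
      (∀ ξ η, inner ℝ (jx ξ) (jx η) + js ξ * js η + inner ℝ p ξ * inner ℝ p η = inner ℝ ξ η) ∧
      (∀ ξ, inner ℝ x₀ (jx ξ) + s₀ * js ξ + S₀ * inner ℝ p ξ = 0) ∧
      ‖p‖ ^ 2 = 1 - S₀ ^ 2 := by
  have hfact : Fact (Module.finrank ℝ (V3 K) = (K + 1) + 1) := ⟨finrank_V3⟩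
  set e : V3 K := mk3 x₀ s₀ S₀ with he
  have hee : inner ℝ e e = (1 : ℝ) := by
    rw [he, inner_mk3, real_inner_self_eq_norm_sq]
    linarith
  have he0 : e ≠ 0 := by
    intro h0
    rw [h0, inner_zero_left] at hee
    exact zero_ne_one hee
  let U := (OrthonormalBasis.fromOrthogonalSpanSingleton (𝕜 := ℝ) (K + 1) he0).repr
  let J : F (K + 1) →L[ℝ] V3 K :=
    ((ℝ ∙ e)ᗮ).subtypeL.comp (U.symm.toContinuousLinearEquiv : F (K + 1) →L[ℝ] (ℝ ∙ e)ᗮ)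
  have hJ : ∀ ξ, J ξ = ((U.symm ξ : (ℝ ∙ e)ᗮ) : V3 K) := fun ξ => rfl
  have hJJ : ∀ ξ η, inner ℝ (J ξ) (J η) = inner ℝ ξ η := by
    intro ξ η
    rw [hJ, hJ, ← Submodule.coe_inner, U.symm.inner_map_map]
  have heJ : ∀ ξ, inner ℝ e (J ξ) = (0 : ℝ) := by
    intro ξ
    rw [hJ]
    exact Submodule.mem_orthogonal_singleton_iff_inner_right.1 (U.symm ξ).2
  set eS : V3 K := mk3 0 0 1 with heS
  have heeS : inner ℝ e eS = S₀ := by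
    rw [he, heS, inner_mk3, inner_zero_right]
    ring
  have heSeS : inner ℝ eS eS = (1 : ℝ) := by
    rw [heS, inner_mk3, inner_zero_right]
    ring
  have hmem : eS - S₀ • e ∈ (ℝ ∙ e)ᗮ := by
    rw [Submodule.mem_orthogonal_singleton_iff_inner_right, inner_sub_right, inner_smul_right,
      heeS, hee]
    ring
  let p : F (K + 1) := U ⟨eS - S₀ • e, hmem⟩
  have hp : J p = eS - S₀ • e := by
    rw [hJ]
    simp only [p, LinearIsometryEquiv.symm_apply_apply]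
  have hpin : ∀ ξ, inner ℝ p ξ = inner ℝ eS (J ξ) := by
    intro ξ
    rw [← hJJ, hp, inner_sub_left, inner_smul_left, heJ]
    simp
  have hcomp : ∀ v : V3 K, v = mk3 v.fst v.snd.fst v.snd.snd := fun v => rfl
  let jx : F (K + 1) →L[ℝ] F K := (WithLp.fstL 2 ℝ (F K) (WithLp 2 (ℝ × ℝ))).comp J
  let js : F (K + 1) →L[ℝ] ℝ :=
    (WithLp.fstL 2 ℝ ℝ ℝ).comp ((WithLp.sndL 2 ℝ (F K) (WithLp 2 (ℝ × ℝ))).comp J)
  have hS : ∀ ξ, (J ξ).snd.snd = inner ℝ p ξ := by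
    intro ξ
    have h1 : inner ℝ eS (J ξ) = (J ξ).snd.snd := by
      have h2 := inner_mk3 (0 : F K) (J ξ).fst 0 1 (J ξ).snd.fst (J ξ).snd.snd
      rw [inner_zero_left] at h2
      have h3 : inner ℝ eS (J ξ) = 0 + 0 * (J ξ).snd.fst + 1 * (J ξ).snd.snd := h2
      rw [h3]
      ring
    rw [hpin, h1]
  have hJ3 : ∀ ξ, J ξ = mk3 (jx ξ) (js ξ) (inner ℝ p ξ) := by
    intro ξ
    rw [← hS ξ]
    exact hcomp (J ξ)
  refine ⟨jx, js, p, ?_, ?_, ?_⟩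
  · intro ξ η
    rw [← hJJ ξ η, hJ3 ξ, hJ3 η, inner_mk3]
  · intro ξ
    have h1 := heJ ξ
    rw [he, hJ3 ξ, inner_mk3] at h1
    exact h1
  · rw [← real_inner_self_eq_norm_sq, ← hJJ, hp, inner_sub_left, inner_sub_right,
      inner_sub_right, inner_smul_left, inner_smul_right, inner_smul_left, inner_smul_right,
      real_inner_comm e eS, heeS, hee, heSeS]
    simp only [conj_trivial]
    ring

/-- The `x` component of the sphere coordinates. -/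
def xf (x₀ : F K) (jx : F k →L[ℝ] F K) (ξ : F k) : F K :=
  (1 + ‖ξ‖ ^ 2 / 4)⁻¹ • ((1 - ‖ξ‖ ^ 2 / 4) • x₀ + jx ξ)

/-- The `s` component of the sphere coordinates. -/
def sf (s₀ : ℝ) (js : F k →L[ℝ] ℝ) (ξ : F k) : ℝ :=
  ((1 - ‖ξ‖ ^ 2 / 4) * s₀ + js ξ) / (1 + ‖ξ‖ ^ 2 / 4)

lemma D_pos (ξ : F k) : 0 < 1 + ‖ξ‖ ^ 2 / 4 := by positivity

/-- the general sphere coordinates -/
def tf {E' : Type*} [NormedAddCommGroup E'] [NormedSpace ℝ E'] (v : E') (j : F k →L[ℝ] E')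
    (ξ : F k) : E' :=
  (1 + ‖ξ‖ ^ 2 / 4)⁻¹ • ((1 - ‖ξ‖ ^ 2 / 4) • v + j ξ)

lemma contDiff_tf {E' : Type*} [NormedAddCommGroup E'] [NormedSpace ℝ E'] (v : E')
    (j : F k →L[ℝ] E') : ContDiff ℝ ∞ (tf v j) := by
  have h1 : ContDiff ℝ ∞ (fun ξ : F k => ‖ξ‖ ^ 2) := contDiff_norm_sq ℝ
  have h2 : ContDiff ℝ ∞ (fun ξ : F k => (1 + ‖ξ‖ ^ 2 / 4)⁻¹) :=
    (contDiff_const.add (h1.div_const 4)).inv fun ξ => (D_pos ξ).ne'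
  have h3 : ContDiff ℝ ∞ (fun ξ : F k => (1 - ‖ξ‖ ^ 2 / 4) • v + j ξ) :=
    ((contDiff_const.sub (h1.div_const 4)).smul contDiff_const).add j.contDiff
  exact h2.smul h3

lemma fderiv_tf {E' : Type*} [NormedAddCommGroup E'] [NormedSpace ℝ E'] (v : E')
    (j : F k →L[ℝ] E') (ξ a : F k) :
    fderiv ℝ (tf v j) ξ a = (-(inner ℝ ξ a) * ((1 + ‖ξ‖ ^ 2 / 4) ^ 2)⁻¹) • v
      + (1 + ‖ξ‖ ^ 2 / 4)⁻¹ • j a
      - (((1 + ‖ξ‖ ^ 2 / 4) ^ 2)⁻¹ * (inner ℝ ξ a / 2)) • j ξ := by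
  have hD := (D_pos ξ).ne'
  have h1 : HasFDerivAt (fun ξ : F k => ‖ξ‖ ^ 2) (2 • innerSL ℝ ξ) ξ :=
    (hasStrictFDerivAt_norm_sq ξ).hasFDerivAt
  have h1' : HasFDerivAt (fun ξ : F k => ‖ξ‖ ^ 2 / 4) ((4 : ℝ)⁻¹ • (2 • innerSL ℝ ξ)) ξ := by
    have := h1.const_mul (4 : ℝ)⁻¹
    refine this.congr_of_eventuallyEq (Filter.Eventually.of_forall fun y => ?_)
    change ‖y‖ ^ 2 / 4 = 4⁻¹ * ‖y‖ ^ 2
    ring
  have h2 : HasFDerivAt (fun ξ : F k => 1 + ‖ξ‖ ^ 2 / 4) ((4 : ℝ)⁻¹ • (2 • innerSL ℝ ξ)) ξ :=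
    h1'.const_add 1
  have h2' : HasFDerivAt (fun ξ : F k => 1 - ‖ξ‖ ^ 2 / 4) (-((4 : ℝ)⁻¹ • (2 • innerSL ℝ ξ))) ξ :=
    h1'.const_sub 1
  have h3 : HasFDerivAt (fun ξ : F k => (1 + ‖ξ‖ ^ 2 / 4)⁻¹)
      ((-((1 + ‖ξ‖ ^ 2 / 4) ^ 2)⁻¹) • ((4 : ℝ)⁻¹ • (2 • innerSL ℝ ξ))) ξ :=
    (hasDerivAt_inv hD).comp_hasFDerivAt ξ h2
  have h4 : HasFDerivAt (fun ξ : F k => (1 - ‖ξ‖ ^ 2 / 4) • v + j ξ) _ ξ :=
    (h2'.smul_const v).add j.hasFDerivAt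
  have h5 : HasFDerivAt (tf v j) _ ξ := h3.smul h4
  rw [h5.fderiv]
  have e1 : (((1 + ‖ξ‖ ^ 2 / 4)⁻¹ • ((-((4 : ℝ)⁻¹ • (2 • innerSL ℝ ξ))).smulRight v + j) +
      (-((1 + ‖ξ‖ ^ 2 / 4) ^ 2)⁻¹ • ((4 : ℝ)⁻¹ • (2 • innerSL ℝ ξ))).smulRight
        ((1 - ‖ξ‖ ^ 2 / 4) • v + j ξ) : F k →L[ℝ] E') a) =
      (1 + ‖ξ‖ ^ 2 / 4)⁻¹ • (-(4⁻¹ * (2 * inner ℝ ξ a)) • v + j a) +
      (-((1 + ‖ξ‖ ^ 2 / 4) ^ 2)⁻¹ * (4⁻¹ * (2 * inner ℝ ξ a))) •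
        ((1 - ‖ξ‖ ^ 2 / 4) • v + j ξ) := by
    simp only [add_apply, smul_apply, ContinuousLinearMap.smulRight_apply, neg_apply,
      innerSL_apply_apply, smul_eq_mul, nsmul_eq_mul]
    norm_num
  rw [e1]
  generalize hI : (inner ℝ ξ a : ℝ) = I
  generalize hq : ‖ξ‖ ^ 2 / 4 = q at hD ⊢
  match_scalars <;> field_simp <;> ring

lemma sf_eq (s₀ : ℝ) (js : F k →L[ℝ] ℝ) : sf s₀ js = tf s₀ js := by
  funext ξ
  unfold sf tf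
  rw [smul_eq_mul, smul_eq_mul, div_eq_mul_inv, mul_comm]

lemma Sf_eq (S₀ : ℝ) (p : F k) : Sf S₀ p = tf S₀ (innerSL ℝ p) := by
  funext ξ
  unfold Sf tf
  rw [smul_eq_mul, smul_eq_mul, div_eq_mul_inv, mul_comm, innerSL_apply_apply]

lemma contDiff_xf (x₀ : F K) (jx : F k →L[ℝ] F K) : ContDiff ℝ ∞ (xf x₀ jx) :=
  contDiff_tf x₀ jx

lemma contDiff_sf (s₀ : ℝ) (js : F k →L[ℝ] ℝ) : ContDiff ℝ ∞ (sf s₀ js) := by
  rw [sf_eq]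
  exact contDiff_tf s₀ js

lemma contDiff_Sf (S₀ : ℝ) (p : F k) : ContDiff ℝ ∞ (Sf S₀ p) := by
  rw [Sf_eq]
  exact contDiff_tf S₀ (innerSL ℝ p)

theorem sphere_norm {x₀ : F K} {s₀ S₀ : ℝ} (h : ‖x₀‖ ^ 2 + s₀ ^ 2 + S₀ ^ 2 = 1)
    {jx : F k →L[ℝ] F K} {js : F k →L[ℝ] ℝ} {p : F k}
    (h1 : ∀ ξ η, inner ℝ (jx ξ) (jx η) + js ξ * js η + inner ℝ p ξ * inner ℝ p η = inner ℝ ξ η)
    (h2 : ∀ ξ, inner ℝ x₀ (jx ξ) + s₀ * js ξ + S₀ * inner ℝ p ξ = 0) (ξ : F k) :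
    ‖xf x₀ jx ξ‖ ^ 2 + sf s₀ js ξ ^ 2 + Sf S₀ p ξ ^ 2 = 1 := by
  have hD := (D_pos ξ).ne'
  have k1 := h1 ξ ξ
  have k2 := h2 ξ
  rw [real_inner_self_eq_norm_sq, real_inner_self_eq_norm_sq] at k1
  have e1 : ‖xf x₀ jx ξ‖ ^ 2 = ((1 + ‖ξ‖ ^ 2 / 4) ^ 2)⁻¹ * ((1 - ‖ξ‖ ^ 2 / 4) ^ 2 * ‖x₀‖ ^ 2
      + 2 * (1 - ‖ξ‖ ^ 2 / 4) * inner ℝ x₀ (jx ξ) + ‖jx ξ‖ ^ 2) := by
    unfold xf
    rw [norm_smul, mul_pow, norm_inv, inv_pow, Real.norm_eq_abs, sq_abs, norm_add_sq_real,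
      norm_smul, mul_pow, Real.norm_eq_abs, sq_abs, inner_smul_left]
    simp only [conj_trivial]
    ring
  rw [e1]
  unfold sf Sf
  generalize hq : ‖ξ‖ ^ 2 / 4 = q at hD ⊢
  have hq' : ‖ξ‖ ^ 2 = 4 * q := by linarith
  rw [hq'] at k1
  generalize (inner ℝ p ξ : ℝ) = P at *
  generalize (inner ℝ x₀ (jx ξ) : ℝ) = Q at *
  generalize js ξ = j at *
  generalize ‖jx ξ‖ ^ 2 = n at *
  generalize ‖x₀‖ ^ 2 = m at *
  field_simp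
  linear_combination (1 - q) ^ 2 * h + 2 * (1 - q) * k2 + k1

theorem sphere_metric {x₀ : F K} {s₀ S₀ : ℝ} (h : ‖x₀‖ ^ 2 + s₀ ^ 2 + S₀ ^ 2 = 1)
    {jx : F k →L[ℝ] F K} {js : F k →L[ℝ] ℝ} {p : F k}
    (h1 : ∀ ξ η, inner ℝ (jx ξ) (jx η) + js ξ * js η + inner ℝ p ξ * inner ℝ p η = inner ℝ ξ η)
    (h2 : ∀ ξ, inner ℝ x₀ (jx ξ) + s₀ * js ξ + S₀ * inner ℝ p ξ = 0) (ξ a b : F k) :
    inner ℝ (fderiv ℝ (xf x₀ jx) ξ a) (fderiv ℝ (xf x₀ jx) ξ b)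
      + fderiv ℝ (sf s₀ js) ξ a * fderiv ℝ (sf s₀ js) ξ b
      + fderiv ℝ (Sf S₀ p) ξ a * fderiv ℝ (Sf S₀ p) ξ b
      = ((1 + ‖ξ‖ ^ 2 / 4) ^ 2)⁻¹ * inner ℝ a b := by
  have hx : xf x₀ jx = tf x₀ jx := rfl
  rw [hx, sf_eq, Sf_eq]
  simp only [fderiv_tf]
  have hD := (D_pos ξ).ne'
  have kab := h1 a b
  have kaξ := h1 a ξ
  have kξb := h1 ξ b
  have kξξ := h1 ξ ξ
  have ka := h2 a
  have kb := h2 b
  have kξ := h2 ξ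
  have hq' : (inner ℝ ξ ξ : ℝ) = 4 * (‖ξ‖ ^ 2 / 4) := by
    rw [real_inner_self_eq_norm_sq]
    ring
  rw [hq'] at kξξ
  rw [real_inner_comm ξ a] at kaξ
  simp only [inner_add_left, inner_add_right, inner_sub_left, inner_sub_right, inner_smul_left,
    inner_smul_right, conj_trivial, smul_eq_mul, innerSL_apply_apply,
    real_inner_comm x₀ (jx a), real_inner_comm x₀ (jx ξ)]
  rw [real_inner_self_eq_norm_sq x₀]
  generalize hq : ‖ξ‖ ^ 2 / 4 = q at hD kξξ ⊢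
  rw [← inv_pow]
  have he : (1 + q)⁻¹ * (1 + q) = 1 := inv_mul_cancel₀ hD
  generalize (1 + q)⁻¹ = e at he ⊢
  generalize (inner ℝ (jx a) (jx b) : ℝ) = Gab at *
  generalize (inner ℝ (jx a) (jx ξ) : ℝ) = Gaξ at *
  generalize (inner ℝ (jx ξ) (jx b) : ℝ) = Gξb at *
  generalize (inner ℝ (jx ξ) (jx ξ) : ℝ) = Gξξ at *
  generalize (inner ℝ x₀ (jx a) : ℝ) = Ea at *
  generalize (inner ℝ x₀ (jx b) : ℝ) = Eb at *
  generalize (inner ℝ x₀ (jx ξ) : ℝ) = Eξ at *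
  generalize (inner ℝ p a : ℝ) = Pa at *
  generalize (inner ℝ p b : ℝ) = Pb at *
  generalize (inner ℝ p ξ : ℝ) = Pξ at *
  generalize (inner ℝ ξ a : ℝ) = Ia at *
  generalize (inner ℝ ξ b : ℝ) = Ib at *
  generalize (inner ℝ a b : ℝ) = Iab at *
  generalize js a = ja at *
  generalize js b = jb at *
  generalize js ξ = jξ at *
  generalize ‖x₀‖ ^ 2 = m at *
  linear_combination (Ia * Ib * e ^ 4) * h - (Ia * e ^ 3) * kb + (Ia * Ib * e ^ 4 / 2) * kξ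
    - (Ib * e ^ 3) * ka + e ^ 2 * kab - (e ^ 3 * Ib / 2) * kaξ + (Ia * Ib * e ^ 4 / 2) * kξ
    - (e ^ 3 * Ia / 2) * kξb + (e ^ 4 * Ia * Ib / 4) * kξξ + (Ia * Ib * e ^ 3) * he

end Pool.Agent.H86.Anco
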