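import Pool.Agent.H86.Anco.Center

/-!
# Module MOVED-B: the ambient form in terms of a unit vector `(ζ₀, ζ₁)` and a fibre coordinate `ν`

Pure complex algebra.  `Bpt ζ₀ ζ₁ ν x s` is the point of the carrier given by the line of
`(ζ₀, ζ₁)` and the vector `v = ν ζ`; `Btan` is the derivative of `Bpt`.
With `conj ζ₀ ζ₀' + conj ζ₁ ζ₁' = i A` and `δ = ζ₀ ζ₁' - ζ₁ ζ₀'`:
`⟪v', v''⟫ = ⟪ν' + iA'ν, ν'' + iA''ν⟫ + |ν|² ⟪δ', δ''⟫` (decompose `ζ' = iA ζ + δ J ζ`,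
`J ζ = (-conj ζ₁, conj ζ₀)`), `eta = Im (conj ν (ν' + i A ν))`,
`⟪c', c''⟫ + d' d'' = 4 ⟪δ', δ''⟫`.

For `ζ(z) = (α - z conj β, β + z conj α) / √(1+|z|²)`: `A = Im (conj z z') / (1+|z|²)` and
`δ = z' / (1+|z|²)`.
-/

open scoped Manifold ContDiff Bundle Topology

noncomputable section

namespace Pool.Agent.H86.Anco

variable {K k : ℕ}

/-- The point with line spanned by `(ζ₀, ζ₁)` and `v = ν ζ`. -/
def Bpt (ζ₀ ζ₁ ν : ℂ) (x : F K) (s : ℝ) : V K :=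
  (2 * ζ₁ * (starRingEnd ℂ) ζ₀, ‖ζ₀‖ ^ 2 - ‖ζ₁‖ ^ 2, ν * ζ₀, ν * ζ₁, x, s)

/-- The derivative of `Bpt`. -/
def Btan (ζ₀ ζ₁ ν : ℂ) (ζ₀' ζ₁' ν' : ℂ) (x' : F K) (s' : ℝ) : V K :=
  (2 * (ζ₁' * (starRingEnd ℂ) ζ₀ + ζ₁ * (starRingEnd ℂ) ζ₀'),
    2 * ((starRingEnd ℂ) ζ₀ * ζ₀' - (starRingEnd ℂ) ζ₁ * ζ₁').re,
    ν' * ζ₀ + ν * ζ₀', ν' * ζ₁ + ν * ζ₁', x', s')

lemma conj_mul_norm (z : ℂ) : (starRingEnd ℂ) z * z = ((‖z‖ ^ 2 : ℝ) : ℂ) := by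
  rw [Complex.conj_mul']
  push_cast
  rfl

lemma Bpt_mem {ζ₀ ζ₁ ν : ℂ} {x : F K} {s : ℝ} (h : ‖ζ₀‖ ^ 2 + ‖ζ₁‖ ^ 2 = 1)
    (h' : ‖ν‖ ^ 2 + ‖x‖ ^ 2 + s ^ 2 = 1) : Bpt ζ₀ ζ₁ ν x s ∈ carrier K := by
  have hc : ((‖ζ₀‖ ^ 2 : ℝ) : ℂ) + ((‖ζ₁‖ ^ 2 : ℝ) : ℂ) = 1 := by
    rw [← Complex.ofReal_add, h, Complex.ofReal_one]
  have e0 := conj_mul_norm ζ₀
  have e1 := conj_mul_norm ζ₁
  refine ⟨?_, ?_, ?_, ?_⟩
  · change ‖2 * ζ₁ * (starRingEnd ℂ) ζ₀‖ ^ 2 + (‖ζ₀‖ ^ 2 - ‖ζ₁‖ ^ 2) ^ 2 = 1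
    rw [norm_mul, norm_mul, Complex.norm_conj, Complex.norm_two]
    linear_combination (‖ζ₀‖ ^ 2 + ‖ζ₁‖ ^ 2 + 1) * h
  · change ((1 + (‖ζ₀‖ ^ 2 - ‖ζ₁‖ ^ 2) : ℝ) : ℂ) * (ν * ζ₁)
      = 2 * ζ₁ * (starRingEnd ℂ) ζ₀ * (ν * ζ₀)
    rw [Complex.ofReal_add, Complex.ofReal_sub, Complex.ofReal_one]
    linear_combination (-(ν * ζ₁)) * hc - 2 * ν * ζ₁ * e0
  · change ((1 - (‖ζ₀‖ ^ 2 - ‖ζ₁‖ ^ 2) : ℝ) : ℂ) * (ν * ζ₀)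
      = (starRingEnd ℂ) (2 * ζ₁ * (starRingEnd ℂ) ζ₀) * (ν * ζ₁)
    rw [map_mul, map_mul, Complex.conj_conj, Complex.conj_ofNat, Complex.ofReal_sub,
      Complex.ofReal_sub, Complex.ofReal_one]
    linear_combination (-(ν * ζ₀)) * hc - 2 * ν * ζ₀ * e1
  · change ‖ν * ζ₀‖ ^ 2 + ‖ν * ζ₁‖ ^ 2 + ‖x‖ ^ 2 + s ^ 2 = 1
    rw [norm_mul, norm_mul]
    linear_combination (‖ν‖ ^ 2) * h + h'

/-- Every point of the carrier is of this form. -/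
lemma exists_Bpt {q : V K} (hq : q ∈ carrier K) (hv : ¬ (pv0 q = 0 ∧ pv1 q = 0)) :
    ∃ (α β : ℂ) (S : ℝ), ‖α‖ ^ 2 + ‖β‖ ^ 2 = 1 ∧ 0 < S ∧
      q = Bpt α β (S : ℂ) (px q) (ps q) ∧ S ^ 2 + ‖px q‖ ^ 2 + ps q ^ 2 = 1 := by
  obtain ⟨c, d, v0, v1, x, s⟩ := q
  obtain ⟨h1, h2, h3, h4⟩ := hq
  change ‖c‖ ^ 2 + d ^ 2 = 1 at h1
  change ((1 + d : ℝ) : ℂ) * v1 = c * v0 at h2
  change ((1 - d : ℝ) : ℂ) * v0 = (starRingEnd ℂ) c * v1 at h3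
  change ‖v0‖ ^ 2 + ‖v1‖ ^ 2 + ‖x‖ ^ 2 + s ^ 2 = 1 at h4
  change ¬ (v0 = 0 ∧ v1 = 0) at hv
  have hpos : 0 < ‖v0‖ ^ 2 + ‖v1‖ ^ 2 := by
    by_cases h0 : v0 = 0
    · have h1' : v1 ≠ 0 := fun h => hv ⟨h0, h⟩
      have := norm_pos_iff.2 h1'
      positivity
    · have := norm_pos_iff.2 h0
      positivity
  set S : ℝ := √(‖v0‖ ^ 2 + ‖v1‖ ^ 2) with hS
  have hS2 : S ^ 2 = ‖v0‖ ^ 2 + ‖v1‖ ^ 2 := Real.sq_sqrt hpos.le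
  have hSpos : 0 < S := Real.sqrt_pos.2 hpos
  have hSc : (S : ℂ) ≠ 0 := by exact_mod_cast hSpos.ne'
  have e0 := conj_mul_norm v0
  have e1 := conj_mul_norm v1
  have hS2c : (S : ℂ) ^ 2 = ((‖v0‖ ^ 2 : ℝ) : ℂ) + ((‖v1‖ ^ 2 : ℝ) : ℂ) := by
    rw [← Complex.ofReal_add, ← hS2]
    push_cast
    rfl
  have h2' := congrArg (starRingEnd ℂ) h2
  have h3' := congrArg (starRingEnd ℂ) h3
  rw [map_mul, map_mul, Complex.conj_ofReal] at h2' h3'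
  rw [Complex.conj_conj] at h3'
  rw [Complex.ofReal_add, Complex.ofReal_one] at h2 h2'
  rw [Complex.ofReal_sub, Complex.ofReal_one] at h3 h3'
  -- the value of `d`
  have hd : (d : ℂ) * (S : ℂ) ^ 2 = ((‖v0‖ ^ 2 : ℝ) : ℂ) - ((‖v1‖ ^ 2 : ℝ) : ℂ) := by
    rw [hS2c, ← e0, ← e1]
    linear_combination (starRingEnd ℂ) v1 * h2 - v0 * h3'
  have hc : c * (S : ℂ) ^ 2 = 2 * v1 * (starRingEnd ℂ) v0 := by
    rw [hS2c, ← e0, ← e1]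
    linear_combination (-(starRingEnd ℂ) v0) * h2 - v1 * h3'
  refine ⟨v0 / S, v1 / S, S, ?_, hSpos, ?_, ?_⟩
  · rw [norm_div, norm_div, Complex.norm_real, Real.norm_eq_abs, abs_of_pos hSpos, div_pow,
      div_pow, ← add_div, ← hS2]
    exact div_self (pow_pos hSpos 2).ne'
  · change ((c, d, v0, v1, x, s) : V K) = (2 * (v1 / S) * (starRingEnd ℂ) (v0 / S),
      ‖v0 / (S : ℂ)‖ ^ 2 - ‖v1 / (S : ℂ)‖ ^ 2, (S : ℂ) * (v0 / S), (S : ℂ) * (v1 / S), x, s)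
    have k1 : c = 2 * (v1 / S) * (starRingEnd ℂ) (v0 / S) := by
      rw [map_div₀, Complex.conj_ofReal]
      field_simp
      exact hc
    have k2 : d = ‖v0 / (S : ℂ)‖ ^ 2 - ‖v1 / (S : ℂ)‖ ^ 2 := by
      rw [norm_div, norm_div, Complex.norm_real, Real.norm_eq_abs, abs_of_pos hSpos, div_pow,
        div_pow, ← sub_div, eq_div_iff (pow_pos hSpos 2).ne']
      exact_mod_cast hd
    have k3 : (S : ℂ) * (v0 / S) = v0 := by field_simp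
    have k4 : (S : ℂ) * (v1 / S) = v1 := by field_simp
    rw [← k1, ← k2, k3, k4]
  · change S ^ 2 + ‖x‖ ^ 2 + s ^ 2 = 1
    rw [hS2]
    exact h4

lemma hasFDerivAt_Bpt {X : Type*} [NormedAddCommGroup X] [NormedSpace ℝ X] {u : X}
    {ζ₀ ζ₁ ν : X → ℂ} {x : X → F K} {s : X → ℝ}
    (h0 : DifferentiableAt ℝ ζ₀ u) (h1 : DifferentiableAt ℝ ζ₁ u) (hν : DifferentiableAt ℝ ν u)
    (hx : DifferentiableAt ℝ x u) (hs : DifferentiableAt ℝ s u) (a : X) :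
    fderiv ℝ (fun u => Bpt (ζ₀ u) (ζ₁ u) (ν u) (x u) (s u)) u a =
      Btan (ζ₀ u) (ζ₁ u) (ν u) (fderiv ℝ ζ₀ u a) (fderiv ℝ ζ₁ u a) (fderiv ℝ ν u a)
        (fderiv ℝ x u a) (fderiv ℝ s u a) := by
  have k0 := h0.hasFDerivAt
  have k1 := h1.hasFDerivAt
  have kν := hν.hasFDerivAt
  have kx := hx.hasFDerivAt
  have ks := hs.hasFDerivAt
  have kc : HasFDerivAt (fun u => (starRingEnd ℂ) (ζ₀ u))
      ((Complex.conjCLE : ℂ →L[ℝ] ℂ).comp (fderiv ℝ ζ₀ u)) u :=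
    (Complex.conjCLE : ℂ →L[ℝ] ℂ).hasFDerivAt.comp u k0
  have m1 := (k1.const_mul (2 : ℂ)).mul kc
  have m2 := k0.norm_sq.sub k1.norm_sq
  have m3 := kν.mul k0
  have m4 := kν.mul k1
  have m := m1.prodMk (m2.prodMk (m3.prodMk (m4.prodMk (kx.prodMk ks))))
  have hm : HasFDerivAt (fun u => Bpt (ζ₀ u) (ζ₁ u) (ν u) (x u) (s u)) _ u := m
  rw [hm.fderiv]
  refine Prod.ext ?_ (Prod.ext ?_ (Prod.ext ?_ (Prod.ext ?_ (Prod.ext ?_ ?_))))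
  · simp [Btan]
    ring
  · simp [Btan]
    ring
  · simp [Btan]
    ring
  · simp [Btan]
    ring
  · simp [Btan]
  · simp [Btan]

lemma inner_v_core {ζ₀ ζ₁ : ℂ} (h : ‖ζ₀‖ ^ 2 + ‖ζ₁‖ ^ 2 = 1) (ν NX NY δX δY : ℂ) :
    inner ℝ (NX * ζ₀ - ν * δX * (starRingEnd ℂ) ζ₁) (NY * ζ₀ - ν * δY * (starRingEnd ℂ) ζ₁)
      + inner ℝ (NX * ζ₁ + ν * δX * (starRingEnd ℂ) ζ₀) (NY * ζ₁ + ν * δY * (starRingEnd ℂ) ζ₀)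
      = inner ℝ NX NY + ‖ν‖ ^ 2 * inner ℝ δX δY := by
  rw [Complex.sq_norm, Complex.sq_norm, Complex.normSq_apply, Complex.normSq_apply] at h
  rw [Complex.sq_norm, Complex.normSq_apply]
  simp only [Complex.inner, Complex.add_re, Complex.sub_re, Complex.mul_re, Complex.mul_im,
    Complex.conj_re, Complex.conj_im, Complex.add_im, Complex.sub_im, map_add, map_sub, map_mul,
    Complex.conj_conj]
  linear_combination (NX.re * NY.re + NX.im * NY.im + (ν.re * ν.re + ν.im * ν.im) *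
    (δX.re * δY.re + δX.im * δY.im)) * h

lemma inner_c_core {ζ₀ ζ₁ : ℂ} (h : ‖ζ₀‖ ^ 2 + ‖ζ₁‖ ^ 2 = 1) (δX δY : ℂ) :
    inner ℝ (2 * (δX * (starRingEnd ℂ) ζ₀ ^ 2 - (starRingEnd ℂ) δX * ζ₁ ^ 2))
        (2 * (δY * (starRingEnd ℂ) ζ₀ ^ 2 - (starRingEnd ℂ) δY * ζ₁ ^ 2))
      + (2 * (-2 * (δX * (starRingEnd ℂ) ζ₀ * (starRingEnd ℂ) ζ₁)).re)
        * (2 * (-2 * (δY * (starRingEnd ℂ) ζ₀ * (starRingEnd ℂ) ζ₁)).re)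
      = 4 * inner ℝ δX δY := by
  rw [Complex.sq_norm, Complex.sq_norm, Complex.normSq_apply, Complex.normSq_apply] at h
  have n2 : (2 : ℂ).re = 2 := rfl
  have n2i : (2 : ℂ).im = 0 := rfl
  simp only [Complex.inner, Complex.sub_re, Complex.mul_re, Complex.mul_im, Complex.conj_re,
    Complex.conj_im, Complex.sub_im, map_sub, map_mul, Complex.conj_conj, pow_two,
    Complex.neg_re, Complex.neg_im, n2, n2i]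
  linear_combination (4 * (δX.re * δY.re + δX.im * δY.im) * (ζ₀.re * ζ₀.re + ζ₀.im * ζ₀.im +
    (ζ₁.re * ζ₁.re + ζ₁.im * ζ₁.im) + 1)) * h

lemma Gab_core (a b : ℝ → ℝ) {ζ₀ ζ₁ ν : ℂ} (x : F K) (s : ℝ)
    (h : ‖ζ₀‖ ^ 2 + ‖ζ₁‖ ^ 2 = 1) (δX δY Xν Yν : ℂ) (Xx Yx : F K) (Xs Ys AX AY : ℝ) :
    Gab a b (Bpt ζ₀ ζ₁ ν x s)
      (Btan ζ₀ ζ₁ ν (Complex.I * AX * ζ₀ - δX * (starRingEnd ℂ) ζ₁)
        (Complex.I * AX * ζ₁ + δX * (starRingEnd ℂ) ζ₀) Xν Xx Xs)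
      (Btan ζ₀ ζ₁ ν (Complex.I * AY * ζ₀ - δY * (starRingEnd ℂ) ζ₁)
        (Complex.I * AY * ζ₁ + δY * (starRingEnd ℂ) ζ₀) Yν Yx Ys) =
      inner ℝ (Xν + Complex.I * AX * ν) (Yν + Complex.I * AY * ν)
      + inner ℝ Xx Yx + Xs * Ys
      - a (‖ν‖ ^ 2) * (((starRingEnd ℂ) ν * (Xν + Complex.I * AX * ν)).im
          * ((starRingEnd ℂ) ν * (Yν + Complex.I * AY * ν)).im)
      + (‖ν‖ ^ 2 + b (‖ν‖ ^ 2)) * inner ℝ δX δY := by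
  have hc : (starRingEnd ℂ) ζ₀ * ζ₀ + (starRingEnd ℂ) ζ₁ * ζ₁ = 1 := by
    rw [conj_mul_norm, conj_mul_norm, ← Complex.ofReal_add, h, Complex.ofReal_one]
  have hsig : sig (Bpt ζ₀ ζ₁ ν x s) = ‖ν‖ ^ 2 := by
    change ‖ν * ζ₀‖ ^ 2 + ‖ν * ζ₁‖ ^ 2 = ‖ν‖ ^ 2
    rw [norm_mul, norm_mul]
    linear_combination (‖ν‖ ^ 2) * h
  -- the components of the tangent vectors
  have c0 : ∀ (N δ : ℂ) (A : ℝ), N * ζ₀ + ν * (Complex.I * A * ζ₀ - δ * (starRingEnd ℂ) ζ₁)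
      = (N + Complex.I * A * ν) * ζ₀ - ν * δ * (starRingEnd ℂ) ζ₁ := fun N δ A => by ring
  have c1 : ∀ (N δ : ℂ) (A : ℝ), N * ζ₁ + ν * (Complex.I * A * ζ₁ + δ * (starRingEnd ℂ) ζ₀)
      = (N + Complex.I * A * ν) * ζ₁ + ν * δ * (starRingEnd ℂ) ζ₀ := fun N δ A => by ring
  have heta : ∀ (N δ : ℂ) (A : ℝ) (y : F K) (r : ℝ), eta (Bpt ζ₀ ζ₁ ν x s)
      (Btan ζ₀ ζ₁ ν (Complex.I * A * ζ₀ - δ * (starRingEnd ℂ) ζ₁)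
        (Complex.I * A * ζ₁ + δ * (starRingEnd ℂ) ζ₀) N y r) =
      ((starRingEnd ℂ) ν * (N + Complex.I * A * ν)).im := by
    intro N δ A y r
    rw [eta_apply]
    change ((starRingEnd ℂ) (ν * ζ₀) *
      (N * ζ₀ + ν * (Complex.I * A * ζ₀ - δ * (starRingEnd ℂ) ζ₁)) + (starRingEnd ℂ) (ν * ζ₁) *
      (N * ζ₁ + ν * (Complex.I * A * ζ₁ + δ * (starRingEnd ℂ) ζ₀))).im = _
    congr 1
    rw [c0, c1, map_mul, map_mul]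
    linear_combination ((starRingEnd ℂ) ν * (N + Complex.I * A * ν)) * hc
  have hcc : ∀ (δ : ℂ) (A : ℝ), 2 * ((Complex.I * A * ζ₁ + δ * (starRingEnd ℂ) ζ₀) *
      (starRingEnd ℂ) ζ₀ + ζ₁ * (starRingEnd ℂ) (Complex.I * A * ζ₀ - δ * (starRingEnd ℂ) ζ₁))
      = 2 * (δ * (starRingEnd ℂ) ζ₀ ^ 2 - (starRingEnd ℂ) δ * ζ₁ ^ 2) := by
    intro δ A
    rw [map_sub, map_mul, map_mul, map_mul, Complex.conj_I, Complex.conj_ofReal,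
      Complex.conj_conj]
    ring
  have hdd : ∀ (δ : ℂ) (A : ℝ), 2 * ((starRingEnd ℂ) ζ₀ *
      (Complex.I * A * ζ₀ - δ * (starRingEnd ℂ) ζ₁) - (starRingEnd ℂ) ζ₁ *
      (Complex.I * A * ζ₁ + δ * (starRingEnd ℂ) ζ₀)).re
      = 2 * (-2 * (δ * (starRingEnd ℂ) ζ₀ * (starRingEnd ℂ) ζ₁)).re := by
    intro δ A
    have e : (starRingEnd ℂ) ζ₀ *
      (Complex.I * A * ζ₀ - δ * (starRingEnd ℂ) ζ₁) - (starRingEnd ℂ) ζ₁ *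
      (Complex.I * A * ζ₁ + δ * (starRingEnd ℂ) ζ₀) =
        Complex.I * ((A * (‖ζ₀‖ ^ 2 - ‖ζ₁‖ ^ 2) : ℝ) : ℂ)
          + -2 * (δ * (starRingEnd ℂ) ζ₀ * (starRingEnd ℂ) ζ₁) := by
      have e0 := conj_mul_norm ζ₀
      have e1 := conj_mul_norm ζ₁
      rw [Complex.ofReal_mul, Complex.ofReal_sub]
      linear_combination (Complex.I * A) * e0 - (Complex.I * A) * e1
    rw [e, Complex.add_re, Complex.I_mul_re, Complex.ofReal_im]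
    ring
  rw [Gab_apply, hsig, heta, heta]
  change inner ℝ (Xν * ζ₀ + ν * (Complex.I * AX * ζ₀ - δX * (starRingEnd ℂ) ζ₁))
      (Yν * ζ₀ + ν * (Complex.I * AY * ζ₀ - δY * (starRingEnd ℂ) ζ₁))
    + inner ℝ (Xν * ζ₁ + ν * (Complex.I * AX * ζ₁ + δX * (starRingEnd ℂ) ζ₀))
      (Yν * ζ₁ + ν * (Complex.I * AY * ζ₁ + δY * (starRingEnd ℂ) ζ₀))
    + inner ℝ Xx Yx + Xs * Ys - a (‖ν‖ ^ 2) * (((starRingEnd ℂ) ν *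
        (Xν + Complex.I * AX * ν)).im * ((starRingEnd ℂ) ν * (Yν + Complex.I * AY * ν)).im)
    + b (‖ν‖ ^ 2) / 4 * (inner ℝ (2 * ((Complex.I * AX * ζ₁ + δX * (starRingEnd ℂ) ζ₀) *
        (starRingEnd ℂ) ζ₀ + ζ₁ * (starRingEnd ℂ) (Complex.I * AX * ζ₀ -
          δX * (starRingEnd ℂ) ζ₁)))
        (2 * ((Complex.I * AY * ζ₁ + δY * (starRingEnd ℂ) ζ₀) *
        (starRingEnd ℂ) ζ₀ + ζ₁ * (starRingEnd ℂ) (Complex.I * AY * ζ₀ -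
          δY * (starRingEnd ℂ) ζ₁)))
      + (2 * ((starRingEnd ℂ) ζ₀ * (Complex.I * AX * ζ₀ - δX * (starRingEnd ℂ) ζ₁) -
        (starRingEnd ℂ) ζ₁ * (Complex.I * AX * ζ₁ + δX * (starRingEnd ℂ) ζ₀)).re)
      * (2 * ((starRingEnd ℂ) ζ₀ * (Complex.I * AY * ζ₀ - δY * (starRingEnd ℂ) ζ₁) -
        (starRingEnd ℂ) ζ₁ * (Complex.I * AY * ζ₁ + δY * (starRingEnd ℂ) ζ₀)).re)) = _
  rw [hcc, hcc, hdd, hdd, inner_c_core h δX δY, c0, c0, c1, c1]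
  have hv := inner_v_core h ν (Xν + Complex.I * AX * ν) (Yν + Complex.I * AY * ν) δX δY
  linear_combination hv

theorem Gab_Btan (a b : ℝ → ℝ) {ζ₀ ζ₁ ν : ℂ} (x : F K) (s : ℝ)
    (h : ‖ζ₀‖ ^ 2 + ‖ζ₁‖ ^ 2 = 1) {X₀ X₁ Xν Y₀ Y₁ Yν : ℂ} {Xx Yx : F K} {Xs Ys AX AY : ℝ}
    (hX : (starRingEnd ℂ) ζ₀ * X₀ + (starRingEnd ℂ) ζ₁ * X₁ = Complex.I * AX)
    (hY : (starRingEnd ℂ) ζ₀ * Y₀ + (starRingEnd ℂ) ζ₁ * Y₁ = Complex.I * AY) :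
    Gab a b (Bpt ζ₀ ζ₁ ν x s) (Btan ζ₀ ζ₁ ν X₀ X₁ Xν Xx Xs) (Btan ζ₀ ζ₁ ν Y₀ Y₁ Yν Yx Ys) =
      inner ℝ (Xν + Complex.I * AX * ν) (Yν + Complex.I * AY * ν)
      + inner ℝ Xx Yx + Xs * Ys
      - a (‖ν‖ ^ 2) * (((starRingEnd ℂ) ν * (Xν + Complex.I * AX * ν)).im
          * ((starRingEnd ℂ) ν * (Yν + Complex.I * AY * ν)).im)
      + (‖ν‖ ^ 2 + b (‖ν‖ ^ 2)) * inner ℝ (ζ₀ * X₁ - ζ₁ * X₀) (ζ₀ * Y₁ - ζ₁ * Y₀) := by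
  have hc : (starRingEnd ℂ) ζ₀ * ζ₀ + (starRingEnd ℂ) ζ₁ * ζ₁ = 1 := by
    rw [conj_mul_norm, conj_mul_norm, ← Complex.ofReal_add, h, Complex.ofReal_one]
  have x0 : Complex.I * AX * ζ₀ - (ζ₀ * X₁ - ζ₁ * X₀) * (starRingEnd ℂ) ζ₁ = X₀ := by
    linear_combination X₀ * hc - ζ₀ * hX
  have x1 : Complex.I * AX * ζ₁ + (ζ₀ * X₁ - ζ₁ * X₀) * (starRingEnd ℂ) ζ₀ = X₁ := by
    linear_combination X₁ * hc - ζ₁ * hX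
  have y0 : Complex.I * AY * ζ₀ - (ζ₀ * Y₁ - ζ₁ * Y₀) * (starRingEnd ℂ) ζ₁ = Y₀ := by
    linear_combination Y₀ * hc - ζ₀ * hY
  have y1 : Complex.I * AY * ζ₁ + (ζ₀ * Y₁ - ζ₁ * Y₀) * (starRingEnd ℂ) ζ₀ = Y₁ := by
    linear_combination Y₁ * hc - ζ₁ * hY
  have key := Gab_core a b x s h (ζ₀ * X₁ - ζ₁ * X₀) (ζ₀ * Y₁ - ζ₁ * Y₀) Xν Yν Xx Yx Xs Ys AX AY
    (ν := ν)
  rw [x0, x1, y0, y1] at key
  exact key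

/-- The rotated unit section of the tautological bundle. -/
def ζa (α β z : ℂ) : ℂ := ((√(1 + ‖z‖ ^ 2))⁻¹ : ℝ) • (α - z * (starRingEnd ℂ) β)
def ζb (α β z : ℂ) : ℂ := ((√(1 + ‖z‖ ^ 2))⁻¹ : ℝ) • (β + z * (starRingEnd ℂ) α)

lemma one_add_pos (z : ℂ) : 0 < 1 + ‖z‖ ^ 2 := by positivity

lemma contDiff_rinv : ContDiff ℝ ∞ (fun z : ℂ => (√(1 + ‖z‖ ^ 2))⁻¹) := by
  have h1 : ContDiff ℝ ∞ (fun z : ℂ => 1 + ‖z‖ ^ 2) := contDiff_const.add (contDiff_norm_sq ℝ)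
  exact (h1.sqrt fun z => (one_add_pos z).ne').inv fun z =>
    (Real.sqrt_pos.2 (one_add_pos z)).ne'

lemma contDiff_ζa (α β : ℂ) : ContDiff ℝ ∞ (ζa α β) :=
  contDiff_rinv.smul (contDiff_const.sub (contDiff_id.mul contDiff_const))

lemma contDiff_ζb (α β : ℂ) : ContDiff ℝ ∞ (ζb α β) :=
  contDiff_rinv.smul (contDiff_const.add (contDiff_id.mul contDiff_const))

lemma hasFDerivAt_rinv (z : ℂ) : ∃ L : ℂ →L[ℝ] ℝ,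
    HasFDerivAt (fun z : ℂ => (√(1 + ‖z‖ ^ 2))⁻¹) L z ∧
      ∀ c, L c = -(inner ℝ z c) * (√(1 + ‖z‖ ^ 2))⁻¹ ^ 3 := by
  have hD := one_add_pos z
  have h1 : HasFDerivAt (fun z : ℂ => 1 + ‖z‖ ^ 2) (2 • innerSL ℝ z) z :=
    (hasStrictFDerivAt_norm_sq z).hasFDerivAt.const_add 1
  have h2 := h1.sqrt hD.ne'
  have hs : √(1 + ‖z‖ ^ 2) ≠ 0 := (Real.sqrt_pos.2 hD).ne'
  have h3 := (hasDerivAt_inv hs).comp_hasFDerivAt z h2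
  refine ⟨_, h3, fun c => ?_⟩
  simp only [smul_apply, innerSL_apply_apply, smul_eq_mul, nsmul_eq_mul]
  push_cast
  generalize √(1 + ‖z‖ ^ 2) = r at hs
  generalize (inner ℝ z c : ℝ) = t
  field_simp

lemma fderiv_rsmul {A : ℂ → ℂ} {A' : ℂ →L[ℝ] ℂ} {z : ℂ} (hA : HasFDerivAt A A' z) (c : ℂ) :
    fderiv ℝ (fun z => ((√(1 + ‖z‖ ^ 2))⁻¹ : ℝ) • A z) z c =
      (((-(inner ℝ z c) * (√(1 + ‖z‖ ^ 2))⁻¹ ^ 3 : ℝ) : ℂ)) * A z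
        + (((√(1 + ‖z‖ ^ 2))⁻¹ : ℝ) : ℂ) * A' c := by
  obtain ⟨L, hL, hLc⟩ := hasFDerivAt_rinv z
  have h1 : HasFDerivAt (fun z => ((√(1 + ‖z‖ ^ 2))⁻¹ : ℝ) • A z) _ z := hL.smul hA
  rw [h1.fderiv]
  simp only [add_apply, smul_apply, ContinuousLinearMap.smulRight_apply, hLc, Complex.real_smul]
  rw [add_comm]

lemma norm_ζ {α β : ℂ} (h : ‖α‖ ^ 2 + ‖β‖ ^ 2 = 1) (z : ℂ) :
    ‖ζa α β z‖ ^ 2 + ‖ζb α β z‖ ^ 2 = 1 := by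
  have hD := one_add_pos z
  unfold ζa ζb
  rw [norm_smul, norm_smul, mul_pow, mul_pow, Real.norm_eq_abs, sq_abs, inv_pow,
    Real.sq_sqrt hD.le, ← mul_add]
  have h1 : ‖α - z * (starRingEnd ℂ) β‖ ^ 2 + ‖β + z * (starRingEnd ℂ) α‖ ^ 2
      = 1 + ‖z‖ ^ 2 := by
    rw [Complex.sq_norm, Complex.sq_norm, Complex.normSq_apply, Complex.normSq_apply] at h
    rw [Complex.sq_norm, Complex.sq_norm, Complex.sq_norm, Complex.normSq_apply,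
      Complex.normSq_apply, Complex.normSq_apply]
    simp only [Complex.add_re, Complex.sub_re, Complex.mul_re, Complex.mul_im, Complex.conj_re,
      Complex.conj_im, Complex.add_im, Complex.sub_im]
    linear_combination (1 + z.re * z.re + z.im * z.im) * h
  rw [h1]
  exact inv_mul_cancel₀ hD.ne'

lemma fderiv_ζa (α β z c : ℂ) : fderiv ℝ (ζa α β) z c =
      (((-(inner ℝ z c) * (√(1 + ‖z‖ ^ 2))⁻¹ ^ 3 : ℝ) : ℂ)) * (α - z * (starRingEnd ℂ) β)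
        + (((√(1 + ‖z‖ ^ 2))⁻¹ : ℝ) : ℂ) * (-(c * (starRingEnd ℂ) β)) := by
  have h2 : HasFDerivAt (fun z : ℂ => z * (starRingEnd ℂ) β) _ z :=
    (hasFDerivAt_id (𝕜 := ℝ) z).mul_const ((starRingEnd ℂ) β)
  have h3 := h2.const_sub α
  have h4 := fderiv_rsmul h3 c
  change fderiv ℝ (fun z => ((√(1 + ‖z‖ ^ 2))⁻¹ : ℝ) • (α - z * (starRingEnd ℂ) β)) z c = _
  rw [h4]
  congr 2
  simp [mul_comm]

lemma fderiv_ζb (α β z c : ℂ) : fderiv ℝ (ζb α β) z c =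
      (((-(inner ℝ z c) * (√(1 + ‖z‖ ^ 2))⁻¹ ^ 3 : ℝ) : ℂ)) * (β + z * (starRingEnd ℂ) α)
        + (((√(1 + ‖z‖ ^ 2))⁻¹ : ℝ) : ℂ) * (c * (starRingEnd ℂ) α) := by
  have h2 : HasFDerivAt (fun z : ℂ => z * (starRingEnd ℂ) α) _ z :=
    (hasFDerivAt_id (𝕜 := ℝ) z).mul_const ((starRingEnd ℂ) α)
  have h3 := h2.const_add β
  have h4 := fderiv_rsmul h3 c
  change fderiv ℝ (fun z => ((√(1 + ‖z‖ ^ 2))⁻¹ : ℝ) • (β + z * (starRingEnd ℂ) α)) z c = _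
  rw [h4]
  congr 2
  simp [mul_comm]

lemma rinv_sq (z : ℂ) : (((√(1 + ‖z‖ ^ 2))⁻¹ : ℝ) : ℂ) ^ 2 * (1 + (starRingEnd ℂ) z * z) = 1 := by
  have hD := one_add_pos z
  have h1 : ((√(1 + ‖z‖ ^ 2))⁻¹) ^ 2 * (1 + ‖z‖ ^ 2) = 1 := by
    rw [inv_pow, Real.sq_sqrt hD.le]
    exact inv_mul_cancel₀ hD.ne'
  rw [conj_mul_norm]
  exact_mod_cast h1

lemma rinv_sq' (z : ℂ) : (((1 + ‖z‖ ^ 2)⁻¹ : ℝ) : ℂ) = (((√(1 + ‖z‖ ^ 2))⁻¹ : ℝ) : ℂ) ^ 2 := by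
  have hD := one_add_pos z
  have h1 : ((√(1 + ‖z‖ ^ 2))⁻¹) ^ 2 = (1 + ‖z‖ ^ 2)⁻¹ := by
    rw [inv_pow, Real.sq_sqrt hD.le]
  exact_mod_cast h1.symm

lemma conj_ζ_fderiv {α β : ℂ} (h : ‖α‖ ^ 2 + ‖β‖ ^ 2 = 1) (z c : ℂ) :
    (starRingEnd ℂ) (ζa α β z) * fderiv ℝ (ζa α β) z c
      + (starRingEnd ℂ) (ζb α β z) * fderiv ℝ (ζb α β) z c
      = Complex.I * (((1 + ‖z‖ ^ 2)⁻¹ * om z c : ℝ) : ℂ) := by
  have hc : (starRingEnd ℂ) α * α + (starRingEnd ℂ) β * β = 1 := by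
    rw [conj_mul_norm, conj_mul_norm, ← Complex.ofReal_add, h, Complex.ofReal_one]
  have hr := rinv_sq z
  have hz : (starRingEnd ℂ) z * c = ((inner ℝ z c : ℝ) : ℂ) + Complex.I * ((om z c : ℝ) : ℂ) := by
    apply Complex.ext
    · simp [om, Complex.inner]
      ring
    · simp [om, Complex.inner]
      ring
  have ho : (((1 + ‖z‖ ^ 2)⁻¹ * om z c : ℝ) : ℂ)
      = (((√(1 + ‖z‖ ^ 2))⁻¹ : ℝ) : ℂ) ^ 2 * ((om z c : ℝ) : ℂ) := by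
    rw [Complex.ofReal_mul, rinv_sq']
  rw [fderiv_ζa, fderiv_ζb, ho]
  unfold ζa ζb
  rw [Complex.real_smul, Complex.real_smul, map_mul, map_mul, Complex.conj_ofReal, map_sub,
    map_add, map_mul, map_mul, Complex.conj_conj, Complex.conj_conj, Complex.ofReal_mul,
    Complex.ofReal_neg, Complex.ofReal_pow]
  generalize (((√(1 + ‖z‖ ^ 2))⁻¹ : ℝ) : ℂ) = r at *
  generalize ((inner ℝ z c : ℝ) : ℂ) = I at *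
  generalize ((om z c : ℝ) : ℂ) = o at *
  generalize (starRingEnd ℂ) z = z' at *
  generalize (starRingEnd ℂ) α = α' at *
  generalize (starRingEnd ℂ) β = β' at *
  linear_combination (-I * r ^ 2 + r ^ 2 * c * z') * hc
    + (-I * r ^ 2 * (α' * α + β' * β)) * hr + r ^ 2 * hz

lemma wedge_ζ_fderiv {α β : ℂ} (h : ‖α‖ ^ 2 + ‖β‖ ^ 2 = 1) (z c : ℂ) :
    ζa α β z * fderiv ℝ (ζb α β) z c - ζb α β z * fderiv ℝ (ζa α β) z c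
      = ((1 + ‖z‖ ^ 2)⁻¹ : ℝ) • c := by
  have hc : (starRingEnd ℂ) α * α + (starRingEnd ℂ) β * β = 1 := by
    rw [conj_mul_norm, conj_mul_norm, ← Complex.ofReal_add, h, Complex.ofReal_one]
  rw [fderiv_ζa, fderiv_ζb, Complex.real_smul, rinv_sq']
  unfold ζa ζb
  rw [Complex.real_smul, Complex.real_smul]
  generalize (((√(1 + ‖z‖ ^ 2))⁻¹ : ℝ) : ℂ) = r at *
  linear_combination (r ^ 2 * c) * hc

end Pool.Agent.H86.Anco
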