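import Pool.Agent.H86.Anco.Space

/-!
# Module PHIKAP: elementary properties of the parametrisation

Everything here is explicit algebra in the coordinates `(c, d, v₀, v₁, x, s)`.

Facts: write `n = 1 + ‖z‖²`, `ρ = 1 + ‖w‖² + ‖x‖²`; `‖2z/n‖² + ((2-n)/n)² = 1`; on the carrier
`1 + ‖c/(1+d)‖² = 2/(1+d)` because `‖c‖² = 1 - d²`; `1 + ‖w‖² + ‖x'‖² = 2/(1+s)` for
`(w, x') = (v₀ √(2/(1+d)) / (1+s), x/(1+s))`, because on the carrier
`‖v₀‖² * (2/(1+d)) = ‖v₀‖² + ‖v₁‖²` (as `v₁ = c v₀/(1+d)`), which equals `1 - ‖x‖² - s²`.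
`sw` and `rf` are commuting involutions that preserve the carrier.
For a point of the carrier, `d ≥ 0` or `-d ≥ 0`, `s ≥ 0` or `-s ≥ 0`.
-/

open scoped Manifold ContDiff Bundle Topology

noncomputable section

namespace Pool.Agent.H86.Anco

variable {K : ℕ}

lemma aux_n_pos (z : ℂ) : 0 < 1 + ‖z‖ ^ 2 := by positivity

lemma aux_r_pos (w : ℂ) (x : F K) : 0 < 1 + ‖w‖ ^ 2 + ‖x‖ ^ 2 := by positivity

lemma Phi_mem (y : E K) : Phi y ∈ carrier K := by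
  obtain ⟨z, w, x⟩ := y
  have hn : (1 + ‖z‖ ^ 2) ≠ 0 := (aux_n_pos z).ne'
  have hr : (1 + ‖w‖ ^ 2 + ‖x‖ ^ 2) ≠ 0 := (aux_r_pos w x).ne'
  have hs : √(1 + ‖z‖ ^ 2) ^ 2 = 1 + ‖z‖ ^ 2 := Real.sq_sqrt (aux_n_pos z).le
  have hs0 : √(1 + ‖z‖ ^ 2) ≠ 0 := (Real.sqrt_pos.2 (aux_n_pos z)).ne'
  have hzz : (starRingEnd ℂ) z * z = ((‖z‖ ^ 2 : ℝ) : ℂ) := by
    rw [mul_comm, Complex.mul_conj, Complex.normSq_eq_norm_sq]
  refine ⟨?_, ?_, ?_, ?_⟩
  · simp only [Phi, pc_apply, pd_apply, norm_smul, Real.norm_eq_abs, mul_pow, sq_abs]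
    field_simp
    ring
  · simp only [Phi, pc_apply, pd_apply, pv0_apply, pv1_apply, Complex.real_smul]
    have : (1 + (1 - ‖z‖ ^ 2) / (1 + ‖z‖ ^ 2)) = 2 / (1 + ‖z‖ ^ 2) := by
      field_simp; ring
    rw [this]
    ring
  · simp only [Phi, pc_apply, pd_apply, pv0_apply, pv1_apply, Complex.real_smul, map_mul,
      Complex.conj_ofReal]
    have : (1 - (1 - ‖z‖ ^ 2) / (1 + ‖z‖ ^ 2)) = 2 / (1 + ‖z‖ ^ 2) * ‖z‖ ^ 2 := by
      field_simp; ring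
    rw [this, Complex.ofReal_mul, ← hzz]
    ring
  · simp only [Phi, pv0_apply, pv1_apply, px_apply, ps_apply, norm_smul, norm_mul,
      Real.norm_eq_abs, mul_pow, sq_abs, div_pow, hs]
    field_simp
    ring

lemma pd_Phi_eq (y : E K) : 1 + pd (Phi y) = 2 / (1 + ‖y.1‖ ^ 2) := by
  obtain ⟨z, w, x⟩ := y
  have hn : (1 + ‖z‖ ^ 2) ≠ 0 := (aux_n_pos z).ne'
  simp only [Phi, pd_apply]
  field_simp
  ring

lemma ps_Phi_eq (y : E K) : 1 + ps (Phi y) = 2 / (1 + ‖y.2.1‖ ^ 2 + ‖y.2.2‖ ^ 2) := by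
  obtain ⟨z, w, x⟩ := y
  have hr : (1 + ‖w‖ ^ 2 + ‖x‖ ^ 2) ≠ 0 := (aux_r_pos w x).ne'
  simp only [Phi, ps_apply]
  field_simp
  ring

lemma pd_Phi (y : E K) : -1 < pd (Phi y) := by
  have h := pd_Phi_eq y
  have h2 : 0 < 2 / (1 + ‖y.1‖ ^ 2) := by positivity
  linarith

lemma ps_Phi (y : E K) : -1 < ps (Phi y) := by
  have h := ps_Phi_eq y
  have h2 : 0 < 2 / (1 + ‖y.2.1‖ ^ 2 + ‖y.2.2‖ ^ 2) := by positivity
  linarith

lemma kap_Phi (y : E K) : kap (Phi y) = y := by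
  have h1 := pd_Phi_eq y
  have h2 := ps_Phi_eq y
  obtain ⟨z, w, x⟩ := y
  simp only at h1 h2
  have hn : (1 + ‖z‖ ^ 2) ≠ 0 := (aux_n_pos z).ne'
  have hr : (1 + ‖w‖ ^ 2 + ‖x‖ ^ 2) ≠ 0 := (aux_r_pos w x).ne'
  have hs0 : √(1 + ‖z‖ ^ 2) ≠ 0 := (Real.sqrt_pos.2 (aux_n_pos z)).ne'
  have e1 : 2 / (2 / (1 + ‖z‖ ^ 2)) = 1 + ‖z‖ ^ 2 := by field_simp
  unfold kap
  rw [h1, h2, e1]
  simp only [Phi, pc_apply, pv0_apply, px_apply, smul_smul]
  refine Prod.ext ?_ (Prod.ext ?_ ?_)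
  · simp only
    rw [show (1 / (2 / (1 + ‖z‖ ^ 2)) * (2 / (1 + ‖z‖ ^ 2))) = (1 : ℝ) by field_simp, one_smul]
  · simp only
    rw [show (√(1 + ‖z‖ ^ 2) / (2 / (1 + ‖w‖ ^ 2 + ‖x‖ ^ 2)) *
      (2 / (1 + ‖w‖ ^ 2 + ‖x‖ ^ 2) / √(1 + ‖z‖ ^ 2))) = (1 : ℝ) by field_simp, one_smul]
  · simp only
    rw [show (1 / (2 / (1 + ‖w‖ ^ 2 + ‖x‖ ^ 2)) *
      (2 / (1 + ‖w‖ ^ 2 + ‖x‖ ^ 2))) = (1 : ℝ) by field_simp, one_smul]

/-- `1 + ‖c/(1+d)‖² = 2/(1+d)` on the carrier. -/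
lemma aux_kap1 {p : V K} (hp : p ∈ carrier K) (hd : -1 < pd p) :
    1 + ‖(kap p).1‖ ^ 2 = 2 / (1 + pd p) := by
  obtain ⟨h1, -, -, -⟩ := hp
  have hd' : 0 < 1 + pd p := by linarith
  have : ‖(kap p).1‖ ^ 2 = (1 / (1 + pd p)) ^ 2 * ‖pc p‖ ^ 2 := by
    simp only [kap, norm_smul, Real.norm_eq_abs, mul_pow, sq_abs]
  rw [this]
  have h1' : ‖pc p‖ ^ 2 = 1 - pd p ^ 2 := by linarith
  rw [h1']
  field_simp
  ring

lemma aux_v1 {p : V K} (hp : p ∈ carrier K) (hd : -1 < pd p) :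
    pv1 p = (1 / (1 + pd p) : ℝ) • (pc p * pv0 p) := by
  obtain ⟨-, h2, -, -⟩ := hp
  have hd' : (0 : ℝ) < 1 + pd p := by linarith
  rw [← h2, Complex.real_smul, ← mul_assoc, ← Complex.ofReal_mul]
  rw [show (1 / (1 + pd p) * (1 + pd p)) = (1 : ℝ) by field_simp]
  simp

lemma aux_v01 {p : V K} (hp : p ∈ carrier K) (hd : -1 < pd p) :
    ‖pv0 p‖ ^ 2 * (2 / (1 + pd p)) = ‖pv0 p‖ ^ 2 + ‖pv1 p‖ ^ 2 := by
  have h := aux_v1 hp hd
  obtain ⟨h1, -, -, -⟩ := hp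
  have hd' : (0 : ℝ) < 1 + pd p := by linarith
  rw [h, norm_smul, norm_mul, Real.norm_eq_abs, mul_pow, mul_pow, sq_abs]
  have h1' : ‖pc p‖ ^ 2 = 1 - pd p ^ 2 := by linarith
  rw [h1']
  field_simp
  ring

lemma aux_kap2 {p : V K} (hp : p ∈ carrier K) (hd : -1 < pd p) (hs : -1 < ps p) :
    1 + ‖(kap p).2.1‖ ^ 2 + ‖(kap p).2.2‖ ^ 2 = 2 / (1 + ps p) := by
  have h := aux_v01 hp hd
  obtain ⟨h1, -, -, h4⟩ := hp
  have hd' : (0 : ℝ) < 1 + pd p := by linarith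
  have hs' : (0 : ℝ) < 1 + ps p := by linarith
  have hq : √(2 / (1 + pd p)) ^ 2 = 2 / (1 + pd p) := Real.sq_sqrt (by positivity)
  have e1 : ‖(kap p).2.1‖ ^ 2 = (1 / (1 + ps p)) ^ 2 * (‖pv0 p‖ ^ 2 * (2 / (1 + pd p))) := by
    simp only [kap, norm_smul, Real.norm_eq_abs, mul_pow, sq_abs, div_pow, hq]
    ring
  have e2 : ‖(kap p).2.2‖ ^ 2 = (1 / (1 + ps p)) ^ 2 * ‖px p‖ ^ 2 := by
    simp only [kap, norm_smul, Real.norm_eq_abs, mul_pow, sq_abs]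
  rw [e1, e2, h]
  have h4' : ‖pv0 p‖ ^ 2 + ‖pv1 p‖ ^ 2 = 1 - ‖px p‖ ^ 2 - ps p ^ 2 := by linarith
  rw [h4']
  field_simp
  ring

lemma Phi_kap {p : V K} (hp : p ∈ carrier K) (hd : -1 < pd p) (hs : -1 < ps p) :
    Phi (kap p) = p := by
  have k1 := aux_kap1 hp hd
  have k2 := aux_kap2 hp hd hs
  have hv1 := aux_v1 hp hd
  have hd' : (0 : ℝ) < 1 + pd p := by linarith
  have hs' : (0 : ℝ) < 1 + ps p := by linarith
  have hq0 : √(2 / (1 + pd p)) ≠ 0 := (Real.sqrt_pos.2 (by positivity)).ne'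
  have k1' : ‖(kap p).1‖ ^ 2 = 2 / (1 + pd p) - 1 := by linarith
  have k2' : (1 - ‖(kap p).2.1‖ ^ 2 - ‖(kap p).2.2‖ ^ 2) = 2 - 2 / (1 + ps p) := by linarith
  unfold Phi
  rw [k1, k2, k1', k2']
  obtain ⟨c, d, v0, v1, x, s⟩ := p
  simp only [pd_apply, ps_apply, pc_apply, pv0_apply, pv1_apply] at hd' hs' hq0 hv1 ⊢
  refine Prod.ext ?_ (Prod.ext ?_ (Prod.ext ?_ (Prod.ext ?_ (Prod.ext ?_ ?_))))
  · simp only [kap, pc_apply, pd_apply, smul_smul]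
    rw [show (2 / (2 / (1 + d)) * (1 / (1 + d))) = (1 : ℝ) by field_simp, one_smul]
  · simp only
    field_simp
    ring
  · simp only [kap, pv0_apply, pd_apply, ps_apply, smul_smul]
    rw [show (2 / (2 / (1 + s)) / √(2 / (1 + d)) * (√(2 / (1 + d)) / (1 + s))) = (1 : ℝ) by
      field_simp, one_smul]
  · simp only [kap, pv0_apply, pd_apply, ps_apply, pc_apply, smul_mul_smul_comm, smul_smul]
    rw [hv1, mul_comm c v0]
    congr 1
    field_simp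
  · simp only [kap, px_apply, ps_apply, smul_smul]
    rw [show (2 / (2 / (1 + s)) * (1 / (1 + s))) = (1 : ℝ) by field_simp, one_smul]
  · simp only
    field_simp
    ring

lemma contDiff_Phi : ContDiff ℝ ∞ (Phi : E K → V K) := by
  have hz : ContDiff ℝ ∞ (fun y : E K => y.1) := contDiff_fst
  have hw : ContDiff ℝ ∞ (fun y : E K => y.2.1) := contDiff_fst.comp contDiff_snd
  have hx : ContDiff ℝ ∞ (fun y : E K => y.2.2) := contDiff_snd.comp contDiff_snd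
  have hn : ContDiff ℝ ∞ (fun y : E K => 1 + ‖y.1‖ ^ 2) := contDiff_const.add (hz.norm_sq ℝ)
  have hr : ContDiff ℝ ∞ (fun y : E K => 1 + ‖y.2.1‖ ^ 2 + ‖y.2.2‖ ^ 2) :=
    (contDiff_const.add (hw.norm_sq ℝ)).add (hx.norm_sq ℝ)
  have hn0 : ∀ y : E K, 1 + ‖y.1‖ ^ 2 ≠ 0 := fun y => (aux_n_pos y.1).ne'
  have hr0 : ∀ y : E K, 1 + ‖y.2.1‖ ^ 2 + ‖y.2.2‖ ^ 2 ≠ 0 := fun y => (aux_r_pos y.2.1 y.2.2).ne'
  have hsq : ContDiff ℝ ∞ (fun y : E K => √(1 + ‖y.1‖ ^ 2)) := hn.sqrt hn0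
  have hsq0 : ∀ y : E K, √(1 + ‖y.1‖ ^ 2) ≠ 0 := fun y => (Real.sqrt_pos.2 (aux_n_pos y.1)).ne'
  have h2n : ContDiff ℝ ∞ (fun y : E K => 2 / (1 + ‖y.1‖ ^ 2)) := contDiff_const.div hn hn0
  have h2r : ContDiff ℝ ∞ (fun y : E K => 2 / (1 + ‖y.2.1‖ ^ 2 + ‖y.2.2‖ ^ 2)) :=
    contDiff_const.div hr hr0
  have hk : ContDiff ℝ ∞ (fun y : E K => 2 / (1 + ‖y.2.1‖ ^ 2 + ‖y.2.2‖ ^ 2) / √(1 + ‖y.1‖ ^ 2)) :=
    h2r.div hsq hsq0
  unfold Phi
  refine (h2n.smul hz).prodMk (ContDiff.prodMk ?_ (ContDiff.prodMk ?_ (ContDiff.prodMk ?_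
    (ContDiff.prodMk ?_ ?_))))
  · exact (contDiff_const.sub (hz.norm_sq ℝ)).div hn hn0
  · exact hk.smul hw
  · exact hk.smul (hw.mul hz)
  · exact h2r.smul hx
  · exact ((contDiff_const.sub (hw.norm_sq ℝ)).sub (hx.norm_sq ℝ)).div hr hr0

lemma contDiffOn_kap : ContDiffOn ℝ ∞ (kap : V K → E K) {p | -1 < pd p ∧ -1 < ps p} := by
  have hd : ContDiffOn ℝ ∞ (fun p : V K => 1 + pd p) {p | -1 < pd p ∧ -1 < ps p} :=
    (contDiff_const.add pd.contDiff).contDiffOn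
  have hs : ContDiffOn ℝ ∞ (fun p : V K => 1 + ps p) {p | -1 < pd p ∧ -1 < ps p} :=
    (contDiff_const.add ps.contDiff).contDiffOn
  have hd0 : ∀ p ∈ {p : V K | -1 < pd p ∧ -1 < ps p}, 1 + pd p ≠ 0 := fun p hp => by
    have := hp.1; linarith [this, hp.1]
  have hs0 : ∀ p ∈ {p : V K | -1 < pd p ∧ -1 < ps p}, 1 + ps p ≠ 0 := fun p hp => by
    have := hp.2; linarith [this, hp.2]
  have hq : ContDiffOn ℝ ∞ (fun p : V K => √(2 / (1 + pd p))) {p | -1 < pd p ∧ -1 < ps p} := by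
    refine (contDiffOn_const.div hd hd0).sqrt ?_
    intro p hp
    have h1 : 0 < 1 + pd p := by have := hp.1; linarith
    exact (by positivity : (0:ℝ) < 2 / (1 + pd p)).ne'
  unfold kap
  refine ContDiffOn.prodMk ?_ (ContDiffOn.prodMk ?_ ?_)
  · exact (contDiffOn_const.div hd hd0).smul pc.contDiff.contDiffOn
  · exact (hq.div hs hs0).smul pv0.contDiff.contDiffOn
  · exact (contDiffOn_const.div hs hs0).smul px.contDiff.contDiffOn

lemma isOpen_kapDom : IsOpen {p : V K | -1 < pd p ∧ -1 < ps p} :=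
  (isOpen_lt continuous_const pd.continuous).inter (isOpen_lt continuous_const ps.continuous)

/-- From `kap ∘ Phi = id` and the chain rule. -/
lemma fderiv_Phi_injective (y : E K) : Function.Injective (fderiv ℝ Phi y) := by
  have hPhi : DifferentiableAt ℝ (Phi : E K → V K) y :=
    contDiff_Phi.contDiffAt.differentiableAt (by simp)
  have hkap : DifferentiableAt ℝ (kap : V K → E K) (Phi y) :=
    (contDiffOn_kap.contDiffAt (isOpen_kapDom.mem_nhds ⟨pd_Phi y, ps_Phi y⟩)).differentiableAt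
      (by simp)
  have hcomp : (kap ∘ Phi : E K → E K) = id := funext kap_Phi
  have h : (fderiv ℝ kap (Phi y)).comp (fderiv ℝ Phi y) = ContinuousLinearMap.id ℝ (E K) := by
    rw [← fderiv_comp y hkap hPhi, hcomp, fderiv_id]
  intro a b hab
  have ha : (fderiv ℝ kap (Phi y)) (fderiv ℝ Phi y a) = a := by
    have := congrArg (fun L => L a) h
    simpa using this
  have hb : (fderiv ℝ kap (Phi y)) (fderiv ℝ Phi y b) = b := by
    have := congrArg (fun L => L b) h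
    simpa using this
  rw [← ha, ← hb, hab]

@[simp] lemma sw_apply (c : ℂ) (d : ℝ) (v0 v1 : ℂ) (x : F K) (s : ℝ) :
    sw ((c, d, v0, v1, x, s) : V K) = ((starRingEnd ℂ) c, -d, v1, v0, x, s) := rfl

@[simp] lemma rf_apply (c : ℂ) (d : ℝ) (v0 v1 : ℂ) (x : F K) (s : ℝ) :
    rf ((c, d, v0, v1, x, s) : V K) = (c, d, v0, v1, x, -s) := rfl

lemma sym_sym (i : Bool × Bool) (p : V K) : sym i (sym i p) = p := by
  obtain ⟨c, d, v0, v1, x, s⟩ := p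
  obtain ⟨a, b⟩ := i
  cases a <;> cases b <;> simp [sym]

lemma sw_mem {p : V K} (hp : p ∈ carrier K) : sw p ∈ carrier K := by
  obtain ⟨c, d, v0, v1, x, s⟩ := p
  obtain ⟨h1, h2, h3, h4⟩ := hp
  simp only [pc_apply, pd_apply, pv0_apply, pv1_apply, px_apply, ps_apply] at h1 h2 h3 h4
  refine ⟨?_, ?_, ?_, ?_⟩
  · simpa [sw_apply] using h1
  · simp only [sw_apply, pc_apply, pd_apply, pv0_apply, pv1_apply, px_apply, ps_apply]
    rw [← h3]; push_cast; ring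
  · simp only [sw_apply, pc_apply, pd_apply, pv0_apply, pv1_apply, px_apply, ps_apply,
      Complex.conj_conj]
    rw [← h2]; push_cast; ring
  · simp only [sw_apply, pc_apply, pd_apply, pv0_apply, pv1_apply, px_apply, ps_apply]
    linarith

lemma rf_mem {p : V K} (hp : p ∈ carrier K) : rf p ∈ carrier K := by
  obtain ⟨c, d, v0, v1, x, s⟩ := p
  obtain ⟨h1, h2, h3, h4⟩ := hp
  simp only [pc_apply, pd_apply, pv0_apply, pv1_apply, px_apply, ps_apply] at h1 h2 h3 h4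
  refine ⟨?_, ?_, ?_, ?_⟩
  · simpa using h1
  · simpa using h2
  · simpa using h3
  · simpa using h4

lemma sym_mem (i : Bool × Bool) {p : V K} (hp : p ∈ carrier K) : sym i p ∈ carrier K := by
  obtain ⟨a, b⟩ := i
  cases a <;> cases b
  · simpa [sym] using hp
  · simpa [sym] using rf_mem hp
  · simpa [sym] using sw_mem hp
  · simpa [sym] using sw_mem (rf_mem hp)

/-- The index of the preferred chart at `p`. -/
def idx (p : V K) : Bool × Bool := (decide (pd p < 0), decide (ps p < 0))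

lemma pd_sym_idx (p : V K) : -1 < pd (sym (idx p) p) := by
  obtain ⟨c, d, v0, v1, x, s⟩ := p
  simp only [sym, idx, pd_apply, ps_apply]
  by_cases h1 : d < 0 <;> by_cases h2 : s < 0 <;> simp [h1, h2] <;> linarith

lemma ps_sym_idx (p : V K) : -1 < ps (sym (idx p) p) := by
  obtain ⟨c, d, v0, v1, x, s⟩ := p
  simp only [sym, idx, pd_apply, ps_apply]
  by_cases h1 : d < 0 <;> by_cases h2 : s < 0 <;> simp [h1, h2] <;> linarith

/-- The fibre coordinate `(v₀, v₁)` vanishes exactly when `w = 0`. -/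
lemma pv_Phi_eq_zero_iff (y : E K) : (pv0 (Phi y) = 0 ∧ pv1 (Phi y) = 0) ↔ y.2.1 = 0 := by
  obtain ⟨z, w, x⟩ := y
  have hk : (2 / (1 + ‖w‖ ^ 2 + ‖x‖ ^ 2) / √(1 + ‖z‖ ^ 2) : ℝ) ≠ 0 := by
    have := aux_n_pos z
    have := aux_r_pos w x
    positivity
  simp only [Phi, pv0_apply, pv1_apply]
  constructor
  · rintro ⟨h, -⟩
    exact (smul_eq_zero.1 h).resolve_left hk
  · rintro h
    subst h
    simp

lemma isClosed_carrier : IsClosed (carrier K) := by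
  have e1 : IsClosed {p : V K | ‖pc p‖ ^ 2 + pd p ^ 2 = 1} :=
    isClosed_eq (by fun_prop) (by fun_prop)
  have e2 : IsClosed {p : V K | ((1 + pd p : ℝ) : ℂ) * pv1 p = pc p * pv0 p} :=
    isClosed_eq (by fun_prop) (by fun_prop)
  have e3 : IsClosed {p : V K | ((1 - pd p : ℝ) : ℂ) * pv0 p = (starRingEnd ℂ) (pc p) * pv1 p} :=
    isClosed_eq (by fun_prop) (by fun_prop)
  have e4 : IsClosed {p : V K | ‖pv0 p‖ ^ 2 + ‖pv1 p‖ ^ 2 + ‖px p‖ ^ 2 + ps p ^ 2 = 1} :=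
    isClosed_eq (by fun_prop) (by fun_prop)
  exact e1.inter (e2.inter (e3.inter e4))

lemma isCompact_carrier : IsCompact (carrier K) := by
  refine Metric.isCompact_of_isClosed_isBounded isClosed_carrier ?_
  refine (Metric.isBounded_iff_subset_closedBall (0 : V K)).2 ⟨1, ?_⟩
  rintro ⟨c, d, v0, v1, x, s⟩ ⟨h1, -, -, h4⟩
  simp only [pc_apply, pd_apply, pv0_apply, pv1_apply, px_apply, ps_apply] at h1 h4
  rw [mem_closedBall_zero_iff]
  have n0 := norm_nonneg c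
  have n1 := norm_nonneg v0
  have n2 := norm_nonneg v1
  have n3 := norm_nonneg x
  have b1 : ‖c‖ ≤ 1 := by nlinarith [sq_nonneg d]
  have b2 : ‖d‖ ≤ 1 := by rw [Real.norm_eq_abs, ← abs_one, ← sq_le_sq]; nlinarith
  have b3 : ‖v0‖ ≤ 1 := by nlinarith [sq_nonneg s]
  have b4 : ‖v1‖ ≤ 1 := by nlinarith [sq_nonneg s]
  have b5 : ‖x‖ ≤ 1 := by nlinarith [sq_nonneg s]
  have b6 : ‖s‖ ≤ 1 := by rw [Real.norm_eq_abs, ← abs_one, ← sq_le_sq]; nlinarith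
  simp only [Prod.norm_def]
  exact max_le b1 (max_le b2 (max_le b3 (max_le b4 (max_le b5 b6))))

end Pool.Agent.H86.Anco
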