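import Pool.Agent.H86.Anco.CenterJet
import Pool.Agent.H86.Anco.MovedA
import Pool.Agent.H86.Anco.MovedB
import Pool.Agent.H86.Anco.PhiKap

/-!
# Module MOVED-C: adapted coordinates around every point with `v ≠ 0`

`Psi (ψ, ξ, z) = Bpt (ζa z) (ζb z) (S(ξ) e^{iψ}) (xf ξ) (sf ξ)`.

`Psi_pull`: by the chain rule (`hasFDerivAt_Bpt`) and `Gab_Btan`, with
`ν = S e^{iψ}`, `ν' = e^{iψ}(S' + i S ψ')`, `A = om z z' / (1+|z|²)`, so that
`ν' + iAν = e^{iψ}(S' + i S (ψ' + A))` and `Af z a = ψ' + A`: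
`⟪·,·⟫ = S'_a S'_b + S² Af_a Af_b`, `Im(conj ν (…)) = S² Af`, `δ = z'/(1+|z|²)`; together with
`sphere_metric` this is `hmet_apply` since `S² - S⁴/(t²+S²) = t²S²/(t²+S²)` and
`S² + (2 - 2t√(t²+S²) - S²) = 2 - 2t√(t²+S²)`.

`exists_coord`: `φ = kap ∘ Psi`.  `Psi 0 = Phi y` by `exists_Bpt` (applied to `q = Phi y`), near `0`
`-1 < pd`, `-1 < ps` (continuity, `pd_Phi`, `ps_Phi`), so `Phi ∘ φ = Psi` near `0` by `Phi_kap`.
Hence `gPhi t (φ u) (Dφ a) (Dφ b) = G t (Psi u) (DPsi a) (DPsi b) = hmet t S₀ p u a b`.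
`Dφ` at `0` is injective because `hmet t S₀ p 0` is positive definite (`isMetricAt_hmet` or
`hmet_zero`), and `finrank (W (K+1)) = K + 4 = finrank (E K)`.
-/

open scoped Manifold ContDiff Bundle Topology

noncomputable section

namespace Pool.Agent.H86.Anco

variable {K k : ℕ}

/-- The adapted parametrisation. -/
def Psi (α β : ℂ) (x₀ : F K) (s₀ S₀ : ℝ) (jx : F k →L[ℝ] F K) (js : F k →L[ℝ] ℝ) (p : F k)
    (u : W k) : V K :=
  Bpt (ζa α β u.2.2) (ζb α β u.2.2) ((Sf S₀ p u.2.1 : ℂ) * Complex.exp (Complex.I * u.1))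
    (xf x₀ jx u.2.1) (sf s₀ js u.2.1)

section aux

variable (α β : ℂ) (x₀ : F K) (s₀ S₀ : ℝ) (jx : F k →L[ℝ] F K) (js : F k →L[ℝ] ℝ) (p : F k)

lemma cd_ζa : ContDiff ℝ ∞ (fun u : W k => ζa α β u.2.2) :=
  (contDiff_ζa α β).comp (qz (k := k)).contDiff

lemma cd_ζb : ContDiff ℝ ∞ (fun u : W k => ζb α β u.2.2) :=
  (contDiff_ζb α β).comp (qz (k := k)).contDiff

lemma cd_ν : ContDiff ℝ ∞
    (fun u : W k => (Sf S₀ p u.2.1 : ℂ) * Complex.exp (Complex.I * u.1)) := by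
  have hS : ContDiff ℝ ∞ (fun u : W k => (Sf S₀ p u.2.1 : ℂ)) :=
    Complex.ofRealCLM.contDiff.comp ((contDiff_Sf S₀ p).comp (qξ (k := k)).contDiff)
  have he : ContDiff ℝ ∞ (fun u : W k => Complex.exp (Complex.I * u.1)) := by
    apply ContDiff.cexp
    exact contDiff_const.mul (Complex.ofRealCLM.contDiff.comp (qψ (k := k)).contDiff)
  exact hS.mul he

lemma cd_xf : ContDiff ℝ ∞ (fun u : W k => xf x₀ jx u.2.1) :=
  (contDiff_xf x₀ jx).comp (qξ (k := k)).contDiff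

lemma cd_sf : ContDiff ℝ ∞ (fun u : W k => sf s₀ js u.2.1) :=
  (contDiff_sf s₀ js).comp (qξ (k := k)).contDiff

end aux

lemma contDiff_Psi (α β : ℂ) (x₀ : F K) (s₀ S₀ : ℝ) (jx : F k →L[ℝ] F K) (js : F k →L[ℝ] ℝ)
    (p : F k) : ContDiff ℝ ∞ (Psi α β x₀ s₀ S₀ jx js p) := by
  have ha := cd_ζa (k := k) α β
  have hb := cd_ζb (k := k) α β
  have hν := cd_ν S₀ p
  have hx := cd_xf x₀ jx
  have hs := cd_sf s₀ js
  have hca : ContDiff ℝ ∞ (fun u : W k => (starRingEnd ℂ) (ζa α β u.2.2)) :=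
    Complex.conjCLE.contDiff.comp ha
  unfold Psi Bpt
  refine ContDiff.prodMk ?_ (ContDiff.prodMk ?_ (ContDiff.prodMk ?_ (ContDiff.prodMk ?_
    (ContDiff.prodMk hx hs))))
  · exact (contDiff_const.mul hb).mul hca
  · exact (ha.norm_sq ℝ).sub (hb.norm_sq ℝ)
  · exact hν.mul ha
  · exact hν.mul hb

lemma norm_exp_I (r : ℝ) : ‖Complex.exp (Complex.I * r)‖ = 1 := by
  rw [mul_comm]; exact Complex.norm_exp_ofReal_mul_I r

lemma Psi_mem {α β : ℂ} (hαβ : ‖α‖ ^ 2 + ‖β‖ ^ 2 = 1) {x₀ : F K} {s₀ S₀ : ℝ}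
    (h : ‖x₀‖ ^ 2 + s₀ ^ 2 + S₀ ^ 2 = 1)
    {jx : F k →L[ℝ] F K} {js : F k →L[ℝ] ℝ} {p : F k}
    (h1 : ∀ ξ η, inner ℝ (jx ξ) (jx η) + js ξ * js η + inner ℝ p ξ * inner ℝ p η = inner ℝ ξ η)
    (h2 : ∀ ξ, inner ℝ x₀ (jx ξ) + s₀ * js ξ + S₀ * inner ℝ p ξ = 0) (u : W k) :
    Psi α β x₀ s₀ S₀ jx js p u ∈ carrier K := by
  refine Bpt_mem (norm_ζ hαβ _) ?_
  rw [norm_mul, norm_exp_I, mul_one, Complex.norm_real, Real.norm_eq_abs, sq_abs]
  have := sphere_norm h h1 h2 u.2.1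
  linarith

lemma fderiv_comp_qz {f : ℂ → ℂ} (hf : ContDiff ℝ ∞ f) (u a : W k) :
    fderiv ℝ (fun u : W k => f u.2.2) u a = fderiv ℝ f u.2.2 a.2.2 := by
  have h := ((hf.differentiable (by norm_num)) u.2.2).hasFDerivAt.comp u
    (qz (k := k)).hasFDerivAt
  have h' : HasFDerivAt (fun u : W k => f u.2.2) ((fderiv ℝ f u.2.2).comp (qz (k := k))) u := h
  rw [h'.fderiv]; rfl

lemma fderiv_comp_qξ {Z : Type*} [NormedAddCommGroup Z] [NormedSpace ℝ Z] {f : F k → Z}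
    (hf : ContDiff ℝ ∞ f) (u a : W k) :
    fderiv ℝ (fun u : W k => f u.2.1) u a = fderiv ℝ f u.2.1 a.2.1 := by
  have h := ((hf.differentiable (by norm_num)) u.2.1).hasFDerivAt.comp u
    (qξ (k := k)).hasFDerivAt
  have h' : HasFDerivAt (fun u : W k => f u.2.1) ((fderiv ℝ f u.2.1).comp (qξ (k := k))) u := h
  rw [h'.fderiv]; rfl

lemma fderiv_ν (S₀ : ℝ) (p : F k) (u a : W k) :
    fderiv ℝ (fun u : W k => (Sf S₀ p u.2.1 : ℂ) * Complex.exp (Complex.I * u.1)) u a =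
      Complex.exp (Complex.I * u.1) * ((fderiv ℝ (Sf S₀ p) u.2.1 a.2.1 : ℂ)
        + Complex.I * (Sf S₀ p u.2.1 * a.1)) := by
  have hS : HasFDerivAt (fun u : W k => (Sf S₀ p u.2.1 : ℂ))
      (Complex.ofRealCLM.comp ((fderiv ℝ (Sf S₀ p) u.2.1).comp (qξ (k := k)))) u := by
    have h := (((contDiff_Sf S₀ p).differentiable (by norm_num)) u.2.1).hasFDerivAt.comp u
      (qξ (k := k)).hasFDerivAt
    exact Complex.ofRealCLM.hasFDerivAt.comp u h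
  have he : HasFDerivAt (fun u : W k => Complex.exp (Complex.I * u.1))
      (Complex.exp (Complex.I * u.1) • (Complex.I • (Complex.ofRealCLM.comp (qψ (k := k))))) u := by
    have h1 : HasFDerivAt (fun u : W k => Complex.I * (u.1 : ℂ))
        (Complex.I • (Complex.ofRealCLM.comp (qψ (k := k)))) u := by
      have h2 : HasFDerivAt (fun u : W k => (u.1 : ℂ)) (Complex.ofRealCLM.comp (qψ (k := k))) u :=
        Complex.ofRealCLM.hasFDerivAt.comp u (qψ (k := k)).hasFDerivAt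
      exact h2.const_mul Complex.I
    exact h1.cexp
  have h : HasFDerivAt
      (fun u : W k => (Sf S₀ p u.2.1 : ℂ) * Complex.exp (Complex.I * u.1)) _ u := hS.mul he
  rw [h.fderiv]
  simp only [_root_.add_apply, _root_.smul_apply,
    ContinuousLinearMap.comp_apply, Complex.ofRealCLM_apply, smul_eq_mul, qξ_apply, qψ_apply]
  ring

lemma inner_exp_mul (r : ℝ) (P Q : ℂ) :
    inner ℝ (Complex.exp (Complex.I * r) * P) (Complex.exp (Complex.I * r) * Q) = inner ℝ P Q := by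
  have h : (starRingEnd ℂ) (Complex.exp (Complex.I * r)) * Complex.exp (Complex.I * r) = 1 := by
    rw [← Complex.normSq_eq_conj_mul_self, Complex.normSq_eq_norm_sq, norm_exp_I]; norm_num
  rw [Complex.inner, Complex.inner, map_mul]
  congr 1
  linear_combination ((starRingEnd ℂ) P * Q) * h

lemma conj_exp_mul (r S : ℝ) (P : ℂ) :
    (starRingEnd ℂ) ((S : ℂ) * Complex.exp (Complex.I * r)) * (Complex.exp (Complex.I * r) * P)
      = S * P := by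
  have h : (starRingEnd ℂ) (Complex.exp (Complex.I * r)) * Complex.exp (Complex.I * r) = 1 := by
    rw [← Complex.normSq_eq_conj_mul_self, Complex.normSq_eq_norm_sq, norm_exp_I]; norm_num
  rw [map_mul, Complex.conj_ofReal]
  linear_combination (S * P) * h

lemma Af_eq (z : ℂ) (a : W k) : Af z a = a.1 + (1 + ‖z‖ ^ 2)⁻¹ * om z a.2.2 := by
  simp only [Af, _root_.add_apply, _root_.smul_apply,
    ContinuousLinearMap.comp_apply, qψ_apply, qz_apply, smul_eq_mul, innerSL_apply_apply]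
  congr 2
  rw [Complex.inner, om]
  simp
  ring

theorem Psi_pull {t : ℝ} (ht : 0 < t) {α β : ℂ} (hαβ : ‖α‖ ^ 2 + ‖β‖ ^ 2 = 1) {x₀ : F K}
    {s₀ S₀ : ℝ} (h : ‖x₀‖ ^ 2 + s₀ ^ 2 + S₀ ^ 2 = 1)
    {jx : F k →L[ℝ] F K} {js : F k →L[ℝ] ℝ} {p : F k}
    (h1 : ∀ ξ η, inner ℝ (jx ξ) (jx η) + js ξ * js η + inner ℝ p ξ * inner ℝ p η = inner ℝ ξ η)
    (h2 : ∀ ξ, inner ℝ x₀ (jx ξ) + s₀ * js ξ + S₀ * inner ℝ p ξ = 0) (u a b : W k) :
    G t (Psi α β x₀ s₀ S₀ jx js p u) (fderiv ℝ (Psi α β x₀ s₀ S₀ jx js p) u a)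
      (fderiv ℝ (Psi α β x₀ s₀ S₀ jx js p) u b) = hmet t S₀ p u a b := by
  have hD : ∀ a : W k, fderiv ℝ (Psi α β x₀ s₀ S₀ jx js p) u a =
      Btan (ζa α β u.2.2) (ζb α β u.2.2)
        ((Sf S₀ p u.2.1 : ℂ) * Complex.exp (Complex.I * u.1))
        (fderiv ℝ (ζa α β) u.2.2 a.2.2) (fderiv ℝ (ζb α β) u.2.2 a.2.2)
        (Complex.exp (Complex.I * u.1) * ((fderiv ℝ (Sf S₀ p) u.2.1 a.2.1 : ℂ)
          + Complex.I * (Sf S₀ p u.2.1 * a.1)))
        (fderiv ℝ (xf x₀ jx) u.2.1 a.2.1) (fderiv ℝ (sf s₀ js) u.2.1 a.2.1) := by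
    intro a
    have h := hasFDerivAt_Bpt (u := u)
      ((cd_ζa (k := k) α β).differentiable (by norm_num) u)
      ((cd_ζb (k := k) α β).differentiable (by norm_num) u)
      ((cd_ν S₀ p).differentiable (by norm_num) u)
      ((cd_xf x₀ jx).differentiable (by norm_num) u)
      ((cd_sf s₀ js).differentiable (by norm_num) u) a
    rw [fderiv_comp_qz (contDiff_ζa α β), fderiv_comp_qz (contDiff_ζb α β), fderiv_ν,
      fderiv_comp_qξ (contDiff_xf x₀ jx), fderiv_comp_qξ (contDiff_sf s₀ js)] at h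
    exact h
  rw [hD a, hD b]
  unfold G Psi
  rw [Gab_Btan _ _ _ _ (norm_ζ hαβ _) (conj_ζ_fderiv hαβ u.2.2 a.2.2)
    (conj_ζ_fderiv hαβ u.2.2 b.2.2), wedge_ζ_fderiv hαβ, wedge_ζ_fderiv hαβ]
  have hX : ∀ a : W k, Complex.exp (Complex.I * u.1) * ((fderiv ℝ (Sf S₀ p) u.2.1 a.2.1 : ℂ)
          + Complex.I * (Sf S₀ p u.2.1 * a.1))
        + Complex.I * (((1 + ‖u.2.2‖ ^ 2)⁻¹ * om u.2.2 a.2.2 : ℝ) : ℂ)
          * ((Sf S₀ p u.2.1 : ℂ) * Complex.exp (Complex.I * u.1))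
      = Complex.exp (Complex.I * u.1) * ((fderiv ℝ (Sf S₀ p) u.2.1 a.2.1 : ℂ)
          + ((Sf S₀ p u.2.1 * Af u.2.2 a : ℝ) : ℂ) * Complex.I) := by
    intro a
    rw [Af_eq]
    push_cast
    ring
  rw [hX a, hX b, inner_exp_mul, conj_exp_mul, conj_exp_mul]
  have hν : ‖(Sf S₀ p u.2.1 : ℂ) * Complex.exp (Complex.I * u.1)‖ ^ 2 = Sf S₀ p u.2.1 ^ 2 := by
    rw [norm_mul, norm_exp_I, mul_one, Complex.norm_real, Real.norm_eq_abs, sq_abs]
  rw [hν]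
  have hsph := sphere_metric h h1 h2 u.2.1 a.2.1 b.2.1
  rw [hmet_apply, ← hsph]
  have hin : ∀ P Q R S : ℝ, inner ℝ ((P : ℂ) + (Q : ℂ) * Complex.I) ((R : ℂ) + (S : ℂ) * Complex.I)
      = P * R + Q * S := by
    intro P Q R S
    rw [Complex.inner]
    simp
    ring
  have him : ∀ S P Q : ℝ, ((S : ℂ) * ((P : ℂ) + (Q : ℂ) * Complex.I)).im = S * Q := by
    intro S P Q
    simp
  rw [hin, him, him, real_inner_smul_left, real_inner_smul_right]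
  have hpos : t ^ 2 + Sf S₀ p u.2.1 ^ 2 ≠ 0 := by positivity
  have hz : (1 + ‖u.2.2‖ ^ 2) ≠ 0 := by positivity
  have e1 : Sf S₀ p u.2.1 ^ 2 + (2 - 2 * t * √(t ^ 2 + Sf S₀ p u.2.1 ^ 2) - Sf S₀ p u.2.1 ^ 2)
      = 2 - 2 * t * √(t ^ 2 + Sf S₀ p u.2.1 ^ 2) := by ring
  rw [e1]
  generalize √(t ^ 2 + Sf S₀ p u.2.1 ^ 2) = r
  field_simp
  ring

/-- The metric in the basic chart. -/
def gPhi (t : ℝ) (y : E K) : E K →L[ℝ] E K →L[ℝ] ℝ :=
  (G t (Phi y)).bilinearComp (fderiv ℝ Phi y) (fderiv ℝ Phi y)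

lemma isOpen_dom : IsOpen {p : V K | -1 < pd p ∧ -1 < ps p} :=
  (isOpen_lt continuous_const pd.continuous).inter (isOpen_lt continuous_const ps.continuous)

lemma finrank_W_eq : Module.finrank ℝ (W (K + 1)) = Module.finrank ℝ (E K) := by
  simp [W, E, F, Module.finrank_prod, Complex.finrank_real_complex]
  ring

theorem exists_coord {t : ℝ} (ht : 0 < t) (ht' : t ≤ 1 / 4) (y : E K) (hy : y.2.1 ≠ 0) :
    ∃ (S₀ : ℝ) (p : F (K + 1)) (φ : W (K + 1) → E K),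
      0 < S₀ ∧ S₀ ≤ 1 ∧ ‖p‖ ^ 2 = 1 - S₀ ^ 2 ∧ ContDiffAt ℝ ∞ φ 0 ∧ φ 0 = y ∧
      Function.Bijective (fderiv ℝ φ 0) ∧
      (fun u => (gPhi t (φ u)).bilinearComp (fderiv ℝ φ u) (fderiv ℝ φ u))
        =ᶠ[𝓝 0] hmet t S₀ p := by
  have hq : Phi y ∈ carrier K := Phi_mem y
  have hv : ¬ (pv0 (Phi y) = 0 ∧ pv1 (Phi y) = 0) := by
    rw [pv_Phi_eq_zero_iff]; exact hy
  obtain ⟨α, β, S, hαβ, hS, hqB, hsum⟩ := exists_Bpt hq hv
  have hsum' : ‖px (Phi y)‖ ^ 2 + ps (Phi y) ^ 2 + S ^ 2 = 1 := by linarith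
  obtain ⟨jx, js, p, h1, h2, hp⟩ := exists_sphere_frame (px (Phi y)) (ps (Phi y)) S hsum'
  set Ps : W (K + 1) → V K := Psi α β (px (Phi y)) (ps (Phi y)) S jx js p with hPs
  have hPs0 : Ps 0 = Phi y := by
    rw [hqB, hPs]
    simp [Psi, ζa, ζb, Sf, xf, sf]
  have hcd : ContDiff ℝ ∞ Ps := contDiff_Psi _ _ _ _ _ _ _ _
  have hmem : ∀ u, Ps u ∈ carrier K := fun u => Psi_mem hαβ hsum' h1 h2 u
  have hdom0 : Ps 0 ∈ {p : V K | -1 < pd p ∧ -1 < ps p} := by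
    rw [hPs0]; exact ⟨pd_Phi y, ps_Phi y⟩
  have hdom : ∀ᶠ u in 𝓝 (0 : W (K + 1)), Ps u ∈ {p : V K | -1 < pd p ∧ -1 < ps p} :=
    hcd.continuous.continuousAt.eventually (isOpen_dom.mem_nhds hdom0)
  have hφat : ∀ u : W (K + 1), Ps u ∈ {p : V K | -1 < pd p ∧ -1 < ps p} →
      ContDiffAt ℝ ∞ (fun u => kap (Ps u)) u := by
    intro u hu
    exact (contDiffOn_kap.contDiffAt (isOpen_dom.mem_nhds hu)).comp u hcd.contDiffAt
  have hPhiφ : (fun u => Phi (kap (Ps u))) =ᶠ[𝓝 0] Ps := by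
    filter_upwards [hdom] with u hu
    exact Phi_kap (hmem u) hu.1 hu.2
  have hchain : ∀ᶠ u in 𝓝 (0 : W (K + 1)),
      (fderiv ℝ Phi (kap (Ps u))).comp (fderiv ℝ (fun u => kap (Ps u)) u) = fderiv ℝ Ps u := by
    filter_upwards [hdom, hPhiφ.eventually_nhds] with u hu hu'
    have hd : DifferentiableAt ℝ (fun u => kap (Ps u)) u :=
      (hφat u hu).differentiableAt (by norm_num)
    have hd' : DifferentiableAt ℝ (Phi : E K → V K) (kap (Ps u)) :=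
      (contDiff_Phi.differentiable (by norm_num)) _
    have h3 := (hd'.hasFDerivAt.comp u hd.hasFDerivAt).fderiv
    rw [← Filter.EventuallyEq.fderiv_eq hu', ← h3]
    rfl
  have hmetric : (fun u => (gPhi t (kap (Ps u))).bilinearComp
      (fderiv ℝ (fun u => kap (Ps u)) u) (fderiv ℝ (fun u => kap (Ps u)) u))
        =ᶠ[𝓝 0] hmet t S p := by
    filter_upwards [hPhiφ, hchain] with u hu hu'
    refine ContinuousLinearMap.ext fun a => ContinuousLinearMap.ext fun b => ?_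
    have h3 := Psi_pull ht hαβ hsum' h1 h2 u a b
    rw [← h3]
    have h4 : ∀ a, fderiv ℝ Phi (kap (Ps u)) (fderiv ℝ (fun u => kap (Ps u)) u a)
        = fderiv ℝ Ps u a := fun a => by rw [← hu']; rfl
    show G t (Phi (kap (Ps u))) (fderiv ℝ Phi (kap (Ps u)) (fderiv ℝ (fun u => kap (Ps u)) u a))
      (fderiv ℝ Phi (kap (Ps u)) (fderiv ℝ (fun u => kap (Ps u)) u b)) = _
    rw [h4, h4]
    have h5 : Phi (kap (Ps u)) = Ps u := hu
    rw [h5]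
  have hS1 : S ≤ 1 := by nlinarith [sq_nonneg (‖px (Phi y)‖), sq_nonneg (ps (Phi y))]
  refine ⟨S, p, fun u => kap (Ps u), hS, hS1, hp, hφat 0 hdom0, ?_, ?_, hmetric⟩
  · show kap (Ps 0) = y
    rw [hPs0, kap_Phi]
  · have hinj : Function.Injective (fderiv ℝ (fun u => kap (Ps u)) 0) := by
      rw [injective_iff_map_eq_zero]
      intro a ha
      have h0 := congrArg (fun B : W (K + 1) →L[ℝ] W (K + 1) →L[ℝ] ℝ => B a a) hmetric.self_of_nhds
      have h3 : hmet t S p 0 a a = 0 := by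
        rw [← h0]
        show gPhi t (kap (Ps 0)) (fderiv ℝ (fun u => kap (Ps u)) 0 a)
          (fderiv ℝ (fun u => kap (Ps u)) 0 a) = 0
        rw [ha]; simp
      rw [hmet_apply] at h3
      simp only [Prod.snd_zero, Prod.fst_zero, norm_zero, Af_eq, om, Complex.zero_re,
        Complex.zero_im] at h3
      have hSf : Sf S p 0 = S := by simp [Sf]
      rw [hSf] at h3
      have hsq : √(t ^ 2 + S ^ 2) ≤ 2 := by
        rw [Real.sqrt_le_left (by norm_num)]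
        nlinarith
      have hH : 0 < 2 - 2 * t * √(t ^ 2 + S ^ 2) := by
        have : 0 ≤ √(t ^ 2 + S ^ 2) := Real.sqrt_nonneg _
        nlinarith
      have hf : 0 < t ^ 2 * S ^ 2 / (t ^ 2 + S ^ 2) := by positivity
      have e1 : inner ℝ a.2.1 a.2.1 = ‖a.2.1‖ ^ 2 := real_inner_self_eq_norm_sq _
      have e2 : inner ℝ a.2.2 a.2.2 = ‖a.2.2‖ ^ 2 := real_inner_self_eq_norm_sq _
      rw [e1, e2] at h3
      have h4 : ‖a.2.1‖ ^ 2 + t ^ 2 * S ^ 2 / (t ^ 2 + S ^ 2) * (a.1 ^ 2)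
          + (2 - 2 * t * √(t ^ 2 + S ^ 2)) * ‖a.2.2‖ ^ 2 = 0 := by
        rw [← h3]; ring
      have p1 : 0 ≤ ‖a.2.1‖ ^ 2 := by positivity
      have p2 : 0 ≤ t ^ 2 * S ^ 2 / (t ^ 2 + S ^ 2) * (a.1 ^ 2) := by positivity
      have p3 : 0 ≤ (2 - 2 * t * √(t ^ 2 + S ^ 2)) * ‖a.2.2‖ ^ 2 := by positivity
      have q1 : ‖a.2.1‖ ^ 2 = 0 := by linarith
      have q2 : t ^ 2 * S ^ 2 / (t ^ 2 + S ^ 2) * (a.1 ^ 2) = 0 := by linarith
      have q3 : (2 - 2 * t * √(t ^ 2 + S ^ 2)) * ‖a.2.2‖ ^ 2 = 0 := by linarith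
      have r1 : a.2.1 = 0 := by simpa using q1
      have r2 : a.1 = 0 := by
        rcases mul_eq_zero.1 q2 with h | h
        · exact absurd h hf.ne'
        · simpa using h
      have r3 : a.2.2 = 0 := by
        rcases mul_eq_zero.1 q3 with h | h
        · exact absurd h hH.ne'
        · simpa using h
      exact Prod.ext r2 (Prod.ext r1 r3)
    refine ⟨hinj, ?_⟩
    have := (LinearMap.injective_iff_surjective_of_finrank_eq_finrank
      (f := (fderiv ℝ (fun u => kap (Ps u)) 0).toLinearMap) finrank_W_eq).1 hinj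
    exact this

end Pool.Agent.H86.Anco
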