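import Pool.Agent.H86.Anco.Defs

/-!
# Module PULL: pulling back a smooth field of bilinear forms along an immersion

`M` is a smooth manifold modelled on the finite dimensional space `E`, `ι : M → V` a smooth
immersion into a normed space and `G : V → V →L V →L ℝ` a smooth field of symmetric bilinear
forms which is positive definite at the points `ι x`.  Then `ι^* G` is a smooth Riemannian metric.

Notes.  `inner x := (G (ι x)).bilinearComp (mfderiv ι x) (mfderiv ι x)` (identify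
`TangentSpace 𝓘(ℝ, E) x` with `E`, as in `inChart` in `Defs.lean`).  `isVonNBounded`: on the finite
dimensional space `E` a positive definite form `b` satisfies `c ‖v‖^2 ≤ b v v` for some `c > 0`
(compactness of the unit sphere), so `{v | b v v < 1}` is contained in a ball; see
`riemannianMetricVectorSpace` in `Mathlib/Geometry/Manifold/Riemannian/Basic.lean` for the
`IsVonNBounded` style.  `contMDiff`: use `contMDiffAt_section` /
`ContMDiffAt.mfderiv_const` (smoothness of `inTangentCoordinates`), or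
`contMDiffAt_hom_bundle`; in the trivialisation of the tangent bundle at `x₀` the section is
`(G (ι y)).bilinearComp D D` with `D = mfderiv ι y ∘ (tangent coordinate change)`.
-/

open scoped Manifold ContDiff Bundle Topology

noncomputable section

namespace Pool.Agent.H86.Anco

variable {E : Type*} [NormedAddCommGroup E] [NormedSpace ℝ E] [FiniteDimensional ℝ E]
  {M : Type*} [TopologicalSpace M] [ChartedSpace E M] [IsManifold 𝓘(ℝ, E) ∞ M]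
  {V : Type*} [NormedAddCommGroup V] [NormedSpace ℝ V]

/-- The bilinear form `ι^* G` on the tangent space at `x`, as a bilinear form on `E`. -/
def pullInner (ι : M → V) (G : V → V →L[ℝ] V →L[ℝ] ℝ) (x : M) : E →L[ℝ] E →L[ℝ] ℝ :=
  let D : E →L[ℝ] V := mfderiv 𝓘(ℝ, E) 𝓘(ℝ, V) ι x
  (G (ι x)).bilinearComp D D

omit [FiniteDimensional ℝ E] in
/-- The unit sublevel set of a form bounded below is bounded. -/
theorem isVonNBounded_of_posDef [FiniteDimensional ℝ E] (b : E →L[ℝ] E →L[ℝ] ℝ)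
    (hpos : ∀ v, v ≠ 0 → 0 < b v v) :
    Bornology.IsVonNBounded ℝ {v : E | b v v < 1} := by
  -- a positive constant `c` with `c ‖v‖^2 ≤ b v v`
  obtain ⟨c, hc, hcb⟩ : ∃ c : ℝ, 0 < c ∧ ∀ v : E, c * ‖v‖ ^ 2 ≤ b v v := by
    by_cases hne : (Metric.sphere (0 : E) 1).Nonempty
    · have hcont : Continuous (fun v : E => b v v) := by fun_prop
      obtain ⟨v₀, hv₀, hmin⟩ := (isCompact_sphere (0 : E) 1).exists_isMinOn hne
        hcont.continuousOn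
      have hv₀1 : ‖v₀‖ = 1 := by simpa using hv₀
      have hv₀0 : v₀ ≠ 0 := by
        intro h
        rw [h, norm_zero] at hv₀1
        exact zero_ne_one hv₀1
      refine ⟨b v₀ v₀, hpos v₀ hv₀0, fun v => ?_⟩
      by_cases hv : v = 0
      · subst hv
        simp
      · have hn : 0 < ‖v‖ := norm_pos_iff.2 hv
        have hu : (‖v‖⁻¹ • v) ∈ Metric.sphere (0 : E) 1 := by
          rw [mem_sphere_zero_iff_norm, norm_smul, norm_inv, norm_norm, inv_mul_cancel₀ hn.ne']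
        have h1 : b v₀ v₀ ≤ b (‖v‖⁻¹ • v) (‖v‖⁻¹ • v) := hmin hu
        have h2 : b (‖v‖⁻¹ • v) (‖v‖⁻¹ • v) = ‖v‖⁻¹ * (‖v‖⁻¹ * b v v) := by
          simp
        rw [h2] at h1
        have h3 : b v₀ v₀ * ‖v‖ ^ 2 ≤ (‖v‖⁻¹ * (‖v‖⁻¹ * b v v)) * ‖v‖ ^ 2 :=
          mul_le_mul_of_nonneg_right h1 (by positivity)
        calc b v₀ v₀ * ‖v‖ ^ 2 ≤ (‖v‖⁻¹ * (‖v‖⁻¹ * b v v)) * ‖v‖ ^ 2 := h3
          _ = b v v := by field_simp
    · refine ⟨1, one_pos, fun v => ?_⟩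
      by_cases hv : v = 0
      · subst hv
        simp
      · exfalso
        apply hne
        have hn : 0 < ‖v‖ := norm_pos_iff.2 hv
        exact ⟨‖v‖⁻¹ • v, by
          rw [mem_sphere_zero_iff_norm, norm_smul, norm_inv, norm_norm, inv_mul_cancel₀ hn.ne']⟩
  refine (NormedSpace.isVonNBounded_ball ℝ E (Real.sqrt (1 / c) + 1)).subset ?_
  intro v hv
  simp only [Set.mem_ofPred_eq] at hv
  rw [mem_ball_zero_iff]
  have h1 : c * ‖v‖ ^ 2 < 1 := lt_of_le_of_lt (hcb v) hv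
  have h2 : ‖v‖ ^ 2 ≤ 1 / c := by
    rw [le_div_iff₀ hc]
    linarith
  have h3 : ‖v‖ ≤ Real.sqrt (1 / c) := Real.le_sqrt_of_sq_le h2
  linarith

theorem contDiff_flip_aux {A B : Type*} [NormedAddCommGroup A] [NormedSpace ℝ A]
    [NormedAddCommGroup B] [NormedSpace ℝ B] :
    ContDiff ℝ ∞ (fun f : A →L[ℝ] B →L[ℝ] ℝ => f.flip) := by
  have L : ContDiff ℝ ∞ (((ContinuousLinearMap.flipₗᵢ ℝ A B ℝ).toContinuousLinearEquiv :
      (A →L[ℝ] B →L[ℝ] ℝ) →L[ℝ] (B →L[ℝ] A →L[ℝ] ℝ))) :=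
    ContinuousLinearMap.contDiff (F := B →L[ℝ] A →L[ℝ] ℝ) (E := A →L[ℝ] B →L[ℝ] ℝ) _
  exact L

omit [FiniteDimensional ℝ E] [IsManifold 𝓘(ℝ, E) ∞ M] in
theorem contMDiffAt_flip_aux {A B : Type*} [NormedAddCommGroup A] [NormedSpace ℝ A]
    [NormedAddCommGroup B] [NormedSpace ℝ B] {F : M → A →L[ℝ] B →L[ℝ] ℝ} {x₀ : M}
    (hF : ContMDiffAt 𝓘(ℝ, E) 𝓘(ℝ, A →L[ℝ] B →L[ℝ] ℝ) ∞ F x₀) :
    ContMDiffAt 𝓘(ℝ, E) 𝓘(ℝ, B →L[ℝ] A →L[ℝ] ℝ) ∞ (fun x => (F x).flip) x₀ := by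
  have h1 := (contDiff_flip_aux (A := A) (B := B)).contMDiff (F x₀)
  exact ContMDiffAt.comp (g := fun f : A →L[ℝ] B →L[ℝ] ℝ => f.flip) x₀ h1 hF

omit [FiniteDimensional ℝ E] [IsManifold 𝓘(ℝ, E) ∞ M] in
/-- Smoothness of `x ↦ (G x).bilinearComp (D x) (D x)`. -/
theorem contMDiffAt_bilinearComp {G : M → V →L[ℝ] V →L[ℝ] ℝ} {D : M → E →L[ℝ] V} {x₀ : M}
    (hG : ContMDiffAt 𝓘(ℝ, E) 𝓘(ℝ, V →L[ℝ] V →L[ℝ] ℝ) ∞ G x₀)
    (hD : ContMDiffAt 𝓘(ℝ, E) 𝓘(ℝ, E →L[ℝ] V) ∞ D x₀) :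
    ContMDiffAt 𝓘(ℝ, E) 𝓘(ℝ, E →L[ℝ] E →L[ℝ] ℝ) ∞
      (fun x => (G x).bilinearComp (D x) (D x)) x₀ :=
  contMDiffAt_flip_aux ((contMDiffAt_flip_aux (hG.clm_comp hD)).clm_comp hD)

theorem exists_pullMetric (ι : M → V) (G : V → V →L[ℝ] V →L[ℝ] ℝ)
    (hι : ContMDiff 𝓘(ℝ, E) 𝓘(ℝ, V) ∞ ι) (hG : ContDiff ℝ ∞ G)
    (himm : ∀ x, Function.Injective (mfderiv 𝓘(ℝ, E) 𝓘(ℝ, V) ι x))
    (hsymm : ∀ x v w, G (ι x) v w = G (ι x) w v)
    (hpos : ∀ x v, v ≠ 0 → 0 < G (ι x) v v) :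
    ∃ g : RMetric E M, ∀ x : M, (g.inner x : E →L[ℝ] E →L[ℝ] ℝ) = pullInner (E := E) ι G x := by
  refine ⟨{ inner := fun x => (pullInner (E := E) ι G x : E →L[ℝ] E →L[ℝ] ℝ)
            symm := ?_
            pos := ?_
            isVonNBounded := ?_
            contMDiff := ?_ }, fun x => rfl⟩
  · intro x v w
    exact hsymm x _ _
  · intro x v hv
    have h : (mfderiv 𝓘(ℝ, E) 𝓘(ℝ, V) ι x v) ≠ 0 := by
      intro h0
      apply hv
      apply himm x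
      exact h0.trans
        (ContinuousLinearMap.map_zero (mfderiv 𝓘(ℝ, E) 𝓘(ℝ, V) ι x)).symm
    exact hpos x _ h
  · intro x
    refine isVonNBounded_of_posDef (pullInner (E := E) ι G x : E →L[ℝ] E →L[ℝ] ℝ) ?_
    intro v hv
    have h : (mfderiv 𝓘(ℝ, E) 𝓘(ℝ, V) ι x v) ≠ 0 := by
      intro h0
      apply hv
      apply himm x
      exact h0.trans
        (ContinuousLinearMap.map_zero (mfderiv 𝓘(ℝ, E) 𝓘(ℝ, V) ι x)).symm
    exact hpos x _ h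
  · intro x₀
    rw [contMDiffAt_hom_bundle]
    refine ⟨contMDiffAt_id, ?_⟩
    have hD := (hι x₀).mfderiv_const (m := ∞) (by simp)
    have hGι : ContMDiffAt 𝓘(ℝ, E) 𝓘(ℝ, V →L[ℝ] V →L[ℝ] ℝ) ∞ (fun x => G (ι x)) x₀ :=
      (hG.contMDiff.contMDiffAt).comp x₀ (hι x₀)
    refine (contMDiffAt_bilinearComp hGι hD).congr_of_eventuallyEq ?_
    have hx : ∀ᶠ x in 𝓝 x₀, x ∈ (trivializationAt E (TangentSpace 𝓘(ℝ, E)) x₀).baseSet :=
      (trivializationAt E (TangentSpace 𝓘(ℝ, E)) x₀).open_baseSet.mem_nhds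
        (FiberBundle.mem_baseSet_trivializationAt' x₀)
    filter_upwards [hx] with x hx
    ext v w
    rw [inCoordinates_apply_eq₂ hx hx (by simp)]
    have hDx : ∀ u : E, inTangentCoordinates 𝓘(ℝ, E) 𝓘(ℝ, V) id ι (mfderiv 𝓘(ℝ, E) 𝓘(ℝ, V) ι)
        x₀ x u = mfderiv 𝓘(ℝ, E) 𝓘(ℝ, V) ι x
          ((trivializationAt E (TangentSpace 𝓘(ℝ, E)) x₀).symm x u) := by
      intro u
      simp only [inTangentCoordinates, ContinuousLinearMap.inCoordinates, id_eq,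
        TangentBundle.continuousLinearMapAt_model_space]
      have h := Bundle.Trivialization.symmL_apply (R := ℝ)
        (trivializationAt E (TangentSpace 𝓘(ℝ, E)) x₀) hx u
      change mfderiv 𝓘(ℝ, E) 𝓘(ℝ, V) ι x (Bundle.Trivialization.symmL ℝ
        (trivializationAt E (TangentSpace 𝓘(ℝ, E)) x₀) x u) = _
      exact congrArg _ h
    change _ = G (ι x)
      (inTangentCoordinates 𝓘(ℝ, E) 𝓘(ℝ, V) id ι (mfderiv 𝓘(ℝ, E) 𝓘(ℝ, V) ι) x₀ x v)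
      (inTangentCoordinates 𝓘(ℝ, E) 𝓘(ℝ, V) id ι (mfderiv 𝓘(ℝ, E) 𝓘(ℝ, V) ι) x₀ x w)
    rw [hDx v, hDx w]
    simp
    rfl

/-- The pulled back metric in a chart is the pull back by the inverse of the chart. -/
theorem inChart_pullMetric (ι : M → V) (G : V → V →L[ℝ] V →L[ℝ] ℝ)
    (hι : ContMDiff 𝓘(ℝ, E) 𝓘(ℝ, V) ∞ ι) (g : RMetric E M)
    (hg : ∀ x : M, (g.inner x : E →L[ℝ] E →L[ℝ] ℝ) = pullInner (E := E) ι G x)
    (x : M) (hx : (extChartAt 𝓘(ℝ, E) x).target = Set.univ) (y : E) :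
    inChart g x y = (G (ι ((extChartAt 𝓘(ℝ, E) x).symm y))).bilinearComp
      (fderiv ℝ (fun u => ι ((extChartAt 𝓘(ℝ, E) x).symm u)) y)
      (fderiv ℝ (fun u => ι ((extChartAt 𝓘(ℝ, E) x).symm u)) y) := by
  have hsymm : MDifferentiableAt 𝓘(ℝ, E) 𝓘(ℝ, E) (extChartAt 𝓘(ℝ, E) x).symm y := by
    have h := mdifferentiableWithinAt_extChartAt_symm (I := 𝓘(ℝ, E)) (x := x) (z := y)
      (by rw [hx]; exact Set.mem_univ y)
    simpa [mdifferentiableWithinAt_univ] using h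
  have hι1 : MDifferentiableAt 𝓘(ℝ, E) 𝓘(ℝ, V) ι ((extChartAt 𝓘(ℝ, E) x).symm y) :=
    (hι _).mdifferentiableAt (by simp)
  have hcomp : (fderiv ℝ (fun u => ι ((extChartAt 𝓘(ℝ, E) x).symm u)) y) =
      (mfderiv 𝓘(ℝ, E) 𝓘(ℝ, V) ι ((extChartAt 𝓘(ℝ, E) x).symm y)).comp
        (mfderiv 𝓘(ℝ, E) 𝓘(ℝ, E) (extChartAt 𝓘(ℝ, E) x).symm y) := by
    rw [← mfderiv_eq_fderiv]
    exact mfderiv_comp y hι1 hsymm
  unfold inChart
  simp only [hg]
  rw [hcomp]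
  rfl

end Pool.Agent.H86.Anco
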