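import Mathlib

/-!
# Module VK: a simple form of van Kampen's theorem

If a space is covered by simply connected open sets that share a base point and have path
connected pairwise intersections, then it is simply connected.

Proof.  Path connected: clear.  Let `γ` be a loop at `x₀`.  By the Lebesgue number lemma
(`lebesgue_number_lemma` / `exists_monotone_Icc_subset_open_cover_unitInterval`) there is a
subdivision `0 = t₀ ≤ t₁ ≤ … ≤ t_N = 1` such that `γ [t_k, t_(k+1)] ⊆ U (a k)`.
Claim by induction on `k ≥ 1`: the restriction of `γ` to `[0, t_k]` is homotopic rel endpoints (in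
`X`) to any path from `x₀` to `γ (t_k)` which stays inside `U (a (k-1))`.  Step: let `q` be a path
from `x₀` to `γ (t_k)` inside `U (a (k-1)) ∩ U (a k)` (path connected, contains both points).  Then
`γ|[0,t_(k+1)] ≃ γ|[0,t_k] · γ|[t_k,t_(k+1)] ≃ q · γ|[t_k,t_(k+1)]`, a path inside `U (a k)`, hence
homotopic to any other path in `U (a k)` with the same endpoints because `U (a k)` is simply
connected.  At `k = N` take the constant path.
Alternatively (maybe shorter): use a path lifting / clopen argument of your choice.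
-/

open Topology unitInterval

namespace Pool.Agent.H86.Anco

theorem homotopic_of_mem {X : Type*} [TopologicalSpace X] {U : Set X}
    (hsc : SimplyConnectedSpace U) {x y : X} (p q : Path x y) (hp : ∀ t, p t ∈ U)
    (hq : ∀ t, q t ∈ U) : p.Homotopic q := by
  have hx : x ∈ U := by simpa using hp 0
  have hy : y ∈ U := by simpa using hp 1
  let p' : Path (⟨x, hx⟩ : U) ⟨y, hy⟩ :=
    { toFun := fun t => ⟨p t, hp t⟩
      source' := by simp
      target' := by simp }
  let q' : Path (⟨x, hx⟩ : U) ⟨y, hy⟩ :=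
    { toFun := fun t => ⟨q t, hq t⟩
      source' := by simp
      target' := by simp }
  have h := (SimplyConnectedSpace.paths_homotopic p' q').map
    (⟨Subtype.val, continuous_subtype_val⟩ : C(U, X))
  exact h

theorem homotopic_of_mem₂ {X : Type*} [TopologicalSpace X] {U V : Set X}
    (hU : SimplyConnectedSpace U) (hV : SimplyConnectedSpace V) (hUV : IsPathConnected (U ∩ V))
    {x y : X} (p q : Path x y) (hp : ∀ t, p t ∈ U) (hq : ∀ t, q t ∈ V) : p.Homotopic q := by
  have hx : x ∈ U ∩ V := ⟨by simpa using hp 0, by simpa using hq 0⟩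
  have hy : y ∈ U ∩ V := ⟨by simpa using hp 1, by simpa using hq 1⟩
  obtain ⟨r, hr⟩ := hUV.joinedIn x hx y hy
  exact (homotopic_of_mem hU p r hp fun t => (hr t).1).trans
    (homotopic_of_mem hV r q (fun t => (hr t).2) hq)

theorem homotopic_through {X ι : Type*} [TopologicalSpace X] (U : ι → Set X)
    (hU : ∀ i, IsOpen (U i)) (hcov : ∀ x, ∃ i, x ∈ U i) (x₀ : X) (h₀ : ∀ i, x₀ ∈ U i)
    (hsc : ∀ i, SimplyConnectedSpace (U i)) (hpc : ∀ i j, IsPathConnected (U i ∩ U j))
    {x y : X} (γ : Path x y) (j : ι) (b : Path x₀ x) (hb : ∀ t, b t ∈ U j) (i : ι)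
    (q : Path x₀ y) (hq : ∀ t, q t ∈ U i) : (b.trans γ).Homotopic q := by
  obtain ⟨t, ht0, htm, ⟨n, htn⟩, htU⟩ :=
    exists_monotone_Icc_subset_open_cover_unitInterval (c := fun i => γ ⁻¹' U i)
      (fun i => (hU i).preimage γ.continuous) (by
        intro s _
        obtain ⟨i, hi⟩ := hcov (γ s)
        exact Set.mem_iUnion.2 ⟨i, hi⟩)
  rcases γ with ⟨f, hx, hy⟩
  subst hx
  subst hy
  set γ : Path (f.toFun 0) (f.toFun 1) := ⟨f, rfl, rfl⟩ with hγ
  have claim : ∀ k : ℕ, ∀ τ, τ = t k → ∀ (i : ι) (q : Path x₀ (γ τ)), (∀ s, q s ∈ U i) →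
      (b.trans (γ.subpath 0 τ)).Homotopic q := by
    intro k
    induction k with
    | zero =>
      intro τ hτ i q hq
      rw [ht0] at hτ
      subst hτ
      rw [Path.subpath_self]
      have h1 : (b.trans (Path.refl (γ 0))).Homotopic b := ⟨Path.Homotopy.transRefl b⟩
      exact h1.trans (homotopic_of_mem₂ (hsc j) (hsc i) (hpc j i) b q hb hq)
    | succ k ih =>
      intro τ hτ i q hq
      obtain ⟨a, ha⟩ := htU k
      have hkk : t k ≤ t (k + 1) := htm (Nat.le_succ k)
      have hka : γ (t k) ∈ U a := ha ⟨le_rfl, hkk⟩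
      have haa : IsPathConnected (U a ∩ U a) := hpc a a
      obtain ⟨r, hr⟩ := haa.joinedIn x₀ ⟨h₀ a, h₀ a⟩ (γ (t k)) ⟨hka, hka⟩
      have h1 : (b.trans (γ.subpath 0 (t k))).Homotopic r :=
        ih (t k) rfl a r fun s => (hr s).1
      have h2 : ((γ.subpath 0 (t k)).trans (γ.subpath (t k) τ)).Homotopic (γ.subpath 0 τ) :=
        ⟨Path.Homotopy.subpathTransSubpath γ 0 (t k) τ⟩
      have h3 : (b.trans (γ.subpath 0 τ)).Homotopic
          (b.trans ((γ.subpath 0 (t k)).trans (γ.subpath (t k) τ))) :=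
        Path.Homotopic.hcomp (Path.Homotopic.refl b) h2.symm
      have h4 : (b.trans ((γ.subpath 0 (t k)).trans (γ.subpath (t k) τ))).Homotopic
          ((b.trans (γ.subpath 0 (t k))).trans (γ.subpath (t k) τ)) :=
        Path.Homotopic.symm ⟨Path.Homotopy.transAssoc _ _ _⟩
      have h5 : ((b.trans (γ.subpath 0 (t k))).trans (γ.subpath (t k) τ)).Homotopic
          (r.trans (γ.subpath (t k) τ)) :=
        Path.Homotopic.hcomp h1 (Path.Homotopic.refl _)
      refine (h3.trans (h4.trans h5)).trans ?_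
      refine homotopic_of_mem₂ (hsc a) (hsc i) (hpc a i) _ q (fun s => ?_) hq
      have hs : (r.trans (γ.subpath (t k) τ)) s ∈ Set.range (r.trans (γ.subpath (t k) τ)) := ⟨s, rfl⟩
      rw [Path.trans_range, Path.range_subpath_of_le γ (t k) τ (hτ ▸ hkk)] at hs
      rcases hs with ⟨s', hs'⟩ | ⟨s', hs', hs''⟩
      · rw [← hs']
        exact (hr s').1
      · rw [← hs'']
        rw [hτ] at hs'
        exact ha hs'
  have h6 := claim n 1 (htn n le_rfl).symm i q hq
  rw [Path.subpath_zero_one] at h6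
  exact h6

theorem simplyConnected_of_open_cover {X ι : Type*} [TopologicalSpace X] (U : ι → Set X)
    (hU : ∀ i, IsOpen (U i)) (hcov : ∀ x, ∃ i, x ∈ U i) (x₀ : X) (h₀ : ∀ i, x₀ ∈ U i)
    (hsc : ∀ i, SimplyConnectedSpace (U i)) (hpc : ∀ i j, IsPathConnected (U i ∩ U j)) :
    SimplyConnectedSpace X := by
  have hex : ∀ x, ∃ (i : ι) (b : Path x₀ x), ∀ t, b t ∈ U i := by
    intro x
    obtain ⟨i, hi⟩ := hcov x
    obtain ⟨b, hb⟩ := (hpc i i).joinedIn x₀ ⟨h₀ i, h₀ i⟩ x ⟨hi, hi⟩
    exact ⟨i, b, fun t => (hb t).1⟩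
  rw [simply_connected_iff_paths_homotopic']
  refine ⟨⟨⟨x₀⟩, fun x y => ?_⟩, fun {x y} p₁ p₂ => ?_⟩
  · obtain ⟨_, b, _⟩ := hex x
    obtain ⟨_, c, _⟩ := hex y
    exact ⟨b.symm.trans c⟩
  · obtain ⟨j, b, hb⟩ := hex x
    obtain ⟨i, q, hq⟩ := hex y
    have h1 := homotopic_through U hU hcov x₀ h₀ hsc hpc p₁ j b hb i q hq
    have h2 := homotopic_through U hU hcov x₀ h₀ hsc hpc p₂ j b hb i q hq
    have h3 : (b.trans p₁).Homotopic (b.trans p₂) := h1.trans h2.symm
    have h4 : ∀ p : Path x y, (b.symm.trans (b.trans p)).Homotopic p := by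
      intro p
      have e1 : (b.symm.trans (b.trans p)).Homotopic ((b.symm.trans b).trans p) :=
        Path.Homotopic.symm ⟨Path.Homotopy.transAssoc _ _ _⟩
      have e2 : ((b.symm.trans b).trans p).Homotopic ((Path.refl x).trans p) :=
        Path.Homotopic.hcomp (Path.Homotopic.symm ⟨Path.Homotopy.reflSymmTrans b⟩)
          (Path.Homotopic.refl p)
      have e3 : ((Path.refl x).trans p).Homotopic p := ⟨Path.Homotopy.reflTrans p⟩
      exact e1.trans (e2.trans e3)
    exact (h4 p₁).symm.trans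
      ((Path.Homotopic.hcomp (Path.Homotopic.refl b.symm) h3).trans (h4 p₂))

end Pool.Agent.H86.Anco
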