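import Pool.Agent.H86.Anco.Charts
import Pool.Agent.H86.Anco.VK

/-!
# Module SC: `M K` is simply connected

Apply `simplyConnected_of_open_cover` to the four chart domains `(chart i).source`; each is
homeomorphic to the contractible space `E K` (`(chart i).toHomeomorphSourceTarget` and the target is
`univ`).  Base point: `sym (false, false) (Phi (1, 1, 0))`, which is
`(1, 0, 1/√2, 1/√2, 0, 0)`; all of `d = 0`, `s = 0` so it lies in all four domains.
Intersections: in the coordinates `y = (z, w, x)` of chart `i` the domain of chart `j` is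
`{z ≠ 0 or i.1 = j.1} ∩ {(w, x) ≠ 0 or i.2 = j.2}`: indeed
`pd (sym j (sym i (Phi y))) = ± pd (Phi y)`, and `1 - pd (Phi y) = 2‖z‖²/(1+‖z‖²)`,
`1 - ps (Phi y) = 2(‖w‖²+‖x‖²)/(1+‖w‖²+‖x‖²)`.
So it is the image under the continuous map `(chart i).symm` of a product of path connected sets
(`isPathConnected_compl_singleton_of_one_lt_rank` for `ℂ ∖ {0}` and for `(ℂ × ℝ^K) ∖ {0}`).
-/

open scoped Manifold ContDiff Bundle Topology

noncomputable section

namespace Pool.Agent.H86.Anco

variable {K : ℕ}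

lemma pd_sym (i : Bool × Bool) (p : V K) : pd (sym i p) = if i.1 then -pd p else pd p := by
  obtain ⟨c, d, v0, v1, x, s⟩ := p
  rcases i with ⟨_ | _, _ | _⟩ <;> simp [sym, sw, rf]

lemma ps_sym (i : Bool × Bool) (p : V K) : ps (sym i p) = if i.2 then -ps p else ps p := by
  obtain ⟨c, d, v0, v1, x, s⟩ := p
  rcases i with ⟨_ | _, _ | _⟩ <;> simp [sym, sw, rf]

lemma pd_Phi_lt_one (y : E K) : pd (Phi y) < 1 ↔ y.1 ≠ 0 := by
  have h : pd (Phi y) = (1 - ‖y.1‖ ^ 2) / (1 + ‖y.1‖ ^ 2) := rfl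
  have h1 : (0 : ℝ) < 1 + ‖y.1‖ ^ 2 := by positivity
  rw [h, div_lt_one h1]
  constructor
  · intro h2 h3
    rw [h3] at h2
    simp at h2
  · intro h2
    have : 0 < ‖y.1‖ := norm_pos_iff.2 h2
    have : 0 < ‖y.1‖ ^ 2 := by positivity
    linarith

lemma ps_Phi_lt_one (y : E K) : ps (Phi y) < 1 ↔ y.2 ≠ 0 := by
  have h : ps (Phi y) = (1 - ‖y.2.1‖ ^ 2 - ‖y.2.2‖ ^ 2) / (1 + ‖y.2.1‖ ^ 2 + ‖y.2.2‖ ^ 2) := rfl
  have h1 : (0 : ℝ) < 1 + ‖y.2.1‖ ^ 2 + ‖y.2.2‖ ^ 2 := by positivity
  rw [h, div_lt_one h1]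
  constructor
  · intro h2 h3
    rw [h3] at h2
    simp at h2
  · intro h2
    have h3 : y.2.1 ≠ 0 ∨ y.2.2 ≠ 0 := by
      by_contra hcon
      push Not at hcon
      exact h2 (Prod.ext hcon.1 hcon.2)
    rcases h3 with h3 | h3
    · have h4 : 0 < ‖y.2.1‖ := norm_pos_iff.2 h3
      have h5 : 0 < ‖y.2.1‖ ^ 2 := by positivity
      have h6 : 0 ≤ ‖y.2.2‖ ^ 2 := by positivity
      linarith
    · have h4 : 0 < ‖y.2.2‖ := norm_pos_iff.2 h3
      have h5 : 0 < ‖y.2.2‖ ^ 2 := by positivity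
      have h6 : 0 ≤ ‖y.2.1‖ ^ 2 := by positivity
      linarith

/-- the domain of chart `j` in the coordinates of chart `i` -/
def dom (K : ℕ) (i j : Bool × Bool) : Set (E K) :=
  {z : ℂ | i.1 = j.1 ∨ z ≠ 0} ×ˢ {u : ℂ × F K | i.2 = j.2 ∨ u ≠ 0}

lemma symm_mem_source (i j : Bool × Bool) (y : E K) :
    (chart i).symm y ∈ (chart j).source ↔ y ∈ dom K i j := by
  have h0 : (chart i).symm y ∈ (chart j).source ↔
      (-1 < pd (sym j (sym i (Phi y))) ∧ -1 < ps (sym j (sym i (Phi y)))) := Iff.rfl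
  rw [h0]
  have hd := pd_Phi y
  have hs := ps_Phi y
  have hd' := pd_Phi_lt_one y
  have hs' := ps_Phi_lt_one y
  have e1 : -1 < pd (sym j (sym i (Phi y))) ↔ (i.1 = j.1 ∨ y.1 ≠ 0) := by
    rw [pd_sym, pd_sym, ← hd']
    rcases i with ⟨_ | _, i2⟩ <;> rcases j with ⟨_ | _, j2⟩ <;> simp <;> linarith
  have e2 : -1 < ps (sym j (sym i (Phi y))) ↔ (i.2 = j.2 ∨ y.2 ≠ 0) := by
    rw [ps_sym, ps_sym, ← hs']
    rcases i with ⟨i1, _ | _⟩ <;> rcases j with ⟨j1, _ | _⟩ <;> simp <;> linarith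
  rw [e1, e2]
  rfl

lemma isPathConnected_aux {W : Type*} [NormedAddCommGroup W] [NormedSpace ℝ W]
    (hW : 1 < Module.rank ℝ W) (P : Prop) : IsPathConnected {u : W | P ∨ u ≠ 0} := by
  by_cases hP : P
  · have : {u : W | P ∨ u ≠ 0} = Set.univ := by
      ext u
      simp [hP]
    rw [this]
    exact isPathConnected_univ
  · have : {u : W | P ∨ u ≠ 0} = {0}ᶜ := by
      ext u
      simp [hP]
    rw [this]
    exact isPathConnected_compl_singleton_of_one_lt_rank hW 0

lemma isPathConnected_dom (i j : Bool × Bool) : IsPathConnected (dom K i j) := by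
  refine IsPathConnected.prod (isPathConnected_aux ?_ _) (isPathConnected_aux ?_ _)
  · rw [Complex.rank_real_complex]
    exact Cardinal.one_lt_two
  · have h1 : Module.rank ℝ (ℂ × F K) = 2 + Module.rank ℝ (F K) := by
      rw [rank_prod', Complex.rank_real_complex]
    rw [h1]
    exact Cardinal.one_lt_two.trans_le (self_le_add_right _ _)

lemma image_dom (i j : Bool × Bool) :
    (chart i).symm '' (dom K i j) = (chart i).source ∩ (chart j).source := by
  ext p
  constructor
  · rintro ⟨y, hy, rfl⟩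
    exact ⟨(chart i).map_target (Set.mem_univ y), (symm_mem_source i j y).2 hy⟩
  · rintro ⟨h1, h2⟩
    have h3 : (chart i).symm (chart i p) = p := (chart i).left_inv h1
    refine ⟨chart i p, ?_, h3⟩
    rw [← symm_mem_source, h3]
    exact h2

lemma continuousOn_chart_symm (i : Bool × Bool) :
    ContinuousOn (chart (K := K) i).symm Set.univ := (chart i).continuousOn_symm

instance instSimplyConnectedSpace : SimplyConnectedSpace (M K) := by
  refine simplyConnected_of_open_cover (fun i => (chart (K := K) i).source)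
    (fun i => (chart i).open_source) (fun p => ⟨idx p.1, pd_sym_idx p.1, ps_sym_idx p.1⟩)
    ((chart (false, false)).symm (1, 1, 0)) ?_ ?_ ?_
  · intro i
    rw [symm_mem_source]
    exact ⟨Or.inr one_ne_zero, Or.inr (fun h => one_ne_zero (congrArg Prod.fst h))⟩
  · intro i
    have e1 : (chart (K := K) i).source ≃ₜ (chart (K := K) i).target :=
      (chart i).toHomeomorphSourceTarget
    have e2 : (chart (K := K) i).target ≃ₜ E K := Homeomorph.Set.univ (E K)
    have : ContractibleSpace (chart (K := K) i).source := (e1.trans e2).contractibleSpace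
    infer_instance
  · intro i j
    rw [← image_dom]
    exact (isPathConnected_dom i j).image' ((continuousOn_chart_symm i).mono (Set.subset_univ _))

end Pool.Agent.H86.Anco
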