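import Pool.Agent.H86.Anco.CenterEst
import Pool.Agent.H86.Anco.Closed
import Pool.Agent.H86.Anco.Diam
import Pool.Agent.H86.Anco.MovedC
import Pool.Agent.H86.Anco.Pull
import Pool.Agent.H86.Anco.SC

/-!
# Assembly
-/

open scoped Manifold ContDiff Bundle Topology

noncomputable section

namespace Pool.Agent.H86.Anco

variable {K : ℕ}

lemma isMetricAt_gPhi {t : ℝ} (ht : 0 < t) (ht' : t ≤ 1 / 4) (y : E K) :
    IsMetricAt (gPhi (K := K) t) y := by
  have hP : ContDiff ℝ ∞ (Phi : E K → V K) := contDiff_Phi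
  have hdP : ContDiff ℝ ∞ (fderiv ℝ (Phi : E K → V K)) := hP.fderiv_right (by norm_num)
  refine ⟨Filter.Eventually.of_forall (fun y' => ?_), ?_, ?_⟩
  · apply ContDiff.contDiffAt
    have h1 : ContDiff ℝ ∞ (fun y : E K => G t (Phi y)) := (contDiff_G ht).comp hP
    rw [contDiff_clm_apply_iff]
    intro a
    rw [contDiff_clm_apply_iff]
    intro b
    have ha : ContDiff ℝ ∞ (fun y : E K => fderiv ℝ (Phi : E K → V K) y a) :=
      hdP.clm_apply contDiff_const
    have hb : ContDiff ℝ ∞ (fun y : E K => fderiv ℝ (Phi : E K → V K) y b) :=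
      hdP.clm_apply contDiff_const
    exact (h1.clm_apply ha).clm_apply hb
  · refine Filter.Eventually.of_forall (fun z a b => ?_)
    simp only [gPhi, ContinuousLinearMap.bilinearComp_apply]
    exact Gab_symm _ _ _ _ _
  · intro a ha
    simp only [gPhi, ContinuousLinearMap.bilinearComp_apply]
    apply G_pos ht ht' (Phi_mem y)
    intro h
    exact ha (fderiv_Phi_injective y (by rw [h, map_zero]))

lemma mem_closure_w_ne_zero (y : E K) : y ∈ closure {y : E K | y.2.1 ≠ 0} := by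
  have hc : Continuous (fun s : ℂ => ((y.1, s, y.2.2) : E K)) := by fun_prop
  have h1 : y.2.1 ∈ closure {s : ℂ | s ≠ 0} := by
    have : Dense {s : ℂ | s ≠ 0} := by
      have := dense_compl_singleton (0 : ℂ)
      exact this
    exact this _
  have h2 := image_closure_subset_closure_image hc (s := {s : ℂ | s ≠ 0}) ⟨y.2.1, h1, rfl⟩
  refine closure_mono ?_ h2
  rintro _ ⟨s, hs, rfl⟩
  exact hs

theorem curvOpGE_gPhi_of_ne {t : ℝ} (ht : 0 < t) (ht' : t ≤ 1 / 4) (y : E K) (hy : y.2.1 ≠ 0) :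
    CurvOpGE (gPhi (K := K) t) y (-t) := by
  obtain ⟨S₀, p, φ, hS, hS', hp, hφ, hφ0, hbij, heq⟩ := exists_coord ht ht' y hy
  have h := curvOpGE_hmet ht ht' hS hS' p hp
  have h2 := CurvOpGE.congr heq.symm h
  rw [← hφ0]
  exact CurvOpGE.of_pullback hφ hbij (isMetricAt_gPhi ht ht' _) h2

theorem curvOpGE_gPhi {t : ℝ} (ht : 0 < t) (ht' : t ≤ 1 / 4) (y : E K) :
    CurvOpGE (gPhi (K := K) t) y (-t) :=
  CurvOpGE.of_mem_closure (isMetricAt_gPhi ht ht' y)
    (closure_mono (fun z hz => curvOpGE_gPhi_of_ne ht ht' z hz) (mem_closure_w_ne_zero y))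

/-- Pulling back `Gab a b` by `sym i ∘ Phi` is the same as pulling back by `Phi`. -/
lemma pull_sym (a b : ℝ → ℝ) (i : Bool × Bool) (y : E K) :
    (Gab a b (sym i (Phi y))).bilinearComp (fderiv ℝ (fun u => sym i (Phi u)) y)
      (fderiv ℝ (fun u => sym i (Phi u)) y)
      = (Gab a b (Phi y)).bilinearComp (fderiv ℝ Phi y) (fderiv ℝ Phi y) := by
  have hd : DifferentiableAt ℝ (Phi : E K → V K) y :=
    (contDiff_Phi.differentiable (by norm_num)) y
  have h : fderiv ℝ (fun u => sym i (Phi u)) y = (sym i).comp (fderiv ℝ Phi y) :=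
    ((sym i).hasFDerivAt.comp y hd.hasFDerivAt).fderiv
  rw [h]
  ext X Y <;> simp [Gab_sym]

theorem exists_metric {t : ℝ} (ht : 0 < t) (ht' : t ≤ 1 / 4) :
    ∃ g : RMetric (E K) (M K), HasCurvOpGE g (-t) ∧
      ∀ x : M K, (g.inner x : E K →L[ℝ] E K →L[ℝ] ℝ)
        = pullInner (E := E K) (Subtype.val : M K → V K) (G t) x := by
  obtain ⟨g, hg⟩ := exists_pullMetric (E := E K) (M := M K) (Subtype.val : M K → V K) (G t)
    contMDiff_incl (contDiff_G ht) mfderiv_incl_injective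
    (fun _ _ _ => Gab_symm _ _ _ _ _) (fun x _ hv => G_pos ht ht' x.2 hv)
  refine ⟨g, ?_, hg⟩
  intro x
  have h : inChart g x = gPhi (K := K) t := by
    funext y
    rw [inChart_pullMetric (Subtype.val : M K → V K) (G t) contMDiff_incl g hg x
      (extChartAt_target x) y]
    simp only [coe_extChartAt_symm]
    exact pull_sym _ _ _ y
  rw [h]
  exact curvOpGE_gPhi ht ht' _

theorem exists_std_metric :
    ∃ g : RMetric (E K) (M K),
      ∀ x : M K, (g.inner x : E K →L[ℝ] E K →L[ℝ] ℝ)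
        = pullInner (E := E K) (Subtype.val : M K → V K) Gstd x :=
  exists_pullMetric (E := E K) (M := M K) (Subtype.val : M K → V K) Gstd
    contMDiff_incl contDiff_Gstd mfderiv_incl_injective
    (fun _ _ _ => Gab_symm _ _ _ _ _) (fun _ _ hv => Gstd_pos _ hv)

theorem admitsANCO (K : ℕ) : AdmitsANCO (E K) (M K) := by
  intro ε hε
  obtain ⟨g₀, hg₀⟩ := exists_std_metric (K := K)
  have hfin : riemDiam g₀ ≠ ⊤ := riemDiam_ne_top g₀
  set D : ℝ := (riemDiam g₀).toReal with hD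
  have hD0 : 0 ≤ D := ENNReal.toReal_nonneg
  -- choose `t` with `t * D ^ 2 < ε`
  let t : ℝ := min (1 / 4) (ε / (2 * (D ^ 2 + 1)))
  have hpos : 0 < 2 * (D ^ 2 + 1) := by positivity
  have ht : 0 < t := lt_min (by norm_num) (by positivity)
  have ht' : t ≤ 1 / 4 := min_le_left _ _
  have ht'' : t ≤ ε / (2 * (D ^ 2 + 1)) := min_le_right _ _
  obtain ⟨g, hg, hgi⟩ := exists_metric (K := K) ht ht'
  have hle : riemDiam g ≤ riemDiam g₀ := by
    apply riemDiam_mono
    intro x v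
    have h1 := congrArg (fun B : E K →L[ℝ] E K →L[ℝ] ℝ => B v v) (hgi x)
    have h2 := congrArg (fun B : E K →L[ℝ] E K →L[ℝ] ℝ => B v v) (hg₀ x)
    refine h1.le.trans (le_trans ?_ h2.ge)
    exact G_le_Gstd ht ht' x.2 _
  have hgfin : riemDiam g ≠ ⊤ := ne_top_of_le_ne_top hfin hle
  refine ⟨g, -t, hg, hgfin, ?_⟩
  have hDle : (riemDiam g).toReal ≤ D := ENNReal.toReal_mono hfin hle
  have h0 : 0 ≤ (riemDiam g).toReal := ENNReal.toReal_nonneg
  have hsq : (riemDiam g).toReal ^ 2 ≤ D ^ 2 := by gcongr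
  have h3 : t * (riemDiam g).toReal ^ 2 ≤ ε / (2 * (D ^ 2 + 1)) * D ^ 2 := by
    gcongr
  have h4 : ε / (2 * (D ^ 2 + 1)) * D ^ 2 < ε := by
    rw [div_mul_eq_mul_div, div_lt_iff₀ hpos]
    nlinarith [sq_nonneg D]
  linarith

end Pool.Agent.H86.Anco
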