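import Mathlib

/-!
# The nontrivial sphere bundle over `S²`

`M K` is the unit sphere bundle of `L ⊕ ℝ^(K+1)` over `CP¹ = S²`, where `L` is the tautological
complex line bundle.  A point is `(c, d, v₀, v₁, x, s)` with `(c, d) ∈ S² ⊂ ℂ × ℝ`,
`(v₀, v₁) ∈ ℂ²` in the line belonging to `(c, d)` and `(x, s) ∈ ℝ^K × ℝ`.
-/

open scoped Manifold ContDiff Bundle Topology

noncomputable section

namespace Pool.Agent.H86.Anco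

/-- `ℝ^K`. -/
abbrev F (K : ℕ) : Type := EuclideanSpace ℝ (Fin K)

/-- The ambient space, with coordinates `(c, d, v₀, v₁, x, s)`. -/
abbrev V (K : ℕ) : Type := ℂ × ℝ × ℂ × ℂ × F K × ℝ

/-- The model space, with coordinates `(z, w, x)`; its real dimension is `K + 4`. -/
abbrev E (K : ℕ) : Type := ℂ × ℂ × F K

variable {K : ℕ}

/-- The coordinates of the ambient space as continuous linear maps. -/
def pc : V K →L[ℝ] ℂ := ContinuousLinearMap.fst ℝ ℂ (ℝ × ℂ × ℂ × F K × ℝ)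

def pd : V K →L[ℝ] ℝ :=
  (ContinuousLinearMap.fst ℝ ℝ (ℂ × ℂ × F K × ℝ)).comp
    (ContinuousLinearMap.snd ℝ ℂ (ℝ × ℂ × ℂ × F K × ℝ))

def pv0 : V K →L[ℝ] ℂ :=
  (ContinuousLinearMap.fst ℝ ℂ (ℂ × F K × ℝ)).comp
    ((ContinuousLinearMap.snd ℝ ℝ (ℂ × ℂ × F K × ℝ)).comp
      (ContinuousLinearMap.snd ℝ ℂ (ℝ × ℂ × ℂ × F K × ℝ)))

def pv1 : V K →L[ℝ] ℂ :=
  (ContinuousLinearMap.fst ℝ ℂ (F K × ℝ)).comp
    ((ContinuousLinearMap.snd ℝ ℂ (ℂ × F K × ℝ)).comp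
      ((ContinuousLinearMap.snd ℝ ℝ (ℂ × ℂ × F K × ℝ)).comp
        (ContinuousLinearMap.snd ℝ ℂ (ℝ × ℂ × ℂ × F K × ℝ))))

def px : V K →L[ℝ] F K :=
  (ContinuousLinearMap.fst ℝ (F K) ℝ).comp
    ((ContinuousLinearMap.snd ℝ ℂ (F K × ℝ)).comp
      ((ContinuousLinearMap.snd ℝ ℂ (ℂ × F K × ℝ)).comp
        ((ContinuousLinearMap.snd ℝ ℝ (ℂ × ℂ × F K × ℝ)).comp
          (ContinuousLinearMap.snd ℝ ℂ (ℝ × ℂ × ℂ × F K × ℝ)))))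

def ps : V K →L[ℝ] ℝ :=
  (ContinuousLinearMap.snd ℝ (F K) ℝ).comp
    ((ContinuousLinearMap.snd ℝ ℂ (F K × ℝ)).comp
      ((ContinuousLinearMap.snd ℝ ℂ (ℂ × F K × ℝ)).comp
        ((ContinuousLinearMap.snd ℝ ℝ (ℂ × ℂ × F K × ℝ)).comp
          (ContinuousLinearMap.snd ℝ ℂ (ℝ × ℂ × ℂ × F K × ℝ)))))

@[simp] lemma pc_apply (c : ℂ) (d : ℝ) (v0 v1 : ℂ) (x : F K) (s : ℝ) :
    pc ((c, d, v0, v1, x, s) : V K) = c := rfl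
@[simp] lemma pd_apply (c : ℂ) (d : ℝ) (v0 v1 : ℂ) (x : F K) (s : ℝ) :
    pd ((c, d, v0, v1, x, s) : V K) = d := rfl
@[simp] lemma pv0_apply (c : ℂ) (d : ℝ) (v0 v1 : ℂ) (x : F K) (s : ℝ) :
    pv0 ((c, d, v0, v1, x, s) : V K) = v0 := rfl
@[simp] lemma pv1_apply (c : ℂ) (d : ℝ) (v0 v1 : ℂ) (x : F K) (s : ℝ) :
    pv1 ((c, d, v0, v1, x, s) : V K) = v1 := rfl
@[simp] lemma px_apply (c : ℂ) (d : ℝ) (v0 v1 : ℂ) (x : F K) (s : ℝ) :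
    px ((c, d, v0, v1, x, s) : V K) = x := rfl
@[simp] lemma ps_apply (c : ℂ) (d : ℝ) (v0 v1 : ℂ) (x : F K) (s : ℝ) :
    ps ((c, d, v0, v1, x, s) : V K) = s := rfl

/-- The total space of the unit sphere bundle of `L ⊕ ℝ^(K+1)` over `S²`: `(c, d)` lies on the
unit sphere `S²` of `ℂ × ℝ`, the vector `(v₀, v₁)` lies on the complex line of `ℂ²` which
corresponds to `(c, d)` (the image of the projection matrix `1/2 (1+d, conj c; c, 1-d)`), and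
`‖v₀‖² + ‖v₁‖² + ‖x‖² + s² = 1`. -/
def carrier (K : ℕ) : Set (V K) :=
  {p | ‖pc p‖ ^ 2 + pd p ^ 2 = 1 ∧ ((1 + pd p : ℝ) : ℂ) * pv1 p = pc p * pv0 p ∧
    ((1 - pd p : ℝ) : ℂ) * pv0 p = (starRingEnd ℂ) (pc p) * pv1 p ∧
    ‖pv0 p‖ ^ 2 + ‖pv1 p‖ ^ 2 + ‖px p‖ ^ 2 + ps p ^ 2 = 1}

/-- The manifold, as a topological space. -/
abbrev M (K : ℕ) : Type := carrier K

/-- The basic parametrisation `E K → M K`. -/
def Phi (y : E K) : V K :=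
  ((2 / (1 + ‖y.1‖ ^ 2) : ℝ) • y.1, (1 - ‖y.1‖ ^ 2) / (1 + ‖y.1‖ ^ 2),
    (2 / (1 + ‖y.2.1‖ ^ 2 + ‖y.2.2‖ ^ 2) / √(1 + ‖y.1‖ ^ 2) : ℝ) • y.2.1,
    (2 / (1 + ‖y.2.1‖ ^ 2 + ‖y.2.2‖ ^ 2) / √(1 + ‖y.1‖ ^ 2) : ℝ) • (y.2.1 * y.1),
    (2 / (1 + ‖y.2.1‖ ^ 2 + ‖y.2.2‖ ^ 2) : ℝ) • y.2.2,
    (1 - ‖y.2.1‖ ^ 2 - ‖y.2.2‖ ^ 2) / (1 + ‖y.2.1‖ ^ 2 + ‖y.2.2‖ ^ 2))

/-- The inverse of the basic parametrisation. -/
def kap (p : V K) : E K :=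
  ((1 / (1 + pd p) : ℝ) • pc p, (√(2 / (1 + pd p)) / (1 + ps p) : ℝ) • pv0 p,
    (1 / (1 + ps p) : ℝ) • px p)

/-- The swap of the two coordinates of `ℂ²`, as a linear symmetry of the ambient space. -/
def sw : V K →L[ℝ] V K :=
  ((Complex.conjCLE : ℂ →L[ℝ] ℂ).comp pc).prod ((-pd).prod (pv1.prod (pv0.prod (px.prod ps))))

/-- The reflection `s ↦ -s`, as a linear symmetry of the ambient space. -/
def rf : V K →L[ℝ] V K := pc.prod (pd.prod (pv0.prod (pv1.prod (px.prod (-ps)))))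

/-- The four symmetries `id, rf, sw, sw ∘ rf` of the ambient space. -/
def sym (i : Bool × Bool) : V K →L[ℝ] V K :=
  (if i.1 then sw else ContinuousLinearMap.id ℝ _).comp
    (if i.2 then rf else ContinuousLinearMap.id ℝ _)

end Pool.Agent.H86.Anco
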